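import Pool.Agent.FdF.Defs

/-!
Task B2: the two numerical inequalities bounding `b`.
-/

set_option autoImplicit false

namespace Pool.Agent.FdF

open Finset Classical

namespace WOG

private lemma bnum_core (e0 e1 e2 n0 n1 n2 b : ℝ) (he : e0 + e1 + e2 = 0)
    (he2 : e0 ^ 2 + e1 ^ 2 + e2 ^ 2 ≤ 132 / 10000) (h1 : 0 ≤ n1) (h2 : 0 ≤ n2)
    (hn0 : n0 ≤ 1 / 3 + e0) (hb : b = 1 / 3 + e0 - 2 * n0 + (n0 + n1 + n2))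
    (hi1 : (1 / 3 + e0) - 2 * n0 ≤ (1 / 3 + e1) - 2 * n1)
    (hi2 : (1 / 3 + e0) - 2 * n0 ≤ (1 / 3 + e2) - 2 * n2) :
    0 ≤ b ∧ ((2 / 3 - 18762 / 100000) * b - b ^ 2 ≤
      (n0 + n1 + n2) ^ 2 - 2 * (n0 ^ 2 + n1 ^ 2 + n2 ^ 2) + 2 * (e0 * n0 + e1 * n1 + e2 * n2)
        + 1 / 9) ∧
      (1 / 3 ≤ b → 1 / 10 ≤ (n0 + n1 + n2) ^ 2 - 2 * (n0 ^ 2 + n1 ^ 2 + n2 ^ 2)
        + 2 * (e0 * n0 + e1 * n1 + e2 * n2) + 1 / 9) := by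
  have hb0 : n1 + n2 ≤ b := by linarith
  have hn : n0 = 1 / 3 + e0 + n1 + n2 - b := by linarith
  have he0 : e0 = -(e1 + e2) := by linarith
  have key : (n0 + n1 + n2) ^ 2 - 2 * (n0 ^ 2 + n1 ^ 2 + n2 ^ 2)
      + 2 * (e0 * n0 + e1 * n1 + e2 * n2) + 1 / 9 =
      e0 ^ 2 + 2 / 3 * b - b ^ 2 + 4 * n1 * n2 - 2 * e2 * n1 - 2 * e1 * n2 := by
    rw [hn, he0]; ring
  rw [key]
  refine ⟨by linarith, ?_, ?_⟩
  · have hE1 : e1 ≤ 9381 / 100000 := by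
      nlinarith [sq_nonneg (e1 + 2 * e2), sq_nonneg (e1 - 9381 / 100000)]
    have hE2 : e2 ≤ 9381 / 100000 := by
      nlinarith [sq_nonneg (e2 + 2 * e1), sq_nonneg (e2 - 9381 / 100000)]
    nlinarith [mul_nonneg h1 h2, mul_nonneg h1 (sub_nonneg.2 hE2), mul_nonneg h2 (sub_nonneg.2 hE1),
      sq_nonneg e0]
  · intro hb3
    have hp : 2 * (b - 1 / 3) ≤ 2 * n1 - e1 := by linarith
    have hq : 2 * (b - 1 / 3) ≤ 2 * n2 - e2 := by linarith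
    have hc : 0 ≤ 2 * (b - 1 / 3) := by linarith
    have h3 : (2 * (b - 1 / 3)) * (2 * (b - 1 / 3)) ≤ (2 * n1 - e1) * (2 * n2 - e2) :=
      mul_le_mul hp hq hc (hc.trans hp)
    nlinarith [sq_nonneg (e1 - e2), sq_nonneg e0, sq_nonneg (b - 1 / 3)]

private lemma bnum_a (e0 e1 e2 n0 n1 n2 : ℝ) (he : e0 + e1 + e2 = 0)
    (he2 : e0 ^ 2 + e1 ^ 2 + e2 ^ 2 ≤ 132 / 10000) (h1 : 0 ≤ n1) (h2 : 0 ≤ n2)
    (hn0 : n0 ≤ 1 / 3 + e0)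
    (hi1 : (1 / 3 + e0) - 2 * n0 ≤ (1 / 3 + e1) - 2 * n1)
    (hi2 : (1 / 3 + e0) - 2 * n0 ≤ (1 / 3 + e2) - 2 * n2)
    (hL : (n0 + n1 + n2) ^ 2 - 2 * (n0 ^ 2 + n1 ^ 2 + n2 ^ 2) + 2 * (e0 * n0 + e1 * n1 + e2 * n2)
        + 1 / 9 ≤ 423 / 10000) :
    1 / 3 + e0 - 2 * n0 + (n0 + n1 + n2) ≤ 12 / 100 := by
  obtain ⟨b, hb⟩ : ∃ b, b = 1 / 3 + e0 - 2 * n0 + (n0 + n1 + n2) := ⟨_, rfl⟩
  obtain ⟨h0, hA, hB⟩ := bnum_core e0 e1 e2 n0 n1 n2 b he he2 h1 h2 hn0 hb hi1 hi2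
  rw [← hb]
  by_contra hcon
  push Not at hcon
  rcases lt_or_ge b (1 / 3) with h | h
  · nlinarith
  · linarith [hB h]

private lemma bnum_b (e0 e1 e2 n0 n1 n2 : ℝ) (he : e0 + e1 + e2 = 0)
    (he2 : e0 ^ 2 + e1 ^ 2 + e2 ^ 2 ≤ 132 / 10000) (h1 : 0 ≤ n1) (h2 : 0 ≤ n2)
    (hn0 : n0 ≤ 1 / 3 + e0)
    (hi1 : (1 / 3 + e0) - 2 * n0 ≤ (1 / 3 + e1) - 2 * n1)
    (hi2 : (1 / 3 + e0) - 2 * n0 ≤ (1 / 3 + e2) - 2 * n2)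
    (hL : (n0 + n1 + n2) ^ 2 - 2 * (n0 ^ 2 + n1 ^ 2 + n2 ^ 2) + 2 * (e0 * n0 + e1 * n1 + e2 * n2)
        + 1 / 9 ≤ 222 / 10000) :
    1 / 3 + e0 - 2 * n0 + (n0 + n1 + n2) ≤ 52 / 1000 := by
  obtain ⟨b, hb⟩ : ∃ b, b = 1 / 3 + e0 - 2 * n0 + (n0 + n1 + n2) := ⟨_, rfl⟩
  obtain ⟨h0, hA, hB⟩ := bnum_core e0 e1 e2 n0 n1 n2 b he he2 h1 h2 hn0 hb hi1 hi2
  rw [← hb]
  by_contra hcon
  push Not at hcon
  rcases lt_or_ge b (1 / 3) with h | h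
  · nlinarith
  · linarith [hB h]

theorem Bnum1 (e n : Fin 3 → ℝ) (he : ∑ k, e k = 0) (he2 : ∑ k, (e k)^2 ≤ 132/10000)
    (hn0 : ∀ k, 0 ≤ n k) (hn : ∀ k, n k ≤ 1/3 + e k) (i : Fin 3)
    (hi : ∀ j, (1/3 + e i) - 2 * n i ≤ (1/3 + e j) - 2 * n j)
    (hL : (∑ k, n k)^2 - 2 * ∑ k, (n k)^2 + 2 * ∑ k, e k * n k + 1/9 ≤ 423/10000) :
    (1/3 + e i) - 2 * n i + ∑ k, n k ≤ 12/100 := by
  simp only [Fin.sum_univ_three] at *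
  have hi0 := hi 0
  have hi1 := hi 1
  have hi2 := hi 2
  fin_cases i
  · simp only [Fin.zero_eta] at *
    have := bnum_a (e 0) (e 1) (e 2) (n 0) (n 1) (n 2) (by linarith) (by linarith) (hn0 1) (hn0 2)
      (hn 0) hi1 hi2 (by linarith)
    linarith
  · simp only [Fin.mk_one] at *
    have := bnum_a (e 1) (e 0) (e 2) (n 1) (n 0) (n 2) (by linarith) (by linarith) (hn0 0) (hn0 2)
      (hn 1) hi0 hi2 (by linarith)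
    linarith
  · simp only [Fin.reduceFinMk] at *
    have := bnum_a (e 2) (e 0) (e 1) (n 2) (n 0) (n 1) (by linarith) (by linarith) (hn0 0) (hn0 1)
      (hn 2) hi0 hi1 (by linarith)
    linarith

theorem Bnum2 (e n : Fin 3 → ℝ) (he : ∑ k, e k = 0) (he2 : ∑ k, (e k)^2 ≤ 132/10000)
    (hn0 : ∀ k, 0 ≤ n k) (hn : ∀ k, n k ≤ 1/3 + e k) (i : Fin 3)
    (hi : ∀ j, (1/3 + e i) - 2 * n i ≤ (1/3 + e j) - 2 * n j)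
    (hL : (∑ k, n k)^2 - 2 * ∑ k, (n k)^2 + 2 * ∑ k, e k * n k + 1/9 ≤ 222/10000) :
    (1/3 + e i) - 2 * n i + ∑ k, n k ≤ 52/1000 := by
  simp only [Fin.sum_univ_three] at *
  have hi0 := hi 0
  have hi1 := hi 1
  have hi2 := hi 2
  fin_cases i
  · simp only [Fin.zero_eta] at *
    have := bnum_b (e 0) (e 1) (e 2) (n 0) (n 1) (n 2) (by linarith) (by linarith) (hn0 1) (hn0 2)
      (hn 0) hi1 hi2 (by linarith)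
    linarith
  · simp only [Fin.mk_one] at *
    have := bnum_b (e 1) (e 0) (e 2) (n 1) (n 0) (n 2) (by linarith) (by linarith) (hn0 0) (hn0 2)
      (hn 1) hi0 hi2 (by linarith)
    linarith
  · simp only [Fin.reduceFinMk] at *
    have := bnum_b (e 2) (e 0) (e 1) (n 2) (n 0) (n 1) (by linarith) (by linarith) (hn0 0) (hn0 1)
      (hn 2) hi0 hi1 (by linarith)
    linarith

end WOG

end Pool.Agent.FdF
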