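import Pool.Agent.FdF.CornerDefs

set_option autoImplicit false

namespace Pool.Agent.FdF

open Finset Classical

namespace WOG

variable {V : Type} [Fintype V]

/-- half of the wrong pairs inside `A` are arcs in each direction -/
private lemma wa_half (G : WOG V) (A : Finset V) :
    ∑ x ∈ A, G.w x * G.dIn A x = G.WA A / 2 := by
  have h1 : ∑ x ∈ A, G.w x * G.dIn A x = ∑ x ∈ A, ∑ y ∈ A, G.w x * G.w y * G.a x y := by
    unfold dIn
    refine Finset.sum_congr rfl fun x _ => ?_
    rw [Finset.mul_sum]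
    exact Finset.sum_congr rfl fun y _ => by ring
  have h2 : ∑ x ∈ A, ∑ y ∈ A, G.w x * G.w y * G.a x y
      = ∑ x ∈ A, ∑ y ∈ A, G.w x * G.w y * G.a y x := by
    rw [Finset.sum_comm]
    exact Finset.sum_congr rfl fun x _ => Finset.sum_congr rfl fun y _ => by ring
  have h3 : G.WA A = ∑ x ∈ A, ∑ y ∈ A, G.w x * G.w y * G.a x y
      + ∑ x ∈ A, ∑ y ∈ A, G.w x * G.w y * G.a y x := by
    unfold WA
    rw [← Finset.sum_add_distrib]
    refine Finset.sum_congr rfl fun x _ => ?_
    rw [← Finset.sum_add_distrib]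
    refine Finset.sum_congr rfl fun y _ => ?_
    have := aaS (G := G) x y
    have h : 1 - G.S x y = G.a x y + G.a y x := by linarith
    rw [h]; ring
  rw [h1, h3, ← h2]; ring

private lemma dIn_nonneg (G : WOG V) (A : Finset V) (x : V) : 0 ≤ G.dIn A x :=
  Finset.sum_nonneg fun y _ => mul_nonneg (G.wnn y) (a_nonneg x y)

private lemma side (G : WOG V) (A B : Finset V) (hd : Disjoint A B) (κ : ℝ) (hκ : 0 ≤ κ)
    (α β : V → ℝ) (hα : ∀ x, 0 ≤ α x ∧ α x ≤ 1) (hβ : ∀ x, 0 ≤ β x ∧ β x ≤ 1) :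
    κ * G.mass A α - ∑ x ∈ A, ∑ y ∈ B, G.w x * α x * (G.w y * β y) * G.a x y
      - G.U κ A B α β - G.WA A / 2 ≤
      ∑ x ∈ A, G.w x * max (κ - G.dIn (A ∪ B) x) 0 := by
  have key : ∀ x ∈ A, κ * (G.w x * α x) - ∑ y ∈ B, G.w x * α x * (G.w y * β y) * G.a x y
      - G.w x * α x * min (∑ y ∈ B, G.w y * (1 - β y) * G.a x y) κ
      - G.w x * G.dIn A x ≤ G.w x * max (κ - G.dIn (A ∪ B) x) 0 := by
    intro x _
    have hw := G.wnn x
    have ha0 := (hα x).1
    have ha1 := (hα x).2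
    have hsplit : G.dIn (A ∪ B) x = G.dIn A x + G.dIn B x := by
      unfold dIn; exact Finset.sum_union hd
    have hB : G.dIn B x = (∑ y ∈ B, (G.w y * β y) * G.a x y)
        + ∑ y ∈ B, G.w y * (1 - β y) * G.a x y := by
      unfold dIn
      rw [← Finset.sum_add_distrib]
      exact Finset.sum_congr rfl fun y _ => by ring
    have hpull : ∑ y ∈ B, G.w x * α x * (G.w y * β y) * G.a x y
        = G.w x * α x * ∑ y ∈ B, (G.w y * β y) * G.a x y := by
      rw [Finset.mul_sum]
      exact Finset.sum_congr rfl fun y _ => by ring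
    rw [hpull]
    set n := ∑ y ∈ B, (G.w y * β y) * G.a x y with hn
    set e := ∑ y ∈ B, G.w y * (1 - β y) * G.a x y with he
    have hn0 : 0 ≤ n := Finset.sum_nonneg fun y _ =>
      mul_nonneg (mul_nonneg (G.wnn y) (hβ y).1) (a_nonneg x y)
    have hA0 := dIn_nonneg G A x
    have hm : κ - n - min e κ - G.dIn A x ≤ max (κ - G.dIn (A ∪ B) x) 0 := by
      rcases le_total e κ with h | h
      · rw [min_eq_left h]
        refine le_trans (le_of_eq ?_) (le_max_left _ _)
        rw [hsplit, hB]; ring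
      · rw [min_eq_right h]
        refine le_trans ?_ (le_max_right _ _)
        linarith
    have hmax : 0 ≤ max (κ - G.dIn (A ∪ B) x) 0 := le_max_right _ _
    have h1 : G.w x * α x * (κ - n - min e κ - G.dIn A x)
        ≤ G.w x * α x * max (κ - G.dIn (A ∪ B) x) 0 :=
      mul_le_mul_of_nonneg_left hm (mul_nonneg hw ha0)
    have h2 : G.w x * α x * max (κ - G.dIn (A ∪ B) x) 0 ≤ G.w x * max (κ - G.dIn (A ∪ B) x) 0 := by
      have : G.w x * α x ≤ G.w x := by nlinarith
      exact mul_le_mul_of_nonneg_right this hmax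
    have h3 : G.w x * α x * G.dIn A x ≤ G.w x * G.dIn A x := by
      have : G.w x * α x ≤ G.w x := by nlinarith
      exact mul_le_mul_of_nonneg_right this hA0
    nlinarith
  have hsum := Finset.sum_le_sum key
  simp only [Finset.sum_sub_distrib] at hsum
  rw [wa_half G A, ← Finset.mul_sum] at hsum
  unfold mass U
  exact hsum

/-- Q3: lower bound for the deficit of outdegrees in `A ∪ B` -/
theorem Phi_lower (G : WOG V) (A B : Finset V) (hd : Disjoint A B) (κ : ℝ) (hκ : 0 ≤ κ) (α β : V → ℝ)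
    (hα : ∀ x, 0 ≤ α x ∧ α x ≤ 1) (hβ : ∀ x, 0 ≤ β x ∧ β x ≤ 1) :
    κ * (G.mass A α + G.mass B β) - G.mass A α * G.mass B β - G.U κ A B α β - G.U κ B A β α
      - (G.WA A + G.WA B) / 2 ≤ G.Phi A B κ := by
  have h1 := side G A B hd κ hκ α β hα hβ
  have h2 := side G B A hd.symm κ hκ β α hβ hα
  have hcross : (∑ x ∈ A, ∑ y ∈ B, G.w x * α x * (G.w y * β y) * G.a x y)
      + (∑ x ∈ B, ∑ y ∈ A, G.w x * β x * (G.w y * α y) * G.a x y)
      ≤ G.mass A α * G.mass B β := by
    have hc : (∑ x ∈ B, ∑ y ∈ A, G.w x * β x * (G.w y * α y) * G.a x y)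
        = ∑ x ∈ A, ∑ y ∈ B, G.w x * α x * (G.w y * β y) * G.a y x := by
      rw [Finset.sum_comm]
      exact Finset.sum_congr rfl fun x _ => Finset.sum_congr rfl fun y _ => by ring
    rw [hc]
    unfold mass
    rw [Finset.sum_mul_sum, ← Finset.sum_add_distrib]
    refine Finset.sum_le_sum fun x _ => ?_
    rw [← Finset.sum_add_distrib]
    refine Finset.sum_le_sum fun y _ => ?_
    have hS := S_nonneg (G := G) x y
    have haa := aaS (G := G) x y
    have hle : G.a x y + G.a y x ≤ 1 := by linarith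
    have hp : 0 ≤ G.w x * α x * (G.w y * β y) :=
      mul_nonneg (mul_nonneg (G.wnn x) (hα x).1) (mul_nonneg (G.wnn y) (hβ y).1)
    nlinarith
  have hPhi : G.Phi A B κ = ∑ x ∈ A, G.w x * max (κ - G.dIn (A ∪ B) x) 0
      + ∑ x ∈ B, G.w x * max (κ - G.dIn (B ∪ A) x) 0 := by
    unfold Phi
    rw [Finset.sum_union hd, Finset.union_comm B A]
  rw [hPhi]
  linarith

end WOG
end Pool.Agent.FdF
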