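import Pool.Agent.FdF.CornerDefs

set_option autoImplicit false

namespace Pool.Agent.FdF

open Finset Classical

namespace WOG

variable {V : Type} [Fintype V]

/-- pointwise inequality for the comparison of the out-degrees -/
private lemma quad_pt1 (G : WOG V) (x y y' : V) :
    G.a y x * G.a x y' ≤ G.a y x - G.a y' x + G.a y' x * G.a x y + G.S x y := by
  have h1 := aaS (G := G) x y
  have h2 := aaS (G := G) x y'
  have h3 := S_nonneg (G := G) x y'
  have h4 := S_nonneg (G := G) x y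
  rcases a01 (G := G) x y with h5 | h5 <;> rcases a01 (G := G) y x with h6 | h6 <;>
    rcases a01 (G := G) x y' with h7 | h7 <;> rcases a01 (G := G) y' x with h8 | h8 <;>
    rw [h5, h6] at h1 <;> rw [h7, h8] at h2 <;> rw [h5, h6, h7, h8] <;> linarith

/-- pointwise inequality from the absence of induced directed 4-cycles -/
private lemma quad_pt2 (G : WOG V) {y y' : V} (hS : G.S y y' = 1) (x z : V) :
    (G.a y x * G.a x y') * (G.a y' z * G.a z y) + (G.a y' x * G.a x y) * (G.a y z * G.a z y') ≤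
      1 - G.S x z := by
  have h1 := c4_mul (G := G) y x y' z
  have h2 := c4_mul (G := G) y z y' x
  have h3 := a_mul_symm (G := G) x y
  rw [hS] at h1 h2
  rw [S_symm z x] at h2
  have h0 := S_le_one (G := G) x z
  rcases S01 (G := G) x z with h4 | h4
  · rw [h4]
    rcases a01 (G := G) x y with h5 | h5
    · rw [h5]
      have : G.a y x * G.a x y' * (G.a y' z * G.a z y) ≤ 1 := by
        rcases a01 (G := G) y x with h6 | h6 <;> rcases a01 (G := G) x y' with h7 | h7 <;>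
        rcases a01 (G := G) y' z with h8 | h8 <;> rcases a01 (G := G) z y with h9 | h9 <;>
        rw [h6, h7, h8, h9] <;> norm_num
      linarith
    · rw [h5, one_mul] at h3
      rw [h3, h5]
      have : G.a y' x * 1 * (G.a y z * G.a z y') ≤ 1 := by
        rcases a01 (G := G) y' x with h6 | h6 <;> rcases a01 (G := G) y z with h7 | h7 <;>
        rcases a01 (G := G) z y' with h8 | h8 <;>
        rw [h6, h7, h8] <;> norm_num
      linarith
  · rw [h4] at h1 h2 ⊢
    nlinarith [h1, h2]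

/-- The main combinatorial estimate: for non-adjacent `y, y'` with `dIn A y ≤ dIn A y'` the set
`{x ∈ A : y → x → y'}` is small. -/
private lemma quad_key (G : WOG V) (A : Finset V) {y y' : V} (hS : G.S y y' = 1)
    (hd : G.dIn A y ≤ G.dIn A y') :
    ∑ x ∈ A, G.w x * (G.a y x * G.a x y') ≤
      Real.sqrt (G.WA A / 2) + ∑ x ∈ A, G.w x * G.S x y := by
  set X := ∑ x ∈ A, G.w x * (G.a y x * G.a x y') with hX
  set W' := ∑ x ∈ A, G.w x * (G.a y' x * G.a x y) with hW'
  set m := ∑ x ∈ A, G.w x * G.S x y with hm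
  have hm0 : 0 ≤ m := Finset.sum_nonneg fun x _ => mul_nonneg (G.wnn x) (S_nonneg _ _)
  have h1 : X ≤ W' + m := by
    have : X ≤ ∑ x ∈ A, (G.w x * G.a y x - G.w x * G.a y' x + G.w x * (G.a y' x * G.a x y)
        + G.w x * G.S x y) := by
      apply Finset.sum_le_sum
      intro x _
      have := mul_le_mul_of_nonneg_left (quad_pt1 G x y y') (G.wnn x)
      linarith
    rw [Finset.sum_add_distrib, Finset.sum_add_distrib, Finset.sum_sub_distrib] at this
    unfold dIn at hd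
    linarith
  have h2 : 2 * (X * W') ≤ G.WA A := by
    have e1 : X * W' = ∑ x ∈ A, ∑ z ∈ A, G.w x * G.w z *
        ((G.a y x * G.a x y') * (G.a y' z * G.a z y)) := by
      rw [hX, hW', Finset.sum_mul_sum]
      refine Finset.sum_congr rfl fun x _ => Finset.sum_congr rfl fun z _ => by ring
    have e2 : X * W' = ∑ x ∈ A, ∑ z ∈ A, G.w x * G.w z *
        ((G.a y' x * G.a x y) * (G.a y z * G.a z y')) := by
      rw [mul_comm, hX, hW', Finset.sum_mul_sum]
      refine Finset.sum_congr rfl fun x _ => Finset.sum_congr rfl fun z _ => by ring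
    have e3 : 2 * (X * W') = ∑ x ∈ A, ∑ z ∈ A, G.w x * G.w z *
        ((G.a y x * G.a x y') * (G.a y' z * G.a z y) +
          (G.a y' x * G.a x y) * (G.a y z * G.a z y')) := by
      have : 2 * (X * W') = X * W' + X * W' := by ring
      rw [this]
      nth_rewrite 1 [e1]
      rw [e2, ← Finset.sum_add_distrib]
      refine Finset.sum_congr rfl fun x _ => ?_
      rw [← Finset.sum_add_distrib]
      refine Finset.sum_congr rfl fun z _ => by ring
    rw [e3]
    unfold WA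
    refine Finset.sum_le_sum fun x _ => Finset.sum_le_sum fun z _ => ?_
    exact mul_le_mul_of_nonneg_left (quad_pt2 G hS x z) (mul_nonneg (G.wnn x) (G.wnn z))
  by_contra hlt
  push Not at hlt
  have hs0 : 0 ≤ Real.sqrt (G.WA A / 2) := Real.sqrt_nonneg _
  have hW0 : 0 ≤ G.WA A / 2 := by
    have : 0 ≤ G.WA A := Finset.sum_nonneg fun x _ => Finset.sum_nonneg fun z _ =>
      mul_nonneg (mul_nonneg (G.wnn x) (G.wnn z)) (by linarith [S_le_one (G := G) x z])
    linarith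
  have hs2 : Real.sqrt (G.WA A / 2) * Real.sqrt (G.WA A / 2) = G.WA A / 2 := Real.mul_self_sqrt hW0
  have h3 : Real.sqrt (G.WA A / 2) < W' := by linarith
  have h4 : Real.sqrt (G.WA A / 2) < X := by linarith
  nlinarith [mul_lt_mul'' h4 h3 hs0 hs0]

/-- the estimate for one pair `y, y'` -/
private lemma quad_pair (G : WOG V) (A B : Finset V) (κ : ℝ) (α β φ : V → ℝ)
    (hα : ∀ x, 0 ≤ α x ∧ α x ≤ 1) (hβ : ∀ x, 0 ≤ β x ∧ β x ≤ 1)
    (hφ : ∀ y, 0 ≤ φ y ∧ φ y ≤ 1)
    (hφκ : ∀ y, φ y * (∑ x ∈ A, G.w x * (1 - α x) * G.a y x) ≤ κ)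
    (hB : G.Thr B A β) {y y' : V} (hy : y ∈ B) (hy' : y' ∈ B) :
    (1 - β y') * (β y * φ y) * (∑ x ∈ A, G.w x * (1 - α x) * G.a y x * G.a x y') ≤
      (1 - β y') * β y * (Real.sqrt (G.WA A / 2) + ∑ x ∈ A, G.w x * G.S x y) +
      (1 - β y') * β y * (1 - G.S y y') * κ := by
  have hb : 0 ≤ β y := (hβ y).1
  have hb' : 0 ≤ 1 - β y' := by linarith [(hβ y').2]
  have hm0 : 0 ≤ ∑ x ∈ A, G.w x * G.S x y :=
    Finset.sum_nonneg fun x _ => mul_nonneg (G.wnn x) (S_nonneg _ _)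
  have hs0 : 0 ≤ Real.sqrt (G.WA A / 2) := Real.sqrt_nonneg _
  rcases eq_or_lt_of_le hb with h0 | h0
  · rw [← h0]; simp
  rcases eq_or_lt_of_le hb' with h1 | h1
  · rw [← h1]; simp
  have hbb : 0 ≤ (1 - β y') * β y := mul_nonneg hb' hb
  set Q := ∑ x ∈ A, G.w x * (1 - α x) * G.a y x * G.a x y' with hQ
  have hQ0 : 0 ≤ Q := Finset.sum_nonneg fun x _ => mul_nonneg (mul_nonneg (mul_nonneg (G.wnn x)
    (by linarith [(hα x).2])) (a_nonneg _ _)) (a_nonneg _ _)
  rcases S01 (G := G) y y' with hS | hS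
  · -- adjacent
    have h2 : φ y * Q ≤ κ := by
      refine le_trans (mul_le_mul_of_nonneg_left ?_ (hφ y).1) (hφκ y)
      refine Finset.sum_le_sum fun x _ => ?_
      have : 0 ≤ G.w x * (1 - α x) * G.a y x := mul_nonneg (mul_nonneg (G.wnn x)
        (by linarith [(hα x).2])) (a_nonneg _ _)
      nlinarith [a_le_one (G := G) x y']
    rw [hS]
    have h3 : (1 - β y') * β y * (φ y * Q) ≤ (1 - β y') * β y * κ :=
      mul_le_mul_of_nonneg_left h2 hbb
    have h4 : 0 ≤ (1 - β y') * β y * (Real.sqrt (G.WA A / 2) + ∑ x ∈ A, G.w x * G.S x y) :=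
      mul_nonneg hbb (add_nonneg hs0 hm0)
    nlinarith [h3, h4]
  · -- non-adjacent
    have hd := hB y hy y' hy' h0 (by linarith)
    have h2 := quad_key G A hS hd
    have h3 : Q ≤ ∑ x ∈ A, G.w x * (G.a y x * G.a x y') := by
      refine Finset.sum_le_sum fun x _ => ?_
      have h5 : 0 ≤ G.w x * (G.a y x * G.a x y') :=
        mul_nonneg (G.wnn x) (mul_nonneg (a_nonneg _ _) (a_nonneg _ _))
      have h6 : 0 ≤ α x := (hα x).1
      nlinarith [mul_nonneg h5 h6]
    have h4 : φ y * Q ≤ Real.sqrt (G.WA A / 2) + ∑ x ∈ A, G.w x * G.S x y := by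
      have : φ y * Q ≤ Q := by nlinarith [(hφ y).2]
      linarith
    have h5 := mul_le_mul_of_nonneg_left h4 hbb
    rw [hS]
    nlinarith [h5]

/-- half of the quadruple inequality -/
private lemma quad_half (G : WOG V) (A B : Finset V) (κ : ℝ) (hκ : 0 ≤ κ) (α β θ φ : V → ℝ)
    (hα : ∀ x, 0 ≤ α x ∧ α x ≤ 1) (hβ : ∀ x, 0 ≤ β x ∧ β x ≤ 1)
    (hθ : ∀ x, 0 ≤ θ x ∧ θ x ≤ 1) (hφ : ∀ y, 0 ≤ φ y ∧ φ y ≤ 1)
    (hφκ : ∀ y, φ y * (∑ x ∈ A, G.w x * (1 - α x) * G.a y x) ≤ κ)
    (hB : G.Thr B A β) :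
    ∑ x ∈ A, ∑ y' ∈ B, ∑ y ∈ B, ∑ x' ∈ A,
      (G.w x * α x * θ x * (G.w y' * (1 - β y') * G.a x y')) *
      (G.w y * β y * φ y * (G.w x' * (1 - α x') * G.a y x')) * G.a x' y' ≤
    (∑ x ∈ A, G.w x * α x * (θ x * ∑ y' ∈ B, G.w y' * (1 - β y') * G.a x y')) *
      (G.mass B β * Real.sqrt (G.WA A / 2) + G.MAB A B)
      + κ * (G.mass A α * G.WA B) / 2 := by
  set dA := Real.sqrt (G.WA A / 2) with hdA
  have hs0 : 0 ≤ dA := Real.sqrt_nonneg _
  set m : V → ℝ := fun y => ∑ x ∈ A, G.w x * G.S x y with hm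
  -- step 1: pointwise in x, y', y
  have step1 : ∑ x ∈ A, ∑ y' ∈ B, ∑ y ∈ B, ∑ x' ∈ A,
      (G.w x * α x * θ x * (G.w y' * (1 - β y') * G.a x y')) *
      (G.w y * β y * φ y * (G.w x' * (1 - α x') * G.a y x')) * G.a x' y' ≤
      ∑ x ∈ A, ∑ y' ∈ B, ∑ y ∈ B,
        ((G.w x * α x * θ x) * (G.w y' * (1 - β y') * G.a x y') * (G.w y * β y * (dA + m y)) +
        (G.w x * α x) * (κ * (G.w y' * G.w y * ((1 - β y') * β y * (1 - G.S y y'))))) := by
    refine Finset.sum_le_sum fun x _ => Finset.sum_le_sum fun y' hy' =>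
      Finset.sum_le_sum fun y hy => ?_
    have hpair := quad_pair G A B κ α β φ hα hβ hφ hφκ hB hy hy'
    have e1 : ∑ x' ∈ A, (G.w x * α x * θ x * (G.w y' * (1 - β y') * G.a x y')) *
      (G.w y * β y * φ y * (G.w x' * (1 - α x') * G.a y x')) * G.a x' y' =
      (G.w x * α x * θ x * G.a x y' * (G.w y' * G.w y)) * ((1 - β y') * (β y * φ y) *
        (∑ x ∈ A, G.w x * (1 - α x) * G.a y x * G.a x y')) := by
      rw [Finset.mul_sum, Finset.mul_sum]
      refine Finset.sum_congr rfl fun x' _ => by ring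
    rw [e1]
    have hc0 : 0 ≤ G.w x * α x * θ x * G.a x y' * (G.w y' * G.w y) :=
      mul_nonneg (mul_nonneg (mul_nonneg (mul_nonneg (G.wnn x) (hα x).1) (hθ x).1) (a_nonneg _ _))
        (mul_nonneg (G.wnn y') (G.wnn y))
    have h1 := mul_le_mul_of_nonneg_left hpair hc0
    have hc1 : θ x * G.a x y' ≤ 1 := by
      have := (hθ x).2
      have := (hθ x).1
      nlinarith [a_le_one (G := G) x y', a_nonneg (G := G) x y']
    have hb' : 0 ≤ 1 - β y' := by linarith [(hβ y').2]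
    have hS' : 0 ≤ 1 - G.S y y' := by linarith [S_le_one (G := G) y y']
    have h2 : 0 ≤ (G.w x * α x) * (κ * (G.w y' * G.w y * ((1 - β y') * β y * (1 - G.S y y')))) :=
      mul_nonneg (mul_nonneg (G.wnn x) (hα x).1) (mul_nonneg hκ (mul_nonneg (mul_nonneg (G.wnn y')
        (G.wnn y)) (mul_nonneg (mul_nonneg hb' (hβ y).1) hS')))
    have h3 : (θ x * G.a x y') * ((G.w x * α x) * (κ * (G.w y' * G.w y *
        ((1 - β y') * β y * (1 - G.S y y'))))) ≤ (G.w x * α x) * (κ * (G.w y' * G.w y *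
        ((1 - β y') * β y * (1 - G.S y y')))) := by
      nlinarith [mul_le_mul_of_nonneg_right hc1 h2]
    calc _ ≤ _ := h1
      _ = (G.w x * α x * θ x) * (G.w y' * (1 - β y') * G.a x y') * (G.w y * β y * (dA + m y)) +
        (θ x * G.a x y') * ((G.w x * α x) * (κ * (G.w y' * G.w y *
        ((1 - β y') * β y * (1 - G.S y y'))))) := by
          simp only [hm]
          ring
      _ ≤ _ := by linarith
  refine le_trans step1 ?_
  simp only [Finset.sum_add_distrib]
  -- first part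
  have p1 : ∑ x ∈ A, ∑ y' ∈ B, ∑ y ∈ B,
      (G.w x * α x * θ x) * (G.w y' * (1 - β y') * G.a x y') * (G.w y * β y * (dA + m y)) =
      (∑ x ∈ A, G.w x * α x * (θ x * ∑ y' ∈ B, G.w y' * (1 - β y') * G.a x y')) *
      (∑ y ∈ B, G.w y * β y * (dA + m y)) := by
    rw [Finset.sum_mul]
    refine Finset.sum_congr rfl fun x _ => ?_
    have e0 : G.w x * α x * (θ x * ∑ y' ∈ B, G.w y' * (1 - β y') * G.a x y') =
        ∑ y' ∈ B, G.w x * α x * θ x * (G.w y' * (1 - β y') * G.a x y') := by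
      rw [← mul_assoc, Finset.mul_sum]
    rw [e0, Finset.sum_mul]
    refine Finset.sum_congr rfl fun y' _ => ?_
    rw [Finset.mul_sum]
  have p2 : ∑ y ∈ B, G.w y * β y * (dA + m y) ≤ G.mass B β * dA + G.MAB A B := by
    have : ∑ y ∈ B, G.w y * β y * (dA + m y) = G.mass B β * dA + ∑ y ∈ B, G.w y * β y * m y := by
      unfold mass
      rw [Finset.sum_mul, ← Finset.sum_add_distrib]
      refine Finset.sum_congr rfl fun y _ => by ring
    rw [this]
    have : ∑ y ∈ B, G.w y * β y * m y ≤ G.MAB A B := by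
      unfold MAB
      rw [Finset.sum_comm]
      refine Finset.sum_le_sum fun y _ => ?_
      simp only [hm]
      rw [Finset.mul_sum]
      refine Finset.sum_le_sum fun x _ => ?_
      have h1 : 0 ≤ G.w x * G.w y * G.S x y :=
        mul_nonneg (mul_nonneg (G.wnn x) (G.wnn y)) (S_nonneg _ _)
      nlinarith [mul_le_mul_of_nonneg_left (hβ y).2 h1]
    linarith
  have p3 : 0 ≤ ∑ x ∈ A, G.w x * α x * (θ x * ∑ y' ∈ B, G.w y' * (1 - β y') * G.a x y') := by
    refine Finset.sum_nonneg fun x _ => mul_nonneg (mul_nonneg (G.wnn x) (hα x).1)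
      (mul_nonneg (hθ x).1 (Finset.sum_nonneg fun y' _ => mul_nonneg (mul_nonneg (G.wnn y')
        (by linarith [(hβ y').2])) (a_nonneg _ _)))
  -- second part
  have p4 : ∑ x ∈ A, ∑ y' ∈ B, ∑ y ∈ B,
      (G.w x * α x) * (κ * (G.w y' * G.w y * ((1 - β y') * β y * (1 - G.S y y')))) =
      κ * (G.mass A α * ∑ y' ∈ B, ∑ y ∈ B, G.w y' * G.w y * ((1 - β y') * β y * (1 - G.S y y'))) := by
    unfold mass
    rw [Finset.sum_mul, Finset.mul_sum]
    refine Finset.sum_congr rfl fun x _ => ?_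
    rw [Finset.mul_sum, Finset.mul_sum]
    refine Finset.sum_congr rfl fun y' _ => ?_
    rw [Finset.mul_sum, Finset.mul_sum]
    refine Finset.sum_congr rfl fun y _ => by ring
  have p5 : 2 * ∑ y' ∈ B, ∑ y ∈ B, G.w y' * G.w y * ((1 - β y') * β y * (1 - G.S y y')) ≤
      G.WA B := by
    have e2 : ∑ y' ∈ B, ∑ y ∈ B, G.w y' * G.w y * ((1 - β y') * β y * (1 - G.S y y')) =
        ∑ y' ∈ B, ∑ y ∈ B, G.w y' * G.w y * ((1 - β y) * β y' * (1 - G.S y' y)) := by
      rw [Finset.sum_comm]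
      refine Finset.sum_congr rfl fun y _ => Finset.sum_congr rfl fun y' _ => by ring
    have e3 : 2 * ∑ y' ∈ B, ∑ y ∈ B, G.w y' * G.w y * ((1 - β y') * β y * (1 - G.S y y')) =
        ∑ y' ∈ B, ∑ y ∈ B, (G.w y' * G.w y * ((1 - β y') * β y * (1 - G.S y y')) +
          G.w y' * G.w y * ((1 - β y) * β y' * (1 - G.S y' y))) := by
      rw [two_mul]
      nth_rewrite 2 [e2]
      rw [← Finset.sum_add_distrib]
      refine Finset.sum_congr rfl fun y' _ => ?_
      rw [← Finset.sum_add_distrib]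
    rw [e3]
    unfold WA
    refine Finset.sum_le_sum fun y' _ => Finset.sum_le_sum fun y _ => ?_
    rw [S_symm y y']
    have h1 : 0 ≤ G.w y' * G.w y * (1 - G.S y' y) :=
      mul_nonneg (mul_nonneg (G.wnn y') (G.wnn y)) (by linarith [S_le_one (G := G) y' y])
    have h2 : (1 - β y') * β y + (1 - β y) * β y' ≤ 1 := by
      have a1 := (hβ y).1
      have a2 := (hβ y).2
      have a3 := (hβ y').1
      have a4 := (hβ y').2
      nlinarith [mul_nonneg a1 a3, mul_nonneg (sub_nonneg.2 a2) (sub_nonneg.2 a4)]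
    nlinarith [mul_le_mul_of_nonneg_left h2 h1]
  rw [p1, p4]
  have hmass : 0 ≤ G.mass A α := Finset.sum_nonneg fun x _ => mul_nonneg (G.wnn x) (hα x).1
  have q1 := mul_le_mul_of_nonneg_left p2 p3
  have q2 := mul_le_mul_of_nonneg_left p5 (mul_nonneg hκ hmass)
  nlinarith [q1, q2]

omit [Fintype V] in
/-- truncation as multiplication -/
private lemma exists_trunc (e : V → ℝ) (κ : ℝ) (hκ : 0 ≤ κ) :
    ∃ θ : V → ℝ, (∀ x, 0 ≤ θ x ∧ θ x ≤ 1) ∧ ∀ x, θ x * e x = min (e x) κ := by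
  refine ⟨fun x => if e x ≤ κ then 1 else κ / e x, fun x => ?_, fun x => ?_⟩
  · dsimp only
    split_ifs with h
    · norm_num
    · push Not at h
      have h0 : 0 < e x := lt_of_le_of_lt hκ h
      exact ⟨div_nonneg hκ h0.le, (div_le_one h0).2 h.le⟩
  · dsimp only
    split_ifs with h
    · rw [min_eq_left h, one_mul]
    · push Not at h
      have h0 : 0 < e x := lt_of_le_of_lt hκ h
      rw [min_eq_right h.le, div_mul_cancel₀ _ h0.ne']

/-- Q2: quadruple inequality -/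
theorem quad (G : WOG V) (A B : Finset V) (hd : Disjoint A B) (κ : ℝ) (hκ : 0 ≤ κ) (α β : V → ℝ)
    (hα : ∀ x, 0 ≤ α x ∧ α x ≤ 1) (hβ : ∀ x, 0 ≤ β x ∧ β x ≤ 1)
    (hA : G.Thr A B α) (hB : G.Thr B A β) :
    G.U κ A B α β * G.U κ B A β α ≤
      G.U κ A B α β * (G.mass B β * Real.sqrt (G.WA A / 2) + G.MAB A B)
      + G.U κ B A β α * (G.mass A α * Real.sqrt (G.WA B / 2) + G.MAB A B)
      + κ * (G.mass A α * G.WA B + G.mass B β * G.WA A) / 2
      + G.mass A α * G.mass B β * G.MAB A B := by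
  obtain ⟨θ, hθ, hθe⟩ := exists_trunc (fun x => ∑ y ∈ B, G.w y * (1 - β y) * G.a x y)
    κ hκ
  obtain ⟨φ, hφ, hφe⟩ := exists_trunc (fun y => ∑ x ∈ A, G.w x * (1 - α x) * G.a y x)
    κ hκ
  have hU : G.U κ A B α β =
      ∑ x ∈ A, G.w x * α x * (θ x * ∑ y' ∈ B, G.w y' * (1 - β y') * G.a x y') := by
    unfold U
    refine Finset.sum_congr rfl fun x _ => ?_
    rw [hθe]
  have hV : G.U κ B A β α =
      ∑ y ∈ B, G.w y * β y * (φ y * ∑ x' ∈ A, G.w x' * (1 - α x') * G.a y x') := by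
    unfold U
    refine Finset.sum_congr rfl fun x _ => ?_
    rw [hφe]
  have hMsymm : G.MAB B A = G.MAB A B := by
    unfold MAB
    rw [Finset.sum_comm]
    refine Finset.sum_congr rfl fun x _ => Finset.sum_congr rfl fun y _ => ?_
    rw [S_symm y x]; ring
  have H1 := quad_half G A B κ hκ α β θ φ hα hβ hθ hφ (fun y => by rw [hφe]; exact min_le_right _ _)
    hB
  have H2 := quad_half G B A κ hκ β α φ θ hβ hα hφ hθ (fun y => by rw [hθe]; exact min_le_right _ _)
    hA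
  rw [← hU] at H1
  rw [← hV, hMsymm] at H2
  -- expansion of the product
  have hexp : G.U κ A B α β * G.U κ B A β α =
      ∑ x ∈ A, ∑ y' ∈ B, ∑ y ∈ B, ∑ x' ∈ A,
      (G.w x * α x * θ x * (G.w y' * (1 - β y') * G.a x y')) *
      (G.w y * β y * φ y * (G.w x' * (1 - α x') * G.a y x')) := by
    rw [hU, hV]
    have e1 : ∑ x ∈ A, G.w x * α x * (θ x * ∑ y' ∈ B, G.w y' * (1 - β y') * G.a x y') =
        ∑ x ∈ A, ∑ y' ∈ B, G.w x * α x * θ x * (G.w y' * (1 - β y') * G.a x y') := by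
      refine Finset.sum_congr rfl fun x _ => ?_
      rw [← mul_assoc, Finset.mul_sum]
    have e2 : ∑ y ∈ B, G.w y * β y * (φ y * ∑ x' ∈ A, G.w x' * (1 - α x') * G.a y x') =
        ∑ y ∈ B, ∑ x' ∈ A, G.w y * β y * φ y * (G.w x' * (1 - α x') * G.a y x') := by
      refine Finset.sum_congr rfl fun x _ => ?_
      rw [← mul_assoc, Finset.mul_sum]
    rw [e1, e2, Finset.sum_mul]
    refine Finset.sum_congr rfl fun x _ => ?_
    rw [Finset.sum_mul]
    refine Finset.sum_congr rfl fun y' _ => ?_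
    rw [Finset.mul_sum]
    refine Finset.sum_congr rfl fun y _ => ?_
    rw [Finset.mul_sum]
  -- reordering of the second half
  have hre : ∑ x ∈ B, ∑ y' ∈ A, ∑ y ∈ A, ∑ x' ∈ B,
      (G.w x * β x * φ x * (G.w y' * (1 - α y') * G.a x y')) *
      (G.w y * α y * θ y * (G.w x' * (1 - β x') * G.a y x')) * G.a x' y' =
      ∑ x ∈ A, ∑ y' ∈ B, ∑ y ∈ B, ∑ x' ∈ A,
      (G.w x * α x * θ x * (G.w y' * (1 - β y') * G.a x y')) *
      (G.w y * β y * φ y * (G.w x' * (1 - α x') * G.a y x')) * G.a y' x' := by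
    calc _ = ∑ y ∈ B, ∑ x ∈ A, ∑ x' ∈ A, ∑ y' ∈ B,
          (G.w x * α x * θ x * (G.w y' * (1 - β y') * G.a x y')) *
          (G.w y * β y * φ y * (G.w x' * (1 - α x') * G.a y x')) * G.a y' x' := by
            refine Finset.sum_congr rfl fun y _ => ?_
            rw [Finset.sum_comm]
            refine Finset.sum_congr rfl fun x _ => Finset.sum_congr rfl fun x' _ =>
              Finset.sum_congr rfl fun y' _ => by ring
      _ = ∑ x ∈ A, ∑ y ∈ B, ∑ x' ∈ A, ∑ y' ∈ B,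
          (G.w x * α x * θ x * (G.w y' * (1 - β y') * G.a x y')) *
          (G.w y * β y * φ y * (G.w x' * (1 - α x') * G.a y x')) * G.a y' x' := Finset.sum_comm
      _ = _ := by
            refine Finset.sum_congr rfl fun x _ => ?_
            have : ∀ y ∈ B, ∑ x' ∈ A, ∑ y' ∈ B,
                (G.w x * α x * θ x * (G.w y' * (1 - β y') * G.a x y')) *
                (G.w y * β y * φ y * (G.w x' * (1 - α x') * G.a y x')) * G.a y' x' =
                ∑ y' ∈ B, ∑ x' ∈ A,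
                (G.w x * α x * θ x * (G.w y' * (1 - β y') * G.a x y')) *
                (G.w y * β y * φ y * (G.w x' * (1 - α x') * G.a y x')) * G.a y' x' :=
              fun y _ => Finset.sum_comm
            rw [Finset.sum_congr rfl this, Finset.sum_comm]
  rw [hre] at H2
  -- the part with non-adjacent `x', y'`
  have H3 : ∑ x ∈ A, ∑ y' ∈ B, ∑ y ∈ B, ∑ x' ∈ A,
      (G.w x * α x * θ x * (G.w y' * (1 - β y') * G.a x y')) *
      (G.w y * β y * φ y * (G.w x' * (1 - α x') * G.a y x')) * G.S x' y' ≤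
      G.mass A α * G.mass B β * G.MAB A B := by
    have e0 : G.mass A α * G.mass B β * G.MAB A B = ∑ x ∈ A, ∑ y' ∈ B, ∑ y ∈ B, ∑ x' ∈ A,
        (G.w x * α x) * (G.w y * β y) * (G.w x' * G.w y' * G.S x' y') := by
      have e1 : G.MAB A B = ∑ y' ∈ B, ∑ x' ∈ A, G.w x' * G.w y' * G.S x' y' := by
        unfold MAB
        rw [Finset.sum_comm]
      rw [e1, mul_assoc]
      unfold mass
      rw [Finset.sum_mul]
      refine Finset.sum_congr rfl fun x _ => ?_
      rw [Finset.mul_sum, Finset.mul_sum]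
      refine Finset.sum_congr rfl fun y' _ => ?_
      rw [Finset.sum_mul, Finset.mul_sum]
      refine Finset.sum_congr rfl fun y _ => ?_
      rw [Finset.mul_sum, Finset.mul_sum]
      refine Finset.sum_congr rfl fun x' _ => by ring
    rw [e0]
    refine Finset.sum_le_sum fun x _ => Finset.sum_le_sum fun y' _ =>
      Finset.sum_le_sum fun y _ => Finset.sum_le_sum fun x' _ => ?_
    have h1 : 0 ≤ (G.w x * α x) * (G.w y * β y) * (G.w x' * G.w y' * G.S x' y') :=
      mul_nonneg (mul_nonneg (mul_nonneg (G.wnn x) (hα x).1) (mul_nonneg (G.wnn y) (hβ y).1))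
        (mul_nonneg (mul_nonneg (G.wnn x') (G.wnn y')) (S_nonneg _ _))
    have k1 : 0 ≤ θ x * φ y := mul_nonneg (hθ x).1 (hφ y).1
    have k1' : θ x * φ y ≤ 1 := mul_le_one₀ (hθ x).2 (hφ y).1 (hφ y).2
    have k2 : 0 ≤ (1 - β y') * (1 - α x') :=
      mul_nonneg (by linarith [(hβ y').2]) (by linarith [(hα x').2])
    have k2' : (1 - β y') * (1 - α x') ≤ 1 :=
      mul_le_one₀ (by linarith [(hβ y').1]) (by linarith [(hα x').2]) (by linarith [(hα x').1])
    have k3 : 0 ≤ G.a x y' * G.a y x' := mul_nonneg (a_nonneg _ _) (a_nonneg _ _)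
    have k3' : G.a x y' * G.a y x' ≤ 1 := mul_le_one₀ (a_le_one _ _) (a_nonneg _ _) (a_le_one _ _)
    have k4 : (θ x * φ y) * ((1 - β y') * (1 - α x')) * (G.a x y' * G.a y x') ≤ 1 :=
      mul_le_one₀ (mul_le_one₀ k1' k2 k2') k3 k3'
    have := mul_le_mul_of_nonneg_right k4 h1
    calc _ = (θ x * φ y) * ((1 - β y') * (1 - α x')) * (G.a x y' * G.a y x') *
          ((G.w x * α x) * (G.w y * β y) * (G.w x' * G.w y' * G.S x' y')) := by ring
      _ ≤ _ := by rw [one_mul] at this; exact this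
  have hsplit : G.U κ A B α β * G.U κ B A β α =
      (∑ x ∈ A, ∑ y' ∈ B, ∑ y ∈ B, ∑ x' ∈ A,
      (G.w x * α x * θ x * (G.w y' * (1 - β y') * G.a x y')) *
      (G.w y * β y * φ y * (G.w x' * (1 - α x') * G.a y x')) * G.a x' y') +
      (∑ x ∈ A, ∑ y' ∈ B, ∑ y ∈ B, ∑ x' ∈ A,
      (G.w x * α x * θ x * (G.w y' * (1 - β y') * G.a x y')) *
      (G.w y * β y * φ y * (G.w x' * (1 - α x') * G.a y x')) * G.a y' x') +
      (∑ x ∈ A, ∑ y' ∈ B, ∑ y ∈ B, ∑ x' ∈ A,
      (G.w x * α x * θ x * (G.w y' * (1 - β y') * G.a x y')) *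
      (G.w y * β y * φ y * (G.w x' * (1 - α x') * G.a y x')) * G.S x' y') := by
    rw [hexp]
    simp only [← Finset.sum_add_distrib]
    refine Finset.sum_congr rfl fun x _ => Finset.sum_congr rfl fun y' _ =>
      Finset.sum_congr rfl fun y _ => Finset.sum_congr rfl fun x' _ => ?_
    rw [← mul_add, ← mul_add, aaS, mul_one]
  rw [hsplit]
  linarith

end WOG
end Pool.Agent.FdF
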