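import Mathlib

set_option autoImplicit false

namespace Pool.Agent.FdF.WOG

open Finset Classical

/-- Q1a: fractional bottom sets. (For zero weights the statement would be false, hence `hw`.) -/
theorem exists_thr {V : Type} (A : Finset V) (w c : V → ℝ) (hw : ∀ x ∈ A, 0 < w x) :
    ∃ α : ℝ → V → ℝ, (∀ t x, 0 ≤ α t x ∧ α t x ≤ 1) ∧
      (∀ t, 0 ≤ t → t ≤ ∑ x ∈ A, w x → ∑ x ∈ A, w x * α t x = t) ∧
      (∀ t, ∀ x ∈ A, ∀ x' ∈ A, 0 < α t x → α t x' < 1 → c x ≤ c x') ∧
      ∀ x, Continuous (fun t => α t x) := by
  classical
  induction hn : A.card generalizing A with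
  | zero =>
    have hA : A = ∅ := Finset.card_eq_zero.mp hn
    subst hA
    refine ⟨fun _ _ => 0, fun _ _ => by norm_num, ?_, ?_, fun _ => continuous_const⟩
    · intro t h0 h1
      simp only [Finset.sum_empty] at h1 ⊢
      linarith
    · intro t x hx
      simp at hx
  | succ k ih =>
    have hne : A.Nonempty := by
      rw [← Finset.card_pos]; omega
    obtain ⟨x0, hx0, hmax⟩ := Finset.exists_max_image A c hne
    have hcard : (A.erase x0).card = k := by
      rw [Finset.card_erase_of_mem hx0]; omega
    obtain ⟨α, h1, h2, h3, h4⟩ := ih (A.erase x0) (fun x hx => hw x (Finset.mem_of_mem_erase hx)) hcard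
    set W : ℝ := ∑ x ∈ A.erase x0, w x with hW
    have hWnn : 0 ≤ W := Finset.sum_nonneg (fun x hx => (hw x (Finset.mem_of_mem_erase hx)).le)
    have hw0 : 0 < w x0 := hw x0 hx0
    have hsum : ∑ x ∈ A, w x = w x0 + W := (Finset.add_sum_erase A w hx0).symm
    -- at `W` everything is full
    have hfull : ∀ x ∈ A.erase x0, α W x = 1 := by
      intro x hx
      have hs := h2 W hWnn le_rfl
      have hz : ∑ y ∈ A.erase x0, w y * (1 - α W y) = 0 := by
        have : ∑ y ∈ A.erase x0, w y * (1 - α W y) = W - ∑ y ∈ A.erase x0, w y * α W y := by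
          rw [hW, ← Finset.sum_sub_distrib]
          exact Finset.sum_congr rfl (fun y _ => by ring)
        rw [this, hs, sub_self]
      have hz' := (Finset.sum_eq_zero_iff_of_nonneg (fun y hy =>
        mul_nonneg (hw y (Finset.mem_of_mem_erase hy)).le (by linarith [(h1 W y).2]))).mp hz x hx
      have := hw x (Finset.mem_of_mem_erase hx)
      rcases mul_eq_zero.mp hz' with h | h
      · linarith
      · linarith
    refine ⟨fun t x => if x = x0 then max 0 (min 1 ((t - W) / w x0)) else α (min t W) x,
      ?_, ?_, ?_, ?_⟩
    · intro t x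
      dsimp only
      split_ifs with h
      · exact ⟨le_max_left _ _, max_le (by norm_num) (min_le_left _ _)⟩
      · exact h1 _ _
    · intro t ht0 ht1
      rw [← Finset.add_sum_erase A _ hx0]
      simp only [if_true]
      have hrest : ∑ x ∈ A.erase x0, w x * (if x = x0 then max 0 (min 1 ((t - W) / w x0)) else α (min t W) x)
          = ∑ x ∈ A.erase x0, w x * α (min t W) x := by
        refine Finset.sum_congr rfl (fun x hx => ?_)
        rw [if_neg (Finset.ne_of_mem_erase hx)]
      rw [hrest]
      rw [h2 (min t W) (le_min ht0 hWnn) (min_le_right _ _)]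
      rw [hsum] at ht1
      by_cases htW : t ≤ W
      · have : (t - W) / w x0 ≤ 0 := div_nonpos_of_nonpos_of_nonneg (by linarith) hw0.le
        rw [min_eq_left htW, max_eq_left (le_trans (min_le_right _ _) this)]
        ring
      · push Not at htW
        have h5 : 0 ≤ (t - W) / w x0 := div_nonneg (by linarith) hw0.le
        have h6 : (t - W) / w x0 ≤ 1 := by rw [div_le_one hw0]; linarith
        rw [min_eq_right htW.le, min_eq_right h6, max_eq_right h5]
        field_simp
        ring
    · intro t x hx x' hx' hpos hlt
      dsimp only at hpos hlt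
      by_cases hxx' : x' = x0
      · rw [hxx']; exact hmax x hx
      rw [if_neg hxx'] at hlt
      by_cases hxx : x = x0
      · exfalso
        rw [if_pos hxx] at hpos
        have h7 : W < t := by
          by_contra hcon
          push Not at hcon
          have : (t - W) / w x0 ≤ 0 := div_nonpos_of_nonpos_of_nonneg (by linarith) hw0.le
          rw [max_eq_left (le_trans (min_le_right _ _) this)] at hpos
          exact lt_irrefl _ hpos
        rw [min_eq_right h7.le, hfull x' (Finset.mem_erase.mpr ⟨hxx', hx'⟩)] at hlt
        exact lt_irrefl _ hlt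
      · rw [if_neg hxx] at hpos
        exact h3 _ x (Finset.mem_erase.mpr ⟨hxx, hx⟩) x' (Finset.mem_erase.mpr ⟨hxx', hx'⟩) hpos hlt
    · intro x
      dsimp only
      by_cases h : x = x0
      · simp only [if_pos h]
        fun_prop
      · simp only [if_neg h]
        exact (h4 x).comp (continuous_id.min continuous_const)

end Pool.Agent.FdF.WOG
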