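import Pool.Agent.FdF.CornerOf
import Pool.Agent.FdF.Thr
import Pool.Agent.FdF.PhiLower
import Pool.Agent.FdF.Quad

/-!
Task Q1b: the corner lemma.
-/

set_option autoImplicit false

namespace Pool.Agent.FdF

open Finset Classical

namespace WOG

variable {V : Type} [Fintype V]

/-- the corner lemma (positive weights) -/
theorem corner (G : WOG V) (hpos : ∀ x, 0 < G.w x) (A B : Finset V) (hd : Disjoint A B) (κ s : ℝ)
    (hs : 0 < s) (hsκ : s ≤ κ) (hA : s ≤ ∑ x ∈ A, G.w x) (hB : s ≤ ∑ x ∈ B, G.w x) :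
    ∃ m X Y : ℝ, 0 ≤ m ∧ m ≤ s ∧ 0 ≤ X ∧ 0 ≤ Y ∧
      2 * (X^2 + Y^2) = G.WA A + G.WA B ∧
      κ * s + (κ - s) * m - ((s * X + G.MAB A B) + (m * Y + G.MAB A B)
        + 2 * Real.sqrt ((s * X + G.MAB A B) * (m * Y + G.MAB A B) + κ * (m * Y^2 + s * X^2)
          + s * m * G.MAB A B)) - (X^2 + Y^2) ≤ G.Phi A B κ :=
  corner_of G A B κ s hs hsκ hA hB
    (exists_thr A G.w (G.dIn B) fun x _ => hpos x)
    (exists_thr B G.w (G.dIn A) fun x _ => hpos x)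
    (fun α β hα hβ h1 h2 => quad G A B hd κ (hs.le.trans hsκ) α β hα hβ h1 h2)
    (fun α β hα hβ => Phi_lower G A B hd κ (hs.le.trans hsκ) α β hα hβ)

end WOG
end Pool.Agent.FdF
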