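import Mathlib

set_option autoImplicit false

namespace Pool.Agent.FdF

open Finset Classical

/-- A finite oriented graph without induced oriented 4-cycle, with probability weights on the vertices. -/
structure WOG (V : Type) [Fintype V] where
  R : V → V → Prop
  asym : ∀ u v, R u v → ¬ R v u
  c4 : ¬ ∃ a b c d : V, R a b ∧ R b c ∧ R c d ∧ R d a ∧ ¬ R a c ∧ ¬ R c a ∧ ¬ R b d ∧ ¬ R d b
  w : V → ℝ
  wnn : ∀ x, 0 ≤ w x
  wsum : ∑ x, w x = 1

namespace WOG

variable {V : Type} [Fintype V] (G : WOG V)

/-- arc indicator -/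
noncomputable def a (x y : V) : ℝ := if G.R x y then 1 else 0

/-- non-adjacency indicator (`S x x = 1`) -/
noncomputable def S (x y : V) : ℝ := if G.R x y ∨ G.R y x then 0 else 1

/-- out-degree -/
noncomputable def d (x : V) : ℝ := ∑ y, G.w y * G.a x y

/-- non-adjacency degree -/
noncomputable def s (x : V) : ℝ := ∑ y, G.w y * G.S x y

/-- non-adjacency density -/
noncomputable def sbar : ℝ := ∑ x, G.w x * G.s x

/-- edge indicator of the Fon-der-Flaass 3-graph (of the blow-up), as a polynomial -/
noncomputable def F (x y z : V) : ℝ :=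
  (G.S x y * G.S x z + G.S x y * G.S y z + G.S x z * G.S y z - 2 * (G.S x y * G.S x z * G.S y z))
   + G.a x y * G.a x z + G.a y x * G.a y z + G.a z x * G.a z y

/-- link density -/
noncomputable def T1 (x : V) : ℝ := ∑ y, ∑ z, G.w y * G.w z * G.F x y z

/-- edge density of the blow-up -/
noncomputable def T : ℝ := ∑ x, G.w x * G.T1 x

noncomputable def Z (x : V) : ℝ := 1/3 - G.d x

section part
variable (p : V → Fin 3)

/-- defect indicator with respect to a partition: same part and adjacent, or different parts and non-adjacent -/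
noncomputable def D (x y : V) : ℝ := if p x = p y then 1 - G.S x y else G.S x y
noncomputable def b (x : V) : ℝ := ∑ y, G.w y * G.D p x y
noncomputable def eta : ℝ := ∑ x, G.w x * G.b p x
noncomputable def P (j : Fin 3) : ℝ := ∑ y, if p y = j then G.w y else 0
noncomputable def n (x : V) (j : Fin 3) : ℝ := ∑ y, if p y = j then G.w y * G.S x y else 0
/-- wrong pairs (same part, adjacent), ordered measure -/
noncomputable def W : ℝ := ∑ x, ∑ y, if p x = p y then G.w x * G.w y * (1 - G.S x y) else 0
/-- missing pairs (different parts, non-adjacent), ordered measure -/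
noncomputable def M : ℝ := ∑ x, ∑ y, if p x = p y then 0 else G.w x * G.w y * G.S x y
/-- the defect degree `x` would have in part `j` -/
noncomputable def bj (x : V) (j : Fin 3) : ℝ := G.P p j - 2 * G.n p x j + ∑ k, G.n p x k
end part

/-- the partition defined by two root vertices -/
noncomputable def rootPart (z y : V) : V → Fin 3 := fun x =>
  if G.R z x ∨ G.R x z then (if G.R y x ∨ G.R x y then 2 else 1) else 0

section corner
variable (A B : Finset V)
/-- wrong pairs inside `A`, ordered measure -/
noncomputable def WA (A : Finset V) : ℝ := ∑ x ∈ A, ∑ y ∈ A, G.w x * G.w y * (1 - G.S x y)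
/-- missing pairs between `A` and `B` (one order) -/
noncomputable def MAB : ℝ := ∑ x ∈ A, ∑ y ∈ B, G.w x * G.w y * G.S x y
/-- outdegree into a set -/
noncomputable def dIn (C : Finset V) (x : V) : ℝ := ∑ y ∈ C, G.w y * G.a x y
noncomputable def Phi (κ : ℝ) : ℝ := ∑ x ∈ A ∪ B, G.w x * max (κ - G.dIn (A ∪ B) x) 0
end corner

/-- critical: positive weights, all links have the same density, density `< 4/9` -/
structure Crit : Prop where
  pos : ∀ x, 0 < G.w x
  kkt : ∀ x, G.T1 x = G.T
  lt : G.T < 4/9

/-! ### basic facts -/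
variable {G}
lemma a_nonneg (x y : V) : 0 ≤ G.a x y := by unfold a; split_ifs <;> norm_num
lemma a_le_one (x y : V) : G.a x y ≤ 1 := by unfold a; split_ifs <;> norm_num
lemma S_nonneg (x y : V) : 0 ≤ G.S x y := by unfold S; split_ifs <;> norm_num
lemma S_le_one (x y : V) : G.S x y ≤ 1 := by unfold S; split_ifs <;> norm_num
lemma S_symm (x y : V) : G.S x y = G.S y x := by unfold S; simp only [or_comm]
lemma S01 (x y : V) : G.S x y = 0 ∨ G.S x y = 1 := by unfold S; split_ifs <;> simp
lemma a01 (x y : V) : G.a x y = 0 ∨ G.a x y = 1 := by unfold a; split_ifs <;> simp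
lemma aaS (x y : V) : G.a x y + G.a y x + G.S x y = 1 := by
  unfold a S
  by_cases h : G.R x y
  · have := G.asym _ _ h; simp [h, this]
  · by_cases h' : G.R y x <;> simp [h, h']
lemma S_self (x : V) : G.S x x = 1 := by
  unfold S
  have : ¬ G.R x x := fun h => G.asym _ _ h h
  simp [this]
lemma a_self (x : V) : G.a x x = 0 := by
  unfold a
  have : ¬ G.R x x := fun h => G.asym _ _ h h
  simp [this]
lemma a_mul_symm (x y : V) : G.a x y * G.a y x = 0 := by
  unfold a
  by_cases h : G.R x y
  · have := G.asym _ _ h; simp [h, this]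
  · simp [h]
/-- C4-freeness: in a directed 4-cycle one of the two diagonals is an adjacent pair -/
lemma c4_mul (x y z t : V) : G.a x y * G.a y z * G.a z t * G.a t x * G.S x z * G.S y t = 0 := by
  by_contra h
  simp only [mul_eq_zero, not_or] at h
  obtain ⟨⟨⟨⟨⟨h1, h2⟩, h3⟩, h4⟩, h5⟩, h6⟩ := h
  apply G.c4
  refine ⟨x, y, z, t, ?_, ?_, ?_, ?_, ?_, ?_, ?_, ?_⟩
  · by_contra hh; exact h1 (by unfold a; simp [hh])
  · by_contra hh; exact h2 (by unfold a; simp [hh])
  · by_contra hh; exact h3 (by unfold a; simp [hh])
  · by_contra hh; exact h4 (by unfold a; simp [hh])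
  · intro hh; exact h5 (by unfold S; simp [hh])
  · intro hh; exact h5 (by unfold S; simp [hh])
  · intro hh; exact h6 (by unfold S; simp [hh])
  · intro hh; exact h6 (by unfold S; simp [hh])

end WOG
end Pool.Agent.FdF
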