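import Mathlib
import Pool.Agent.FdF.Defs

set_option autoImplicit false

/-!
# Task S1: existence of a critical weighted orgraph
-/

namespace Pool.Agent.FdF

open Finset Classical

namespace WOG

variable {V : Type} [Fintype V]

/-- trilinear form evaluated on the diagonal -/
noncomputable def s1Tf (F : V → V → V → ℝ) (w : V → ℝ) : ℝ :=
  ∑ x, ∑ y, ∑ z, w x * w y * w z * F x y z

theorem s1_F_swap12 (G : WOG V) (x y z : V) : G.F x y z = G.F y x z := by
  unfold F
  rw [S_symm x y]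
  ring

theorem s1_F_swap13 (G : WOG V) (x y z : V) : G.F x y z = G.F z y x := by
  unfold F
  rw [S_symm x z, S_symm x y, S_symm y z]
  ring

theorem s1_T_eq (G : WOG V) : G.T = s1Tf G.F G.w := by
  unfold T T1 s1Tf
  refine Finset.sum_congr rfl fun x _ => ?_
  rw [Finset.mul_sum]
  refine Finset.sum_congr rfl fun y _ => ?_
  rw [Finset.mul_sum]
  refine Finset.sum_congr rfl fun z _ => ?_
  ring

theorem s1_continuous (F : V → V → V → ℝ) : Continuous (s1Tf F) := by
  unfold s1Tf
  fun_prop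

/-- coefficients of the cubic polynomial -/
theorem s1_expand (F : V → V → V → ℝ) (w v : V → ℝ) : ∃ c2 c3 : ℝ, ∀ ε : ℝ,
    s1Tf F (fun x => w x + ε * v x) = s1Tf F w
      + (∑ x, ∑ y, ∑ z, (v x * w y * w z + w x * v y * w z + w x * w y * v z) * F x y z) * ε
      + c2 * ε ^ 2 + c3 * ε ^ 3 := by
  refine ⟨∑ x, ∑ y, ∑ z, (v x * v y * w z + w x * v y * v z + v x * w y * v z) * F x y z,
    ∑ x, ∑ y, ∑ z, v x * v y * v z * F x y z, fun ε => ?_⟩
  unfold s1Tf
  simp only [Finset.sum_mul, ← Finset.sum_add_distrib]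
  refine Finset.sum_congr rfl fun x _ => Finset.sum_congr rfl fun y _ =>
    Finset.sum_congr rfl fun z _ => ?_
  ring

theorem s1_coeff_zero (c0 c1 c2 c3 δ : ℝ) (hδ : 0 < δ)
    (h : ∀ ε, |ε| ≤ δ → c0 ≤ c0 + c1 * ε + c2 * ε ^ 2 + c3 * ε ^ 3) : c1 = 0 := by
  have hd : HasDerivAt (fun ε : ℝ => c0 + c1 * ε + c2 * ε ^ 2 + c3 * ε ^ 3) c1 0 := by
    have h1 := (((hasDerivAt_id (0 : ℝ)).const_mul c1).const_add c0)
    have h2 := ((hasDerivAt_pow 2 (0 : ℝ)).const_mul c2)
    have h3 := ((hasDerivAt_pow 3 (0 : ℝ)).const_mul c3)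
    have h4 : HasDerivAt (fun ε : ℝ => c0 + c1 * ε + c2 * ε ^ 2 + c3 * ε ^ 3)
        (c1 * 1 + c2 * (((2 : ℕ) : ℝ) * 0 ^ (2 - 1)) + c3 * (((3 : ℕ) : ℝ) * 0 ^ (3 - 1))) 0 :=
      (h1.add h2).add h3
    have h5 : c1 * 1 + c2 * (((2 : ℕ) : ℝ) * 0 ^ (2 - 1))
        + c3 * (((3 : ℕ) : ℝ) * 0 ^ (3 - 1)) = c1 := by norm_num
    rwa [h5] at h4
  refine IsLocalMin.hasDerivAt_eq_zero ?_ hd
  filter_upwards [Metric.closedBall_mem_nhds (0 : ℝ) hδ] with ε hε
  have h5 : |ε| ≤ δ := by simpa using hε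
  simpa using h ε h5

/-- first order condition -/
theorem s1_first (G : WOG V) (w : V → ℝ) (hw : w ∈ stdSimplex ℝ V)
    (hmin : ∀ u ∈ stdSimplex ℝ V, s1Tf G.F w ≤ s1Tf G.F u) (p q : V) (hp : 0 < w p) (hq : 0 < w q) :
    ∑ y, ∑ z, w y * w z * G.F p y z = ∑ y, ∑ z, w y * w z * G.F q y z := by
  by_cases hpq : p = q
  · rw [hpq]
  set v : V → ℝ := fun x => (if x = p then 1 else 0) - (if x = q then 1 else 0) with hv
  obtain ⟨c2, c3, hexp⟩ := s1_expand G.F w v
  have hc1 := s1_coeff_zero (s1Tf G.F w)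
    (∑ x, ∑ y, ∑ z, (v x * w y * w z + w x * v y * w z + w x * w y * v z) * G.F x y z) c2 c3
    (min (w p) (w q)) (lt_min hp hq) (fun ε hε => by
      rw [← hexp]
      refine hmin _ ⟨fun x => ?_, ?_⟩
      · have h1 := abs_le.mp hε
        have h2 : min (w p) (w q) ≤ w p := min_le_left _ _
        have h3 : min (w p) (w q) ≤ w q := min_le_right _ _
        have h4 := hw.1 x
        simp only [hv]
        by_cases hxp : x = p
        · have hxq : x ≠ q := fun h => hpq (hxp.symm.trans h)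
          rw [if_pos hxp, if_neg hxq, hxp]
          linarith
        · by_cases hxq : x = q
          · rw [if_neg hxp, if_pos hxq, hxq]
            linarith
          · rw [if_neg hxp, if_neg hxq]
            linarith
      · rw [Finset.sum_add_distrib, hw.2, ← Finset.mul_sum]
        simp [hv])
  have hT : ∀ x, ∑ y, ∑ z, w y * w z * G.F x y z = ∑ y, ∑ z, w y * w z * G.F x y z := fun _ => rfl
  have e1 : ∑ x, ∑ y, ∑ z, (v x * w y * w z + w x * v y * w z + w x * w y * v z) * G.F x y z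
      = 3 * ∑ x, v x * ∑ y, ∑ z, w y * w z * G.F x y z := by
    have a1 : ∑ x, ∑ y, ∑ z, (v x * w y * w z) * G.F x y z
        = ∑ x, v x * ∑ y, ∑ z, w y * w z * G.F x y z := by
      refine Finset.sum_congr rfl fun x _ => ?_
      rw [Finset.mul_sum]
      refine Finset.sum_congr rfl fun y _ => ?_
      rw [Finset.mul_sum]
      refine Finset.sum_congr rfl fun z _ => ?_
      ring
    have a2 : ∑ x, ∑ y, ∑ z, (w x * v y * w z) * G.F x y z
        = ∑ x, ∑ y, ∑ z, (v x * w y * w z) * G.F x y z := by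
      rw [Finset.sum_comm]
      refine Finset.sum_congr rfl fun x _ => Finset.sum_congr rfl fun y _ =>
        Finset.sum_congr rfl fun z _ => ?_
      rw [s1_F_swap12 G y x z]
      ring
    have a3 : ∑ x, ∑ y, ∑ z, (w x * w y * v z) * G.F x y z
        = ∑ x, ∑ y, ∑ z, (v x * w y * w z) * G.F x y z := by
      calc ∑ x, ∑ y, ∑ z, (w x * w y * v z) * G.F x y z
          = ∑ y, ∑ x, ∑ z, (w x * w y * v z) * G.F x y z := Finset.sum_comm
        _ = ∑ y, ∑ z, ∑ x, (w x * w y * v z) * G.F x y z :=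
            Finset.sum_congr rfl fun y _ => Finset.sum_comm
        _ = ∑ z, ∑ y, ∑ x, (w x * w y * v z) * G.F x y z := Finset.sum_comm
        _ = _ := by
            refine Finset.sum_congr rfl fun x _ => Finset.sum_congr rfl fun y _ =>
              Finset.sum_congr rfl fun z _ => ?_
            rw [s1_F_swap13 G z y x]
            ring
    have a4 : ∑ x, ∑ y, ∑ z, (v x * w y * w z + w x * v y * w z + w x * w y * v z) * G.F x y z
        = ∑ x, ∑ y, ∑ z, (v x * w y * w z) * G.F x y z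
          + ∑ x, ∑ y, ∑ z, (w x * v y * w z) * G.F x y z
          + ∑ x, ∑ y, ∑ z, (w x * w y * v z) * G.F x y z := by
      simp only [← Finset.sum_add_distrib]
      refine Finset.sum_congr rfl fun x _ => Finset.sum_congr rfl fun y _ =>
        Finset.sum_congr rfl fun z _ => ?_
      ring
    rw [a4, a2, a3, a1]
    ring
  rw [e1] at hc1
  have e2 : ∑ x, v x * ∑ y, ∑ z, w y * w z * G.F x y z
      = ∑ y, ∑ z, w y * w z * G.F p y z - ∑ y, ∑ z, w y * w z * G.F q y z := by
    simp only [hv, sub_mul, Finset.sum_sub_distrib, ite_mul, one_mul, zero_mul,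
      Finset.sum_ite_eq', Finset.mem_univ, if_true]
  rw [e2] at hc1
  linarith

theorem s1_sum_subtype (w : V → ℝ) (hw : ∀ x, 0 ≤ w x) (f : V → ℝ) :
    ∑ x : {x // 0 < w x}, w x * f x = ∑ x, w x * f x := by
  rw [← Finset.sum_subtype (Finset.univ.filter fun x => 0 < w x) (by simp) (fun x => w x * f x)]
  rw [Finset.sum_filter]
  refine Finset.sum_congr rfl fun x _ => ?_
  split_ifs with h
  · rfl
  · have : w x = 0 := le_antisymm (not_lt.mp h) (hw x)
    rw [this, zero_mul]

/-- restriction to the support of `w` -/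
noncomputable def s1Restrict (G : WOG V) (w : V → ℝ) (hw : w ∈ stdSimplex ℝ V) :
    WOG {x // 0 < w x} where
  R x y := G.R x y
  asym x y := G.asym x y
  c4 := by
    rintro ⟨a, b, c, d, h⟩
    exact G.c4 ⟨a, b, c, d, h⟩
  w x := w x
  wnn x := x.2.le
  wsum := by
    have h := s1_sum_subtype w hw.1 (fun _ => 1)
    simpa [hw.2] using h

theorem exists_crit (G : WOG V) (h : G.T < 4/9) :
    ∃ (V' : Type) (_ : Fintype V') (G' : WOG V'), G'.Crit := by
  have hne : (stdSimplex ℝ V).Nonempty := ⟨G.w, G.wnn, G.wsum⟩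
  obtain ⟨w, hw, hmin⟩ := (isCompact_stdSimplex ℝ V).exists_isMinOn hne
    (s1_continuous G.F).continuousOn
  have hmin' : ∀ u ∈ stdSimplex ℝ V, s1Tf G.F w ≤ s1Tf G.F u := fun u hu => hmin hu
  have hF : ∀ x y z : {x // 0 < w x}, (s1Restrict G w hw).F x y z = G.F x y z := by
    intro x y z
    rfl
  have hT1 : ∀ x : {x // 0 < w x}, (s1Restrict G w hw).T1 x
      = ∑ y, ∑ z, w y * w z * G.F x y z := by
    intro x
    have h1 : (s1Restrict G w hw).T1 x
        = ∑ y : {x // 0 < w x}, w y * ∑ z : {x // 0 < w x}, w z * G.F x y z := by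
      unfold T1
      refine Finset.sum_congr rfl fun y _ => ?_
      rw [Finset.mul_sum]
      refine Finset.sum_congr rfl fun z _ => ?_
      rw [hF]
      simp only [s1Restrict]
      ring
    rw [h1]
    have h2 : ∀ y : {x // 0 < w x}, ∑ z : {x // 0 < w x}, w z * G.F x y z
        = ∑ z, w z * G.F x y z := fun y => s1_sum_subtype w hw.1 (fun z => G.F x y z)
    simp only [h2]
    rw [s1_sum_subtype w hw.1 (fun y => ∑ z, w z * G.F x y z)]
    refine Finset.sum_congr rfl fun y _ => ?_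
    rw [Finset.mul_sum]
    refine Finset.sum_congr rfl fun z _ => ?_
    ring
  have hT : (s1Restrict G w hw).T = s1Tf G.F w := by
    unfold T
    simp only [hT1]
    have h1 : ∑ x : {x // 0 < w x}, (s1Restrict G w hw).w x * ∑ y, ∑ z, w y * w z * G.F x y z
        = ∑ x, w x * ∑ y, ∑ z, w y * w z * G.F x y z :=
      s1_sum_subtype w hw.1 (fun x => ∑ y, ∑ z, w y * w z * G.F x y z)
    rw [h1]
    unfold s1Tf
    refine Finset.sum_congr rfl fun x _ => ?_
    rw [Finset.mul_sum]
    refine Finset.sum_congr rfl fun y _ => ?_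
    rw [Finset.mul_sum]
    refine Finset.sum_congr rfl fun z _ => ?_
    ring
  refine ⟨{x // 0 < w x}, inferInstance, s1Restrict G w hw, fun x => x.2, fun x => ?_, ?_⟩
  · have hall : ∀ y : {x // 0 < w x}, (s1Restrict G w hw).T1 y = (s1Restrict G w hw).T1 x := by
      intro y
      rw [hT1, hT1]
      exact s1_first G w hw hmin' y x y.2 x.2
    have h1 : (s1Restrict G w hw).T
        = ∑ y, (s1Restrict G w hw).w y * (s1Restrict G w hw).T1 x := by
      unfold T
      exact Finset.sum_congr rfl fun y _ => by rw [hall y]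
    rw [h1, ← Finset.sum_mul, (s1Restrict G w hw).wsum, one_mul]
  · rw [hT]
    refine lt_of_le_of_lt ?_ h
    rw [s1_T_eq]
    exact hmin' _ ⟨G.wnn, G.wsum⟩

end WOG

end Pool.Agent.FdF
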