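import Pool.Agent.FdF.FlagCheck
import Pool.Agent.FdF.TabC2
set_option autoImplicit false
namespace Pool.Agent.FdF
namespace Flag
namespace C2

theorem c00 : chkB tO t3 t1 2243003720663040 0 0 0 0 = true := by decide +kernel
theorem c01 : chkB tO t3 t1 2243003720663040 0 0 1 2 = true := by decide +kernel
theorem c02 : chkB tO t3 t1 2243003720663040 0 0 2 1 = true := by decide +kernel
theorem c10 : chkB tO t3 t1 2243003720663040 1 2 0 0 = true := by decide +kernel
theorem c11 : chkB tO t3 t1 2243003720663040 1 2 1 2 = true := by decide +kernel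
theorem c12 : chkB tO t3 t1 2243003720663040 1 2 2 1 = true := by decide +kernel
theorem c20 : chkB tO t3 t1 2243003720663040 2 1 0 0 = true := by decide +kernel
theorem c21 : chkB tO t3 t1 2243003720663040 2 1 1 2 = true := by decide +kernel
theorem c22 : chkB tO t3 t1 2243003720663040 2 1 2 1 = true := by decide +kernel

theorem chk : ∀ p01 p10 p02 p20, TR p01 p10 → TR p02 p20 → chkB tO t3 t1 2243003720663040 p01 p10 p02 p20 = true := by
  rintro p01 p10 p02 p20 (⟨rfl, rfl⟩ | ⟨rfl, rfl⟩ | ⟨rfl, rfl⟩) (⟨rfl, rfl⟩ | ⟨rfl, rfl⟩ | ⟨rfl, rfl⟩)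
  · exact c00
  · exact c01
  · exact c02
  · exact c10
  · exact c11
  · exact c12
  · exact c20
  · exact c21
  · exact c22

end C2
end Flag
end Pool.Agent.FdF
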