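import Pool.Agent.FdF.FlagPsd
import Pool.Agent.FdF.ChkC2
set_option autoImplicit false
namespace Pool.Agent.FdF
namespace Flag
namespace C2

theorem psd1 : chkP r1 t1 = true := by decide +kernel
theorem psd3_0 : chkP r3_0 t3_0 = true := by decide +kernel
theorem psd3_1 : chkP r3_1 t3_1 = true := by decide +kernel
theorem psd3_4 : chkP r3_4 t3_4 = true := by decide +kernel
theorem psd3_5 : chkP r3_5 t3_5 = true := by decide +kernel
theorem psd3_8 : chkP r3_8 t3_8 = true := by decide +kernel
theorem psd3_13 : chkP r3_13 t3_13 = true := by decide +kernel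
theorem psd3_16 : chkP r3_16 t3_16 = true := by decide +kernel
theorem psd3_no : chkP r3_no t3_no = true := by decide +kernel
theorem psd3 : ∀ a b c, a < 3 → b < 3 → c < 3 → chkP (r3 a b c) (t3 a b c) = true := by
  intro a b c ha hb hc
  have ha' : a = 0 ∨ a = 1 ∨ a = 2 := by omega
  have hb' : b = 0 ∨ b = 1 ∨ b = 2 := by omega
  have hc' : c = 0 ∨ c = 1 ∨ c = 2 := by omega
  rcases ha' with rfl | rfl | rfl <;> rcases hb' with rfl | rfl | rfl <;> rcases hc' with rfl | rfl | rfl
  · exact psd3_0
  · exact psd3_1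
  · exact psd3_no
  · exact psd3_no
  · exact psd3_4
  · exact psd3_5
  · exact psd3_no
  · exact psd3_no
  · exact psd3_8
  · exact psd3_no
  · exact psd3_no
  · exact psd3_no
  · exact psd3_no
  · exact psd3_13
  · exact psd3_no
  · exact psd3_no
  · exact psd3_16
  · exact psd3_no
  · exact psd3_no
  · exact psd3_no
  · exact psd3_no
  · exact psd3_no
  · exact psd3_no
  · exact psd3_no
  · exact psd3_no
  · exact psd3_no
  · exact psd3_no
theorem obj : all6 (okO tO 23 4433338 0) = true := by decide +kernel

theorem cert : Cert tO t3 t1 r3 r1 23 4433338 0 := ⟨chk, psd3, psd1, obj⟩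

end C2
end Flag
end Pool.Agent.FdF
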