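import Pool.Agent.FdF.FlagMain
import Pool.Agent.FdF.PsdC2
import Pool.Agent.FdF.PsdC3

set_option autoImplicit false

namespace Pool.Agent.FdF

open Finset Classical

namespace WOG

variable {V : Type} [Fintype V]

theorem flagC2 (G : WOG V) (h : G.T ≤ 4/9) :
    ∑ z, ∑ y, G.w z * G.w y * ((1 - G.S z y) * (G.eta (G.rootPart z y) - 23/10000)) ≤ 0 := by
  have h1 := Flag.flag_generic G Flag.C2.cert
  have h2 : ∀ z y : V, G.w z * G.w y *
      ((1 - G.S z y) * (G.eta (G.rootPart z y) + ((0 : ℕ) : ℝ) * (G.sbar - 1/3) - ((23 : ℕ) : ℝ)/10000))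
      = G.w z * G.w y * ((1 - G.S z y) * (G.eta (G.rootPart z y) - 23/10000)) := by
    intro z y; push_cast; ring
  simp only [h2] at h1
  refine h1.trans ?_
  have : (0 : ℝ) ≤ ((4433338 : ℕ) : ℝ)/1000000 * (4/9 - G.T) := by
    have : 0 ≤ 4/9 - G.T := by linarith
    positivity
  linarith

theorem flagC3 (G : WOG V) (h : G.T ≤ 4/9) :
    ∑ z, ∑ y, G.w z * G.w y *
      ((1 - G.S z y) * (G.eta (G.rootPart z y) + (G.sbar - 1/3) - 132/10000)) ≤ 0 := by
  have h1 := Flag.flag_generic G Flag.C3.cert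
  have h2 : ∀ z y : V, G.w z * G.w y *
      ((1 - G.S z y) * (G.eta (G.rootPart z y) + ((1 : ℕ) : ℝ) * (G.sbar - 1/3) - ((132 : ℕ) : ℝ)/10000))
      = G.w z * G.w y * ((1 - G.S z y) * (G.eta (G.rootPart z y) + (G.sbar - 1/3) - 132/10000)) := by
    intro z y; push_cast; ring
  simp only [h2] at h1
  refine h1.trans ?_
  have : (0 : ℝ) ≤ ((11392610 : ℕ) : ℝ)/1000000 * (4/9 - G.T) := by
    have : 0 ≤ 4/9 - G.T := by linarith
    positivity
  linarith

end WOG
end Pool.Agent.FdF
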