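import Pool.Agent.FdF.Defs

set_option autoImplicit false

namespace Pool.Agent.FdF

open Finset Classical

namespace WOG

variable {V : Type} [Fintype V] {G : WOG V}

/-- triple expectation -/
noncomputable def E3 (G : WOG V) (f : V → V → V → ℝ) : ℝ :=
  ∑ x, ∑ y, ∑ z, G.w x * G.w y * G.w z * f x y z

lemma E3_add (f g : V → V → V → ℝ) :
    G.E3 (fun x y z => f x y z + g x y z) = G.E3 f + G.E3 g := by
  simp only [E3, mul_add, Finset.sum_add_distrib]

lemma E3_smul (c : ℝ) (f : V → V → V → ℝ) :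
    G.E3 (fun x y z => c * f x y z) = c * G.E3 f := by
  simp only [E3, Finset.mul_sum]
  refine Finset.sum_congr rfl fun x _ => Finset.sum_congr rfl fun y _ =>
    Finset.sum_congr rfl fun z _ => by ring

lemma E3_swap12 (f : V → V → V → ℝ) : G.E3 (fun x y z => f y x z) = G.E3 f := by
  unfold E3
  rw [Finset.sum_comm]
  refine Finset.sum_congr rfl fun x _ => Finset.sum_congr rfl fun y _ =>
    Finset.sum_congr rfl fun z _ => by ring

lemma E3_swap23 (f : V → V → V → ℝ) : G.E3 (fun x y z => f x z y) = G.E3 f := by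
  unfold E3
  refine Finset.sum_congr rfl fun x _ => ?_
  rw [Finset.sum_comm]
  refine Finset.sum_congr rfl fun y _ =>
    Finset.sum_congr rfl fun z _ => by ring

lemma E3_mono {f g : V → V → V → ℝ} (h : ∀ x y z, f x y z ≤ g x y z) : G.E3 f ≤ G.E3 g := by
  unfold E3
  refine Finset.sum_le_sum fun x _ => Finset.sum_le_sum fun y _ =>
    Finset.sum_le_sum fun z _ => ?_
  exact mul_le_mul_of_nonneg_left (h x y z)
    (mul_nonneg (mul_nonneg (G.wnn x) (G.wnn y)) (G.wnn z))

lemma E3_pair (f : V → V → ℝ) :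
    G.E3 (fun x y _ => f x y) = ∑ x, G.w x * ∑ y, G.w y * f x y := by
  unfold E3
  refine Finset.sum_congr rfl fun x _ => ?_
  rw [Finset.mul_sum]
  refine Finset.sum_congr rfl fun y _ => ?_
  have : ∀ z, G.w x * G.w y * G.w z * f x y = (G.w x * (G.w y * f x y)) * G.w z := fun z => by ring
  simp only [this]
  rw [← Finset.mul_sum, G.wsum, mul_one]

lemma E3_prod (f g : V → V → ℝ) :
    G.E3 (fun x y z => f x y * g x z) =
      ∑ x, G.w x * ((∑ y, G.w y * f x y) * ∑ z, G.w z * g x z) := by
  unfold E3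
  refine Finset.sum_congr rfl fun x _ => ?_
  rw [Finset.sum_mul_sum, Finset.mul_sum]
  refine Finset.sum_congr rfl fun y _ => ?_
  rw [Finset.mul_sum]
  refine Finset.sum_congr rfl fun z _ => by ring

lemma E3_const (c : ℝ) : G.E3 (fun _ _ _ => c) = c := by
  rw [E3_pair (G := G) (fun _ _ => c)]
  simp only [← Finset.sum_mul, G.wsum, one_mul]

lemma T_eq_E3 : G.T = G.E3 G.F := by
  unfold T T1 E3
  refine Finset.sum_congr rfl fun x _ => ?_
  rw [Finset.mul_sum]
  refine Finset.sum_congr rfl fun y _ => ?_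
  rw [Finset.mul_sum]
  refine Finset.sum_congr rfl fun z _ => by ring

/-- pair average of the out-indicator -/
lemma sum_d : ∑ x, G.w x * G.d x = (1 - G.sbar) / 2 := by
  have h1 : ∑ x, G.w x * G.d x = G.E3 (fun x y _ => G.a x y) := by
    rw [E3_pair]; rfl
  have h2 : ∑ x, G.w x * G.d x = G.E3 (fun x y _ => G.a y x) := by
    rw [h1, ← E3_swap12]
  have h3 : G.sbar = G.E3 (fun x y _ => G.S x y) := by
    rw [E3_pair]; rfl
  have h4 : G.E3 (fun x y _ => (G.a x y + G.a y x) + G.S x y) = 1 := by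
    have : (fun (x y _z : V) => (G.a x y + G.a y x) + G.S x y) = fun _ _ _ => (1:ℝ) := by
      funext x y z; exact aaS x y
    rw [this, E3_const]
  rw [E3_add, E3_add, ← h1, ← h2, ← h3] at h4
  linarith

lemma sum_Z : ∑ x, G.w x * G.Z x = (G.sbar - 1/3)/2 := by
  unfold Z
  have : ∀ x, G.w x * (1/3 - G.d x) = 1/3 * G.w x - G.w x * G.d x := fun x => by ring
  simp only [this, Finset.sum_sub_distrib, ← Finset.mul_sum, G.wsum, sum_d]
  ring

/-- the edge indicator minus the average of the three nonadjacency indicators -/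
noncomputable def g3 (u v t : ℝ) : ℝ := u * v + u * t + v * t - 2 * (u * v * t) - (u + v + t) / 3

lemma sum_Zsq : ∑ x, G.w x * (G.Z x)^2 = ∑ x, G.w x * (G.d x)^2 + 1/9 - (1 - G.sbar)/3 := by
  unfold Z
  have : ∀ x, G.w x * (1/3 - G.d x)^2 = G.w x * (G.d x)^2 + 1/9 * G.w x - 2/3 * (G.w x * G.d x) :=
    fun x => by ring
  simp only [this, Finset.sum_sub_distrib, Finset.sum_add_distrib, ← Finset.mul_sum, G.wsum, sum_d]
  ring

/-- identity (1a) -/
lemma T_eq_J : G.T - 4/9 = G.E3 (fun x y z => g3 (G.S x y) (G.S x z) (G.S y z)) + 2/9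
    + 3 * ∑ x, G.w x * (G.Z x)^2 := by
  have hd1 : G.E3 (fun x y z => G.a x y * G.a x z) = ∑ x, G.w x * (G.d x)^2 := by
    rw [E3_prod]
    refine Finset.sum_congr rfl fun x _ => ?_
    unfold d; ring
  have hd2 : G.E3 (fun x y z => G.a y x * G.a y z) = ∑ x, G.w x * (G.d x)^2 := by
    rw [← hd1, ← E3_swap12]
  have hd3 : G.E3 (fun x y z => G.a z x * G.a z y) = ∑ x, G.w x * (G.d x)^2 := by
    rw [← hd2, ← E3_swap23]
  have hs1 : G.E3 (fun x y _ => G.S x y) = G.sbar := by rw [E3_pair]; rfl
  have hs2 : G.E3 (fun x _ z => G.S x z) = G.sbar := by rw [← hs1, ← E3_swap23]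
  have hs3 : G.E3 (fun _ y z => G.S y z) = G.sbar := by rw [← hs2, ← E3_swap12]
  have hF : G.F = fun x y z => ((((g3 (G.S x y) (G.S x z) (G.S y z) + (1/3) * G.S x y) + (1/3) * G.S x z)
      + (1/3) * G.S y z) + G.a x y * G.a x z + G.a y x * G.a y z) + G.a z x * G.a z y := by
    funext x y z; unfold F g3; ring
  rw [T_eq_E3, hF]
  rw [E3_add, E3_add, E3_add, E3_add, E3_add, E3_add, E3_smul, E3_smul, E3_smul, hd1, hd2, hd3,
    hs1, hs2, hs3, sum_Zsq]
  ring

section part
variable (p : V → Fin 3)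

/-- same-part indicator -/
noncomputable def S0 (x y : V) : ℝ := if p x = p y then 1 else 0

lemma sum_part (f : Fin 3 → ℝ) : ∑ x, G.w x * f (p x) = ∑ j, G.P p j * f j := by
  unfold P
  simp only [Finset.sum_mul]
  rw [Finset.sum_comm]
  refine Finset.sum_congr rfl fun x _ => ?_
  rw [Finset.sum_eq_single (p x)]
  · simp
  · intro j _ hj
    simp [Ne.symm hj]
  · simp

lemma sum_S0 (x : V) : ∑ y, G.w y * S0 p x y = G.P p (p x) := by
  unfold P S0
  refine Finset.sum_congr rfl fun y _ => ?_
  by_cases h : p x = p y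
  · simp [h]
  · simp [h, Ne.symm h]

lemma sum_P' : ∑ j, G.P p j = 1 := by
  have := sum_part (G := G) p (fun _ => 1)
  simp only [mul_one, G.wsum] at this
  exact this.symm

/-- E g(k0) + 2/9 = sum of cubes -/
lemma E3_g0 : G.E3 (fun x y z => g3 (S0 p x y) (S0 p x z) (S0 p y z)) + 2/9
    = ∑ j, (G.P p j - 1/3)^3 := by
  have h0 : (fun x y z => g3 (S0 p x y) (S0 p x z) (S0 p y z)) =
      fun x y z => ((S0 p x y * S0 p x z + (-1/3) * S0 p x y) + (-1/3) * S0 p x z)
        + (-1/3) * S0 p y z := by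
    funext x y z
    unfold g3 S0
    by_cases h1 : p x = p y
    · by_cases h2 : p x = p z
      · have h3 : p y = p z := h1 ▸ h2
        simp only [h1, h2, h3, if_true]; norm_num
      · have h3 : ¬ p y = p z := fun h => h2 (h1.trans h)
        simp only [h1, h2, h3, if_true, if_false]; norm_num
    · by_cases h2 : p x = p z
      · have h3 : ¬ p y = p z := fun h => h1 (h2.trans h.symm)
        have h1' : ¬ p z = p y := fun h => h3 h.symm
        simp only [h1', h2, h3, if_true, if_false]; norm_num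
      · by_cases h3 : p y = p z
        · simp only [h1, h2, h3, if_true, if_false]; norm_num
        · simp only [h1, h2, h3, if_false]; norm_num
  have hs1 : G.E3 (fun x y _ => S0 p x y) = ∑ j, (G.P p j)^2 := by
    rw [E3_pair]
    simp only [sum_S0]
    rw [sum_part (G := G) p (fun j => G.P p j)]
    refine Finset.sum_congr rfl fun j _ => by ring
  have hs2 : G.E3 (fun x _ z => S0 p x z) = ∑ j, (G.P p j)^2 := by rw [← hs1, ← E3_swap23]
  have hs3 : G.E3 (fun _ y z => S0 p y z) = ∑ j, (G.P p j)^2 := by rw [← hs2, ← E3_swap12]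
  have hp : G.E3 (fun x y z => S0 p x y * S0 p x z) = ∑ j, (G.P p j)^3 := by
    rw [E3_prod]
    simp only [sum_S0]
    rw [sum_part (G := G) p (fun j => G.P p j * G.P p j)]
    refine Finset.sum_congr rfl fun j _ => by ring
  rw [h0, E3_add, E3_add, E3_add, E3_smul, E3_smul, E3_smul, hs1, hs2, hs3, hp]
  have hP := sum_P' (G := G) p
  simp only [Fin.sum_univ_three] at hP ⊢
  have h2 : G.P p 2 = 1 - G.P p 0 - G.P p 1 := by linarith
  rw [h2]; ring

/-- weight of a defect pair with third vertex -/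
noncomputable def lw (x y z : V) : ℝ :=
  if p x = p y then 1/3 else -1/3 + S0 p x z + S0 p y z

lemma pointwise (x y z : V) :
    g3 (S0 p x y) (S0 p x z) (S0 p y z) + (G.D p x y * lw p x y z + G.D p x z * lw p x z y
      + G.D p y z * lw p y z x) - (G.D p x y * G.D p x z + G.D p y x * G.D p y z
        + G.D p z x * G.D p z y)
      ≤ g3 (G.S x y) (G.S x z) (G.S y z) := by
  have hyx : G.S y x = G.S x y := S_symm y x
  have hzx : G.S z x = G.S x z := S_symm z x
  have hzy : G.S z y = G.S y z := S_symm z y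
  unfold D lw g3 S0
  rw [hyx, hzx, hzy]
  by_cases h1 : p x = p y
  · by_cases h2 : p x = p z
    · have h3 : p y = p z := h1 ▸ h2
      simp only [h1, h2, h3, if_true]
      rcases S01 (G := G) x y with e1 | e1 <;> rcases S01 (G := G) x z with e2 | e2 <;>
        rcases S01 (G := G) y z with e3 | e3 <;> rw [e1, e2, e3] <;> norm_num
    · have h3 : ¬ p y = p z := fun h => h2 (h1.trans h)
      have h2' : ¬ p z = p x := fun h => h2 h.symm
      have h3' : ¬ p z = p y := fun h => h3 h.symm
      simp only [h1, h3, h3', if_true, if_false]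
      rcases S01 (G := G) x y with e1 | e1 <;> rcases S01 (G := G) x z with e2 | e2 <;>
        rcases S01 (G := G) y z with e3 | e3 <;> rw [e1, e2, e3] <;> norm_num
  · by_cases h2 : p x = p z
    · have h3 : ¬ p y = p z := fun h => h1 (h2.trans h.symm)
      have h1' : ¬ p z = p y := fun h => h3 h.symm
      simp only [h1', h2, h3, if_true, if_false]
      rcases S01 (G := G) x y with e1 | e1 <;> rcases S01 (G := G) x z with e2 | e2 <;>
        rcases S01 (G := G) y z with e3 | e3 <;> rw [e1, e2, e3] <;> norm_num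
    · have h2' : ¬ p z = p x := fun h => h2 h.symm
      have h1' : ¬ p y = p x := fun h => h1 h.symm
      by_cases h3 : p y = p z
      · simp only [h2, h2', h3, if_true, if_false]
        rcases S01 (G := G) x y with e1 | e1 <;> rcases S01 (G := G) x z with e2 | e2 <;>
          rcases S01 (G := G) y z with e3 | e3 <;> rw [e1, e2, e3] <;> norm_num
      · have h3' : ¬ p z = p y := fun h => h3 h.symm
        simp only [h1, h1', h2, h2', h3, h3', if_false]
        rcases S01 (G := G) x y with e1 | e1 <;> rcases S01 (G := G) x z with e2 | e2 <;>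
          rcases S01 (G := G) y z with e3 | e3 <;> rw [e1, e2, e3] <;> norm_num

lemma E3_lw (t : ℝ) (ht : ∀ k, G.P p k - 1/3 ≤ t) :
    (1/3) * G.W p + (1/3 - t) * G.M p ≤ G.E3 (fun x y z => G.D p x y * lw p x y z) := by
  have hW : G.W p = G.E3 (fun x y _ => if p x = p y then (1 - G.S x y) else 0) := by
    rw [E3_pair]
    unfold W
    refine Finset.sum_congr rfl fun x _ => ?_
    rw [Finset.mul_sum]
    refine Finset.sum_congr rfl fun y _ => ?_
    split_ifs <;> ring
  have hM : G.M p = G.E3 (fun x y _ => if p x = p y then 0 else G.S x y) := by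
    rw [E3_pair]
    unfold M
    refine Finset.sum_congr rfl fun x _ => ?_
    rw [Finset.mul_sum]
    refine Finset.sum_congr rfl fun y _ => ?_
    split_ifs <;> ring
  rw [hW, hM, ← E3_smul, ← E3_smul, ← E3_add]
  unfold E3
  refine Finset.sum_le_sum fun x _ => Finset.sum_le_sum fun y _ => ?_
  have hwxy : 0 ≤ G.w x * G.w y := mul_nonneg (G.wnn x) (G.wnn y)
  simp only [mul_assoc, ← Finset.mul_sum]
  rw [← mul_assoc, ← mul_assoc]
  refine mul_le_mul_of_nonneg_left ?_ hwxy
  unfold D lw
  by_cases h : p x = p y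
  · simp only [h, if_true]
    apply le_of_eq
    refine Finset.sum_congr rfl fun z _ => by ring
  · simp only [h, if_false]
    have hS := S_nonneg (G := G) x y
    have e1 : ∑ z, G.w z * (1/3 * 0 + (1/3 - t) * G.S x y) = (1/3 - t) * G.S x y := by
      rw [← Finset.sum_mul, G.wsum]; ring
    have e2 : ∑ z, G.w z * (G.S x y * (-1/3 + S0 p x z + S0 p y z))
        = G.S x y * (-1/3 + G.P p (p x) + G.P p (p y)) := by
      have : ∀ z, G.w z * (G.S x y * (-1/3 + S0 p x z + S0 p y z))
          = G.S x y * (-1/3 * G.w z + G.w z * S0 p x z + G.w z * S0 p y z) := fun z => by ring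
      simp only [this]
      rw [← Finset.mul_sum, Finset.sum_add_distrib, Finset.sum_add_distrib, sum_S0, sum_S0,
        ← Finset.mul_sum, G.wsum]
      ring
    rw [e1, e2]
    have key : 1/3 - t ≤ -1/3 + G.P p (p x) + G.P p (p y) := by
      have hP := sum_P' (G := G) p
      simp only [Fin.sum_univ_three] at hP
      have h0 := ht 0
      have h1 := ht 1
      have h2 := ht 2
      generalize p x = i at h
      generalize p y = j at h
      fin_cases i <;> fin_cases j <;> first | exact absurd rfl h | (simp only [Fin.zero_eta, Fin.mk_one, Fin.reduceFinMk] at *; linarith)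
    nlinarith [mul_le_mul_of_nonneg_left key hS]

theorem T_lower (t : ℝ) (ht : ∀ k, G.P p k - 1/3 ≤ t) :
    (∑ j, (G.P p j - 1/3)^3) + G.W p + (1 - 3*t) * G.M p - 3 * ∑ x, G.w x * (G.b p x)^2
      + 3 * ∑ x, G.w x * (G.Z x)^2 ≤ G.T - 4/9 := by
  rw [T_eq_J, ← E3_g0]
  have hl1 := E3_lw (G := G) p t ht
  have hl2 : G.E3 (fun x y z => G.D p x z * lw p x z y) = G.E3 (fun x y z => G.D p x y * lw p x y z) := by
    rw [← E3_swap23]
  have hl3 : G.E3 (fun x y z => G.D p y z * lw p y z x) = G.E3 (fun x y z => G.D p x y * lw p x y z) := by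
    rw [← hl2, ← E3_swap12]
  have hb1 : G.E3 (fun x y z => G.D p x y * G.D p x z) = ∑ x, G.w x * (G.b p x)^2 := by
    rw [E3_prod]
    refine Finset.sum_congr rfl fun x _ => ?_
    unfold b; ring
  have hb2 : G.E3 (fun x y z => G.D p y x * G.D p y z) = ∑ x, G.w x * (G.b p x)^2 := by
    rw [← hb1, ← E3_swap12]
  have hb3 : G.E3 (fun x y z => G.D p z x * G.D p z y) = ∑ x, G.w x * (G.b p x)^2 := by
    rw [← hb2, ← E3_swap23]
  have hmono := E3_mono (G := G) (f := fun x y z => (g3 (S0 p x y) (S0 p x z) (S0 p y z)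
      + ((G.D p x y * lw p x y z + G.D p x z * lw p x z y) + G.D p y z * lw p y z x))
      + (-1) * ((G.D p x y * G.D p x z + G.D p y x * G.D p y z) + G.D p z x * G.D p z y))
    (g := fun x y z => g3 (G.S x y) (G.S x z) (G.S y z))
    (fun x y z => by have := pointwise (G := G) p x y z; linarith)
  rw [E3_add, E3_add, E3_add, E3_add, E3_smul, E3_add, E3_add, hl2, hl3, hb1, hb2, hb3] at hmono
  linarith

end part

end WOG
end Pool.Agent.FdF
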