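import Pool.Agent.FdF.JBound

set_option autoImplicit false

namespace Pool.Agent.FdF

open Finset Classical

namespace WOG

variable {V : Type} [Fintype V] {G : WOG V}

/-- pair expectation -/
noncomputable def E2 (G : WOG V) (f : V → V → ℝ) : ℝ := ∑ y, ∑ z, G.w y * G.w z * f y z

lemma E2_add (f g : V → V → ℝ) : G.E2 (fun y z => f y z + g y z) = G.E2 f + G.E2 g := by
  simp only [E2, mul_add, Finset.sum_add_distrib]

lemma E2_smul (c : ℝ) (f : V → V → ℝ) : G.E2 (fun y z => c * f y z) = c * G.E2 f := by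
  simp only [E2, Finset.mul_sum]
  refine Finset.sum_congr rfl fun x _ => Finset.sum_congr rfl fun y _ => by ring

lemma E2_swap (f : V → V → ℝ) : G.E2 (fun y z => f z y) = G.E2 f := by
  unfold E2
  rw [Finset.sum_comm]
  refine Finset.sum_congr rfl fun x _ => Finset.sum_congr rfl fun y _ => by ring

lemma E2_mono {f g : V → V → ℝ} (h : ∀ y z, f y z ≤ g y z) : G.E2 f ≤ G.E2 g := by
  unfold E2
  refine Finset.sum_le_sum fun y _ => Finset.sum_le_sum fun z _ => ?_
  exact mul_le_mul_of_nonneg_left (h y z) (mul_nonneg (G.wnn y) (G.wnn z))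

lemma E2_prod (f g : V → ℝ) :
    G.E2 (fun y z => f y * g z) = (∑ y, G.w y * f y) * ∑ z, G.w z * g z := by
  unfold E2
  rw [Finset.sum_mul_sum]
  refine Finset.sum_congr rfl fun x _ => Finset.sum_congr rfl fun y _ => by ring

lemma E2_dep (f : V → ℝ) (g : V → V → ℝ) :
    G.E2 (fun y z => f y * g y z) = ∑ y, G.w y * (f y * ∑ z, G.w z * g y z) := by
  unfold E2
  refine Finset.sum_congr rfl fun y _ => ?_
  rw [Finset.mul_sum, Finset.mul_sum]
  refine Finset.sum_congr rfl fun z _ => by ring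

/-- the nonadjacency part of the link density -/
noncomputable def iT (G : WOG V) (x : V) : ℝ :=
  G.E2 (fun y z => G.S x y * G.S x z + G.S x y * G.S y z + G.S x z * G.S y z
    - 2 * (G.S x y * G.S x z * G.S y z))

/-- identity (1b) -/
lemma T1_eq (x : V) : G.T1 x = G.iT x - 2/3 * G.s x + 5/9 + (G.Z x)^2
    - 2 * ∑ y, G.w y * (G.a y x * G.Z y) := by
  have h0 : G.T1 x = G.E2 (fun y z => ((G.S x y * G.S x z + G.S x y * G.S y z + G.S x z * G.S y z
    - 2 * (G.S x y * G.S x z * G.S y z)) + G.a x y * G.a x z + G.a y x * G.a y z)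
      + G.a z x * G.a z y) := by
    unfold T1 E2 F
    rfl
  have h1 : G.E2 (fun y z => G.a x y * G.a x z) = (G.d x)^2 := by
    rw [E2_prod]; unfold d; ring
  have h2 : G.E2 (fun y z => G.a y x * G.a y z) = ∑ y, G.w y * (G.a y x * G.d y) := by
    rw [E2_dep]; rfl
  have h3 : G.E2 (fun y z => G.a z x * G.a z y) = ∑ y, G.w y * (G.a y x * G.d y) := by
    rw [← h2, ← E2_swap]
  have h4 : ∑ y, G.w y * (G.a y x * G.d y)
      = 1/3 * (1 - G.d x - G.s x) - ∑ y, G.w y * (G.a y x * G.Z y) := by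
    have e : ∀ y, G.w y * (G.a y x * G.d y) = 1/3 * (G.w y - G.w y * G.a x y - G.w y * G.S x y)
        - G.w y * (G.a y x * G.Z y) := by
      intro y
      have := aaS (G := G) x y
      have h : G.a y x = 1 - G.a x y - G.S x y := by linarith
      unfold Z
      have : G.w y * (G.a y x * (1/3 - G.d y)) = G.w y * (1/3 * G.a y x) - G.w y * (G.a y x * G.d y) := by ring
      rw [this]
      nth_rewrite 2 [h]
      ring
    simp only [e, Finset.sum_sub_distrib, ← Finset.mul_sum, G.wsum]
    rfl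
  have h5 : (G.d x)^2 = 1/9 - 2/3 * G.Z x + (G.Z x)^2 := by unfold Z; ring
  have h6 : G.d x = 1/3 - G.Z x := by unfold Z; ring
  rw [h0, E2_add, E2_add, E2_add, h1, h2, h3, h4, h5, h6]
  unfold iT
  ring

section part
variable (p : V → Fin 3)

lemma sum_n (x : V) : ∑ k, G.n p x k = G.s x := by
  unfold n s
  rw [Finset.sum_comm]
  refine Finset.sum_congr rfl fun y _ => ?_
  rw [Finset.sum_eq_single (p y)]
  · simp
  · intro j _ hj
    simp [Ne.symm hj]
  · simp

lemma sum_S_part (x : V) (f : Fin 3 → ℝ) : ∑ y, G.w y * (G.S x y * f (p y)) = ∑ k, G.n p x k * f k := by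
  unfold n
  simp only [Finset.sum_mul]
  rw [Finset.sum_comm]
  refine Finset.sum_congr rfl fun y _ => ?_
  rw [Finset.sum_eq_single (p y)]
  · simp; ring
  · intro j _ hj
    simp [Ne.symm hj]
  · simp

lemma sum_S_S0 (x y : V) : ∑ z, G.w z * (G.S x z * S0 p y z) = G.n p x (p y) := by
  unfold n S0
  refine Finset.sum_congr rfl fun z _ => ?_
  by_cases h : p y = p z
  · simp [h]
  · have h' : ¬ p z = p y := fun hh => h hh.symm
    simp [h, h']

lemma iT_lower (x : V) :
    (∑ k, G.n p x k)^2 + 2 * ∑ k, G.P p k * G.n p x k - 2 * ∑ k, (G.n p x k)^2 - G.W p ≤ G.iT x := by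
  have hW : G.W p = G.E2 (fun y z => if p y = p z then (1 - G.S y z) else 0) := by
    unfold W E2
    refine Finset.sum_congr rfl fun x _ => ?_
    refine Finset.sum_congr rfl fun y _ => ?_
    by_cases h : p x = p y <;> simp [h]
  have h1 : G.E2 (fun y z => G.S x y * G.S x z) = (∑ k, G.n p x k)^2 := by
    rw [E2_prod, sum_n]; unfold s; ring
  have h2 : G.E2 (fun y z => G.S x y * S0 p y z) = ∑ k, G.P p k * G.n p x k := by
    rw [E2_dep]
    simp only [sum_S0]
    rw [sum_S_part (G := G) p x (fun k => G.P p k)]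
    refine Finset.sum_congr rfl fun k _ => by ring
  have h3 : G.E2 (fun y z => G.S x z * S0 p y z) = ∑ k, G.P p k * G.n p x k := by
    rw [← h2, ← E2_swap]
    congr 1
    funext y z
    unfold S0
    by_cases h : p y = p z
    · simp [h]
    · have h' : ¬ p z = p y := fun hh => h hh.symm
      simp [h, h']
  have h4 : G.E2 (fun y z => G.S x y * (G.S x z * S0 p y z)) = ∑ k, (G.n p x k)^2 := by
    rw [E2_dep]
    simp only [sum_S_S0]
    rw [sum_S_part (G := G) p x (fun k => G.n p x k)]
    refine Finset.sum_congr rfl fun k _ => by ring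
  have hmono := E2_mono (G := G)
    (f := fun y z => (((G.S x y * G.S x z + G.S x y * S0 p y z) + G.S x z * S0 p y z)
      + (-2) * (G.S x y * (G.S x z * S0 p y z))) + (-1) * (if p y = p z then (1 - G.S y z) else 0))
    (g := fun y z => G.S x y * G.S x z + G.S x y * G.S y z + G.S x z * G.S y z
      - 2 * (G.S x y * G.S x z * G.S y z))
    (fun y z => by
      unfold S0
      by_cases h : p y = p z
      · simp only [h, if_true]
        rcases S01 (G := G) x y with e1 | e1 <;> rcases S01 (G := G) x z with e2 | e2 <;>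
          rcases S01 (G := G) y z with e3 | e3 <;> rw [e1, e2, e3] <;> norm_num
      · simp only [h, if_false]
        rcases S01 (G := G) x y with e1 | e1 <;> rcases S01 (G := G) x z with e2 | e2 <;>
          rcases S01 (G := G) y z with e3 | e3 <;> rw [e1, e2, e3] <;> norm_num)
  rw [E2_add, E2_add, E2_add, E2_add, E2_smul, E2_smul, h1, h2, h3, h4, ← hW] at hmono
  unfold iT
  linarith

theorem Lam_le (hc : G.Crit) (p : V → Fin 3) (x : V) :
    (∑ k, G.n p x k)^2 - 2 * ∑ k, (G.n p x k)^2 + 2 * ∑ k, (G.P p k - 1/3) * G.n p x k + 1/9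
      ≤ (∑ x, G.w x * |G.Z x|) + (∑ x, G.w x * G.Z x) + G.W p := by
  have h1 := iT_lower (G := G) p x
  have h2 := T1_eq (G := G) x
  have h3 := hc.kkt x
  have h4 := hc.lt
  have h5 : 2 * ∑ y, G.w y * (G.a y x * G.Z y) ≤ (∑ x, G.w x * |G.Z x|) + (∑ x, G.w x * G.Z x) := by
    rw [Finset.mul_sum, ← Finset.sum_add_distrib]
    refine Finset.sum_le_sum fun y _ => ?_
    have hw := G.wnn y
    have hz1 := le_abs_self (G.Z y)
    have hz2 := neg_abs_le (G.Z y)
    have key : 2 * (G.a y x * G.Z y) ≤ |G.Z y| + G.Z y := by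
      rcases a01 (G := G) y x with e | e <;> rw [e] <;> linarith
    nlinarith [mul_le_mul_of_nonneg_left key hw]
  have h6 : 2 * ∑ k, (G.P p k - 1/3) * G.n p x k = 2 * ∑ k, G.P p k * G.n p x k - 2/3 * G.s x := by
    rw [← sum_n (G := G) p x]
    simp only [sub_mul, Finset.sum_sub_distrib, ← Finset.mul_sum]
    ring
  have h7 : 0 ≤ (G.Z x)^2 := sq_nonneg _
  rw [h6]
  linarith

end part

end WOG
end Pool.Agent.FdF
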