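import Mathlib

set_option autoImplicit false

/-! Task N: the final numerical inequality. -/

namespace Pool.Agent.FdF

namespace WOG

/-- the scaled inequality for `m = 0` -/
private theorem num_zero (x y n : ℝ) (hx : 0 ≤ x) (hn : 0 ≤ n) :
    0 ≤ (1688/94 * (x^2 + y^2) + 1124/94 * n) * (14/100 + n) - 3/4 * (14/100 + n)
      + 192/100 * ((14/100 + n) * (84/100 * (714/1000) - 714/1000 * x - 2 * n - (x^2 + y^2))
        - ((714/1000 * x + n) * n + 84/100 * (714/1000 * x^2)) - (14/100 + n)^2) := by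
  nlinarith [mul_nonneg hn (sq_nonneg (x - 855/10000)), sq_nonneg (x - 88/1000), sq_nonneg n,
    mul_nonneg hn (sq_nonneg y), sq_nonneg y, mul_nonneg hn hx]

/-- the scaled inequality for `m = 0.714` -/
private theorem num_one (x y n : ℝ) (hn : 0 ≤ n) :
    0 ≤ (1688/94 * (x^2 + y^2) + 1124/94 * n) * (14/100 + n) - 3/4 * (14/100 + n)
      + 192/100 * ((14/100 + n) * (84/100 * (714/1000) + 126/1000 * (714/1000) - 714/1000 * x
          - 714/1000 * y - 2 * n - (x^2 + y^2))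
        - ((714/1000 * x + n) * (714/1000 * y + n)
            + 84/100 * (714/1000 * y^2 + 714/1000 * x^2) + 714/1000 * (714/1000) * n)
        - (14/100 + n)^2) := by
  nlinarith [mul_nonneg hn (sq_nonneg (x - 855/10000)), mul_nonneg hn (sq_nonneg (y - 855/10000)),
    sq_nonneg (x - y), sq_nonneg (x + y - 318/1000), sq_nonneg (n - 1/100), sq_nonneg n]

/-- the scaled inequality at `a = 0.094`, for all `m` -/
private theorem num_mid (x y n μ : ℝ) (hx : 0 ≤ x) (hn : 0 ≤ n) (hμ : 0 ≤ μ)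
    (hμ1 : μ ≤ 714/1000) :
    0 ≤ (1688/94 * (x^2 + y^2) + 1124/94 * n) * (14/100 + n) - 3/4 * (14/100 + n)
      + 192/100 * ((14/100 + n) * (84/100 * (714/1000) + 126/1000 * μ - 714/1000 * x
          - μ * y - 2 * n - (x^2 + y^2))
        - ((714/1000 * x + n) * (μ * y + n)
            + 84/100 * (μ * y^2 + 714/1000 * x^2) + 714/1000 * μ * n)
        - (14/100 + n)^2) := by
  have h0 := mul_nonneg (sub_nonneg.2 hμ1) (num_zero x y n hx hn)
  have h1 := mul_nonneg hμ (num_one x y n hn)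
  have h2 : 0 ≤ 714/1000 * ((1688/94 * (x^2 + y^2) + 1124/94 * n) * (14/100 + n)
      - 3/4 * (14/100 + n)
      + 192/100 * ((14/100 + n) * (84/100 * (714/1000) + 126/1000 * μ - 714/1000 * x
          - μ * y - 2 * n - (x^2 + y^2))
        - ((714/1000 * x + n) * (μ * y + n)
            + 84/100 * (μ * y^2 + 714/1000 * x^2) + 714/1000 * μ * n)
        - (14/100 + n)^2)) := by
    linear_combination h0 + h1
  linarith

theorem numeric (a X Y ν m : ℝ) (ha : 0 < a) (ha2 : a ≤ 94/1000) (hX : 0 ≤ X) (hY : 0 ≤ Y) (hν : 0 ≤ ν)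
    (hm : 0 ≤ m) (hm2 : m ≤ 714/1000 * a) :
    0 ≤ -(3/4) * a^3 + 2 * (844/1000) * (X^2 + Y^2) + 2 * (562/1000) * ν + (192/100) * a *
      ((84/100*a) * (714/1000*a) + ((84/100*a) - (714/1000*a)) * m
        - (((714/1000*a) * X + ν) + (m * Y + ν)
        + 2 * Real.sqrt (((714/1000*a) * X + ν) * (m * Y + ν)
            + (84/100*a) * (m * Y^2 + (714/1000*a) * X^2) + (714/1000*a) * m * ν)) - (X^2 + Y^2)) := by
  obtain ⟨x, hx, rfl⟩ : ∃ x, 0 ≤ x ∧ X = x * a :=
    ⟨X / a, div_nonneg hX ha.le, (div_mul_cancel₀ X ha.ne').symm⟩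
  obtain ⟨y, hy, rfl⟩ : ∃ y, 0 ≤ y ∧ Y = y * a :=
    ⟨Y / a, div_nonneg hY ha.le, (div_mul_cancel₀ Y ha.ne').symm⟩
  obtain ⟨μ, hμ, rfl⟩ : ∃ μ, 0 ≤ μ ∧ m = μ * a :=
    ⟨m / a, div_nonneg hm ha.le, (div_mul_cancel₀ m ha.ne').symm⟩
  obtain ⟨n, hn, rfl⟩ : ∃ n, 0 ≤ n ∧ ν = n * a^2 :=
    ⟨ν / a^2, div_nonneg hν (by positivity), (div_mul_cancel₀ ν (by positivity)).symm⟩
  have hμ1 : μ ≤ 714/1000 := le_of_mul_le_mul_right hm2 ha
  -- the argument of the root
  set A := ((714/1000*a) * (x * a) + n * a^2) * (μ * a * (y * a) + n * a^2)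
            + (84/100*a) * (μ * a * (y * a)^2 + (714/1000*a) * (x * a)^2)
            + (714/1000*a) * (μ * a) * (n * a^2) with hA
  have hA0 : 0 ≤ A := by positivity
  have hr2 := Real.sq_sqrt hA0
  have hr := Real.sqrt_nonneg A
  set r := Real.sqrt A with hrdef
  set T := (714/1000 * x + n) * (μ * y + n)
            + 84/100 * (μ * y^2 + 714/1000 * x^2) + 714/1000 * μ * n with hT
  have hAT : A = a^4 * T := by rw [hA, hT]; ring
  have hg : 0 < 14/100 + n := by positivity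
  have ha2' : 0 < a^2 := by positivity
  -- `2 r g ≤ a² (T + g²)`
  have h1 : 2 * r * (14/100 + n) ≤ a^2 * (T + (14/100 + n)^2) := by
    have h2 : 0 ≤ (r - a^2 * (14/100 + n))^2 := sq_nonneg _
    have h3 : a^2 * (2 * r * (14/100 + n)) ≤ a^2 * (a^2 * (T + (14/100 + n)^2)) := by
      have h4 : r^2 = a^4 * T := by rw [hr2, hAT]
      nlinarith
    exact le_of_mul_le_mul_left h3 ha2'
  have h5 := num_mid x y n μ hx hn hμ hμ1
  -- combine
  have h6 : 0 ≤ (1688/1000 * (x^2 + y^2) + 1124/1000 * n) * (14/100 + n)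
      + a * (- 3/4 * (14/100 + n)
      + 192/100 * ((14/100 + n) * (84/100 * (714/1000) + 126/1000 * μ - 714/1000 * x
          - μ * y - 2 * n - (x^2 + y^2)) - T - (14/100 + n)^2)) := by
    have h7 : 0 ≤ (94/1000 - a) *
        ((1688/1000 * (x^2 + y^2) + 1124/1000 * n) * (14/100 + n)) :=
      mul_nonneg (by linarith) (by positivity)
    have h8 := mul_nonneg ha.le h5
    have h9 : 0 ≤ 94/1000 * ((1688/1000 * (x^2 + y^2) + 1124/1000 * n) * (14/100 + n)
      + a * (- 3/4 * (14/100 + n)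
      + 192/100 * ((14/100 + n) * (84/100 * (714/1000) + 126/1000 * μ - 714/1000 * x
          - μ * y - 2 * n - (x^2 + y^2)) - T - (14/100 + n)^2))) := by
      rw [hT]
      linear_combination h7 + (94/1000) * h8
    linarith
  have h10 : 0 ≤ a^2 * ((1688/1000 * (x^2 + y^2) + 1124/1000 * n) * (14/100 + n)
      + a * (- 3/4 * (14/100 + n)
      + 192/100 * ((14/100 + n) * (84/100 * (714/1000) + 126/1000 * μ - 714/1000 * x
          - μ * y - 2 * n - (x^2 + y^2)) - T - (14/100 + n)^2))) :=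
    mul_nonneg ha2'.le h6
  have h11 : 0 ≤ 192/100 * a * (a^2 * (T + (14/100 + n)^2) - 2 * r * (14/100 + n)) :=
    mul_nonneg (by positivity) (by linarith)
  refine le_of_mul_le_mul_left ?_ hg
  rw [mul_zero]
  linear_combination h10 + h11

end WOG
end Pool.Agent.FdF
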