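import Pool.Agent.FdF.Part
import Pool.Agent.FdF.JBound
import Pool.Agent.FdF.LamLe
import Pool.Agent.FdF.Bnum
import Pool.Agent.FdF.Corner
import Pool.Agent.FdF.Numeric
import Pool.Agent.FdF.ExistsCrit
import Pool.Agent.FdF.FlagCert

set_option autoImplicit false

namespace Pool.Agent.FdF

open Finset Classical

namespace WOG

variable {V : Type} [Fintype V] {G : WOG V}

lemma b_bound (p : V → Fin 3) (b0 : ℝ) (hb : ∀ x, G.b p x ≤ b0) :
    ∑ x, G.w x * (G.b p x)^2 ≤ b0 * G.eta p := by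
  unfold eta
  rw [Finset.mul_sum]
  apply Finset.sum_le_sum
  intro x _
  have h1 := b_nonneg (G := G) p x
  have h2 := hb x
  have h3 := G.wnn x
  have : (G.b p x)^2 ≤ b0 * G.b p x := by nlinarith
  nlinarith [mul_le_mul_of_nonneg_left this h3]

lemma Z_abs : (∑ x, G.w x * |G.Z x|)^2 ≤ ∑ x, G.w x * (G.Z x)^2 := by
  have h := Finset.sum_mul_sq_le_sq_mul_sq Finset.univ (fun x => Real.sqrt (G.w x)) (fun x => Real.sqrt (G.w x) * |G.Z x|)
  have h1 : ∀ x, Real.sqrt (G.w x) * (Real.sqrt (G.w x) * |G.Z x|) = G.w x * |G.Z x| := by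
    intro x; rw [← mul_assoc, Real.mul_self_sqrt (G.wnn x)]
  have h2 : ∀ x, (Real.sqrt (G.w x))^2 = G.w x := fun x => Real.sq_sqrt (G.wnn x)
  have h3 : ∀ x, (Real.sqrt (G.w x) * |G.Z x|)^2 = G.w x * (G.Z x)^2 := by
    intro x; rw [mul_pow, h2, sq_abs]
  simp only [h1, h2, h3, G.wsum, one_mul] at h
  exact h

lemma cube_aux (a b t : ℝ) (ha : 0 ≤ a) (hb : 0 ≤ b) (h : a + b ≤ t) :
    -(3/4) * t^3 ≤ (-(a+b))^3 + a^3 + b^3 := by
  have h1 : (a+b)^3 ≤ t^3 := pow_le_pow_left₀ (by linarith) h 3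
  have h2 : 0 ≤ (a+b)*(a-b)^2 := mul_nonneg (by linarith) (sq_nonneg _)
  nlinarith

lemma cube_ge (e0 e1 e2 t : ℝ) (h : e0 + e1 + e2 = 0) (h0 : |e0| ≤ t) (h1 : |e1| ≤ t) (h2 : |e2| ≤ t) :
    -(3/4) * t^3 ≤ e0^3 + e1^3 + e2^3 := by
  rw [abs_le] at h0 h1 h2
  have ht : 0 ≤ t := by linarith
  have ht3 : 0 ≤ t^3 := by positivity
  have hid : e0^3 + e1^3 + e2^3 = 3 * (e0 * e1 * e2) := by
    have : e2 = -(e0+e1) := by linarith
    rw [this]; ring
  rcases le_total 0 e0 with s0 | s0 <;> rcases le_total 0 e1 with s1 | s1 <;> rcases le_total 0 e2 with s2 | s2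
  · have := mul_nonneg (mul_nonneg s0 s1) s2
    linarith
  · have := cube_aux e0 e1 t s0 s1 (by linarith)
    have e : e2 = -(e0+e1) := by linarith
    rw [e]; linarith
  · have := cube_aux e0 e2 t s0 s2 (by linarith)
    have e : e1 = -(e0+e2) := by linarith
    rw [e]; linarith
  · have := mul_nonneg (mul_nonneg_of_nonpos_of_nonpos s1 s2) s0
    nlinarith
  · have := cube_aux e1 e2 t s1 s2 (by linarith)
    have e : e0 = -(e1+e2) := by linarith
    rw [e]; linarith
  · have := mul_nonneg (mul_nonneg_of_nonpos_of_nonpos s0 s2) s1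
    nlinarith
  · have := mul_nonneg (mul_nonneg_of_nonpos_of_nonpos s0 s1) s2
    nlinarith
  · have e0' : e0 = 0 := by linarith
    have := hid
    rw [e0'] at this
    simp at this
    rw [e0']
    nlinarith

lemma WA_le (p : V → Fin 3) (j k : Fin 3) (hjk : j ≠ k) :
    G.WA (Finset.univ.filter (fun x => p x = j)) + G.WA (Finset.univ.filter (fun x => p x = k)) ≤ G.W p := by
  unfold WA W
  simp only [Finset.sum_filter]
  rw [← Finset.sum_add_distrib]
  refine Finset.sum_le_sum (fun x _ => ?_)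
  have hnn : ∀ y, 0 ≤ G.w x * G.w y * (1 - G.S x y) := fun y =>
    mul_nonneg (mul_nonneg (G.wnn x) (G.wnn y)) (by linarith [S_le_one (G := G) x y])
  by_cases h1 : p x = j
  · have h2 : ¬ p x = k := fun h => hjk (h1.symm.trans h)
    rw [if_pos h1, if_neg h2, add_zero]
    refine Finset.sum_le_sum (fun y _ => ?_)
    by_cases h3 : p y = j
    · rw [if_pos h3, if_pos (h1.trans h3.symm)]
    · rw [if_neg h3, if_neg (fun h => h3 (h.symm.trans h1))]
  · rw [if_neg h1, zero_add]
    by_cases h2 : p x = k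
    · rw [if_pos h2]
      refine Finset.sum_le_sum (fun y _ => ?_)
      by_cases h3 : p y = k
      · rw [if_pos h3, if_pos (h2.trans h3.symm)]
      · rw [if_neg h3, if_neg (fun h => h3 (h.symm.trans h2))]
    · rw [if_neg h2]
      refine Finset.sum_nonneg (fun y _ => ?_)
      split_ifs
      · exact hnn y
      · exact le_refl _

lemma MAB_le (p : V → Fin 3) (j k : Fin 3) (hjk : j ≠ k) :
    2 * G.MAB (Finset.univ.filter (fun x => p x = j)) (Finset.univ.filter (fun x => p x = k)) ≤ G.M p := by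
  have h0 : G.MAB (Finset.univ.filter (fun x => p x = j)) (Finset.univ.filter (fun x => p x = k))
      = ∑ x, ∑ y, if p x = j ∧ p y = k then G.w x * G.w y * G.S x y else 0 := by
    unfold MAB
    simp only [Finset.sum_filter]
    refine Finset.sum_congr rfl (fun x _ => ?_)
    by_cases h1 : p x = j
    · simp [h1]
    · simp [h1]
  have h0' : G.MAB (Finset.univ.filter (fun x => p x = j)) (Finset.univ.filter (fun x => p x = k))
      = ∑ x, ∑ y, if p y = j ∧ p x = k then G.w x * G.w y * G.S x y else 0 := by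
    rw [h0, Finset.sum_comm]
    refine Finset.sum_congr rfl (fun x _ => Finset.sum_congr rfl (fun y _ => ?_))
    rw [S_symm x y, mul_comm (G.w x)]
  rw [two_mul]
  nth_rw 1 [h0]
  rw [h0', ← Finset.sum_add_distrib]
  unfold M
  refine Finset.sum_le_sum (fun x _ => ?_)
  rw [← Finset.sum_add_distrib]
  refine Finset.sum_le_sum (fun y _ => ?_)
  have hnn : 0 ≤ G.w x * G.w y * G.S x y :=
    mul_nonneg (mul_nonneg (G.wnn x) (G.wnn y)) (S_nonneg x y)
  by_cases h : p x = p y
  · have h1 : ¬ (p x = j ∧ p y = k) := fun hh => hjk (hh.1.symm.trans (h.trans hh.2))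
    have h2 : ¬ (p y = j ∧ p x = k) := fun hh => hjk (hh.1.symm.trans (h.symm.trans hh.2))
    rw [if_neg h1, if_neg h2, if_pos h]
    simp
  · rw [if_neg h]
    by_cases h1 : p x = j ∧ p y = k
    · have h2 : ¬ (p y = j ∧ p x = k) := fun hh => hjk (h1.1.symm.trans hh.2)
      rw [if_pos h1, if_neg h2, add_zero]
    · rw [if_neg h1, zero_add]
      split_ifs
      · exact le_refl _
      · exact hnn

lemma d_le (p : V → Fin 3) (i j k : Fin 3) (hl : ∀ l : Fin 3, l = i ∨ l = j ∨ l = k) (x : V) :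
    G.d x ≤ G.dIn (Finset.univ.filter (fun x => p x = j) ∪ Finset.univ.filter (fun x => p x = k)) x + G.P p i := by
  unfold d dIn P
  have h1 : (Finset.univ.filter (fun x => p x = j) ∪ Finset.univ.filter (fun x => p x = k))
      = Finset.univ.filter (fun x => p x = j ∨ p x = k) := by
    ext y; simp
  rw [h1, Finset.sum_filter, ← Finset.sum_add_distrib]
  refine Finset.sum_le_sum (fun y _ => ?_)
  have hw := G.wnn y
  have ha := a_nonneg (G := G) x y
  have ha1 := a_le_one (G := G) x y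
  have hwa : 0 ≤ G.w y * G.a x y := mul_nonneg hw ha
  have hwa1 : G.w y * G.a x y ≤ G.w y := by nlinarith
  rcases hl (p y) with h | h | h
  · rw [if_pos h]
    split_ifs <;> linarith
  · rw [if_pos (Or.inl h)]
    split_ifs <;> linarith
  · rw [if_pos (Or.inr h)]
    split_ifs <;> linarith

/-- final contradiction once the two big parts are `j`, `k` -/
lemma final_case (hpos : ∀ x, 0 < G.w x) (p : V → Fin 3) (i j k : Fin 3) (hjk : j ≠ k)
    (hl : ∀ l : Fin 3, l = i ∨ l = j ∨ l = k)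
    (ei ej ek : ℝ) (hPi : G.P p i = 1/3 + ei) (hPj : G.P p j = 1/3 + ej) (hPk : G.P p k = 1/3 + ek)
    (hsum : ei + ej + ek = 0) (hej : 0 ≤ ej) (hek : 0 ≤ ek) (hei : ei < 0) (hei2 : -(94/1000) ≤ ei)
    (hT : (ei^3 + ej^3 + ek^3) + 844/1000 * G.W p + 562/1000 * G.M p + 3 * ∑ x, G.w x * (G.Z x)^2 < 0) :
    False := by
  set a : ℝ := -ei with ha
  have ha0 : 0 < a := by linarith
  have ha1 : a ≤ 94/1000 := by linarith
  have hcube : -(3/4) * a^3 ≤ ei^3 + ej^3 + ek^3 := by
    have := cube_aux ej ek a hej hek (by linarith)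
    have e : ei = -(ej+ek) := by linarith
    have e2 : ei^3 = (-(ej+ek))^3 := by rw [e]
    linarith
  set A := Finset.univ.filter (fun x => p x = j) with hA
  set B := Finset.univ.filter (fun x => p x = k) with hB
  have hAB : Disjoint A B := by
    rw [Finset.disjoint_left]
    intro x hx hx'
    simp only [hA, hB, Finset.mem_filter, Finset.mem_univ, true_and] at hx hx'
    exact hjk (hx.symm.trans hx')
  have hsA : ∑ x ∈ A, G.w x = G.P p j := by
    unfold P; rw [hA, Finset.sum_filter]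
  have hsB : ∑ x ∈ B, G.w x = G.P p k := by
    unfold P; rw [hB, Finset.sum_filter]
  obtain ⟨m, X, Y, hm0, hm1, hX, hY, hXY, hPhi⟩ := corner G hpos A B hAB (84/100*a) (714/1000*a)
    (by positivity) (by linarith) (by rw [hsA, hPj]; linarith) (by rw [hsB, hPk]; linarith)
  have hW := WA_le (G := G) p j k hjk
  have hM := MAB_le (G := G) p j k hjk
  have hnu : 0 ≤ G.MAB A B := by
    unfold MAB
    exact Finset.sum_nonneg (fun x _ => Finset.sum_nonneg (fun y _ =>
      mul_nonneg (mul_nonneg (G.wnn x) (G.wnn y)) (S_nonneg x y)))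
  have hnum := numeric a X Y (G.MAB A B) m ha0 ha1 hX hY hnu hm0 hm1
  have hZ : 64/100 * a * G.Phi A B (84/100*a) ≤ ∑ x, G.w x * (G.Z x)^2 := by
    unfold Phi
    rw [Finset.mul_sum]
    have hsub : ∑ x ∈ A ∪ B, G.w x * (G.Z x)^2 ≤ ∑ x, G.w x * (G.Z x)^2 := by
      refine Finset.sum_le_sum_of_subset_of_nonneg (Finset.subset_univ _) (fun x _ _ => ?_)
      exact mul_nonneg (G.wnn x) (sq_nonneg _)
    refine le_trans (Finset.sum_le_sum (fun x _ => ?_)) hsub
    have hd := d_le (G := G) p i j k hl x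
    have hwx := G.wnn x
    have hZx : a - G.dIn (A ∪ B) x ≤ G.Z x := by
      unfold Z
      rw [hPi] at hd
      linarith
    set c := G.dIn (A ∪ B) x with hc
    have key : 64/100 * a * max (84/100*a - c) 0 ≤ (G.Z x)^2 := by
      rcases le_total (84/100*a - c) 0 with h | h
      · rw [max_eq_right h, mul_zero]
        exact sq_nonneg _
      · rw [max_eq_left h]
        have h1 : 0 ≤ a - c := by linarith
        have h2 : (a - c)^2 ≤ (G.Z x)^2 := pow_le_pow_left₀ h1 hZx 2
        nlinarith [sq_nonneg (c - 68/100*a)]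
    calc 64/100 * a * (G.w x * max (84/100*a - c) 0)
        = G.w x * (64/100 * a * max (84/100*a - c) 0) := by ring
      _ ≤ G.w x * (G.Z x)^2 := mul_le_mul_of_nonneg_left key hwx
  have hmul := mul_le_mul_of_nonneg_left hPhi (show (0:ℝ) ≤ 192/100 * a by positivity)
  linarith

theorem no_crit (G : WOG V) (hc : G.Crit) : False := by
  obtain ⟨p, h1, h2, hopt⟩ := exists_partition G hc.pos hc.lt (flagC2 G hc.lt.le) (flagC3 G hc.lt.le)
  have hsumP := sum_P (G := G) p
  have heta := eta_eq (G := G) p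
  have hW := W_nonneg (G := G) p
  have hM := M_nonneg (G := G) p
  have hPsq := sum_P_sq (G := G) p
  have he2 : ∑ k, (G.P p k - 1/3)^2 ≤ 132/10000 := by
    have : ∑ k, (G.P p k - 1/3)^2 = ∑ k, (G.P p k)^2 - 2/3 * ∑ k, G.P p k + 1/3 := by
      simp only [Fin.sum_univ_three]; ring
    rw [this, hPsq, hsumP]; linarith
  have he : ∑ k, (G.P p k - 1/3) = 0 := by
    simp only [Fin.sum_univ_three] at hsumP ⊢; linarith
  have ht : ∀ k, |G.P p k - 1/3| ≤ 94/1000 := by
    intro k
    have he2' := he2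
    have he' := he
    simp only [Fin.sum_univ_three] at he' he2'
    have key : ∀ u v w : ℝ, u + v + w = 0 → u^2 + v^2 + w^2 ≤ 132/10000 → |u| ≤ 94/1000 := by
      intro u v w h3 h4
      have h5 : w = -(u+v) := by linarith
      rw [h5] at h4
      rw [abs_le]
      constructor <;> nlinarith [sq_nonneg (u + 2*v)]
    fin_cases k
    · exact key (G.P p 0 - 1/3) (G.P p 1 - 1/3) (G.P p 2 - 1/3) he' he2'
    · exact key (G.P p 1 - 1/3) (G.P p 0 - 1/3) (G.P p 2 - 1/3) (by linarith) (by linarith)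
    · exact key (G.P p 2 - 1/3) (G.P p 0 - 1/3) (G.P p 1 - 1/3) (by linarith) (by linarith)
  have ht' : ∀ k, G.P p k - 1/3 ≤ 94/1000 := fun k => (abs_le.mp (ht k)).2
  have hTl := T_lower (G := G) p (94/1000) ht'
  have hZs := sum_Z (G := G)
  have hZabs := Z_abs (G := G)
  have hlt := hc.lt
  have hcube : -(3/4) * (94/1000)^3 ≤ ∑ j, (G.P p j - 1/3)^3 := by
    rw [Fin.sum_univ_three]
    rw [Fin.sum_univ_three] at he
    exact cube_ge _ _ _ _ he (ht 0) (ht 1) (ht 2)
  have habs0 : 0 ≤ ∑ x, G.w x * |G.Z x| := Finset.sum_nonneg (fun x _ => mul_nonneg (G.wnn x) (abs_nonneg _))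
  -- crude bound on b
  have hb0 : ∀ x, G.b p x ≤ 2/3 := by
    intro x
    rw [b_eq]
    have h0 := hopt x 0
    have h1 := hopt x 1
    have h2 := hopt x 2
    have h00 := n_le_P (G := G) p x 0
    have h01 := n_le_P (G := G) p x 1
    have h02 := n_le_P (G := G) p x 2
    unfold bj at h0 h1 h2 ⊢
    simp only [Fin.sum_univ_three] at h0 h1 h2 hsumP ⊢
    linarith
  have hE1 : ∑ x, G.w x * (G.b p x)^2 ≤ 2/3 * G.eta p := b_bound p _ hb0
  have hZ2 : ∑ x, G.w x * (G.Z x)^2 ≤ 1191/1000000 := by linarith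
  have habs1 : ∑ x, G.w x * |G.Z x| ≤ 3452/100000 := by nlinarith
  have hb1 : ∀ x, G.b p x ≤ 12/100 := by
    intro x
    rw [b_eq]
    have hL := Lam_le hc p x
    have := Bnum1 (fun k => G.P p k - 1/3) (fun k => G.n p x k) he he2 (fun k => n_nonneg p x k)
      (fun k => by have := n_le_P (G := G) p x k; linarith) (p x)
      (fun j => by have := hopt x j; unfold bj at this; linarith)
      (by refine le_trans hL ?_; rw [hZs]; linarith)
    unfold bj
    linarith
  have hE2 : ∑ x, G.w x * (G.b p x)^2 ≤ 12/100 * G.eta p := b_bound p _ hb1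
  have hZ2' : ∑ x, G.w x * (G.Z x)^2 ≤ 2077/10000000 := by linarith
  have habs2 : ∑ x, G.w x * |G.Z x| ≤ 1442/100000 := by nlinarith
  have hb2 : ∀ x, G.b p x ≤ 52/1000 := by
    intro x
    rw [b_eq]
    have hL := Lam_le hc p x
    have := Bnum2 (fun k => G.P p k - 1/3) (fun k => G.n p x k) he he2 (fun k => n_nonneg p x k)
      (fun k => by have := n_le_P (G := G) p x k; linarith) (p x)
      (fun j => by have := hopt x j; unfold bj at this; linarith)
      (by refine le_trans hL ?_; rw [hZs]; linarith)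
    unfold bj
    linarith
  have hE3 : ∑ x, G.w x * (G.b p x)^2 ≤ 52/1000 * G.eta p := b_bound p _ hb2
  have hZnn : 0 ≤ ∑ x, G.w x * (G.Z x)^2 :=
    Finset.sum_nonneg (fun x _ => mul_nonneg (G.wnn x) (sq_nonneg _))
  rw [Fin.sum_univ_three] at he hTl hcube
  set e0 := G.P p 0 - 1/3 with he0
  set e1 := G.P p 1 - 1/3 with he1
  set e2 := G.P p 2 - 1/3 with he2'
  have hfin : (e0^3 + e1^3 + e2^3) + 844/1000 * G.W p + 562/1000 * G.M p + 3 * ∑ x, G.w x * (G.Z x)^2 < 0 := by
    linarith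
  have hid : e0^3 + e1^3 + e2^3 = 3 * (e0 * e1 * e2) := by
    have : e2 = -(e0+e1) := by linarith
    rw [this]; ring
  have hneg : e0 * e1 * e2 < 0 := by nlinarith
  have t0 := abs_le.mp (ht 0)
  have t1 := abs_le.mp (ht 1)
  have t2 := abs_le.mp (ht 2)
  rw [← he0] at t0
  rw [← he1] at t1
  rw [← he2'] at t2
  rcases le_or_gt 0 e0 with s0 | s0 <;> rcases le_or_gt 0 e1 with s1 | s1 <;> rcases le_or_gt 0 e2 with s2 | s2
  · have := mul_nonneg (mul_nonneg s0 s1) s2
    linarith
  · exact final_case hc.pos p 2 0 1 (by decide) (by decide) e2 e0 e1 (by linarith) (by linarith) (by linarith)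
      (by linarith) s0 s1 s2 t2.1 (by linarith)
  · exact final_case hc.pos p 1 0 2 (by decide) (by decide) e1 e0 e2 (by linarith) (by linarith) (by linarith)
      (by linarith) s0 s2 s1 t1.1 (by linarith)
  · have := mul_nonneg s0 (mul_nonneg_of_nonpos_of_nonpos s1.le s2.le)
    nlinarith
  · exact final_case hc.pos p 0 1 2 (by decide) (by decide) e0 e1 e2 (by linarith) (by linarith) (by linarith)
      (by linarith) s1 s2 s0 t0.1 (by linarith)
  · have := mul_nonneg s1 (mul_nonneg_of_nonpos_of_nonpos s0.le s2.le)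
    nlinarith
  · have := mul_nonneg s2 (mul_nonneg_of_nonpos_of_nonpos s0.le s1.le)
    nlinarith
  · linarith

theorem T_ge (G : WOG V) : 4/9 ≤ G.T := by
  by_contra h
  rw [not_le] at h
  obtain ⟨V', _, G', hG'⟩ := exists_crit G h
  exact no_crit G' hG'

end WOG
end Pool.Agent.FdF
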