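import Pool.Agent.FdF.Defs

set_option autoImplicit false

namespace Pool.Agent.FdF

open Finset Classical

namespace WOG

variable {V : Type} [Fintype V]

noncomputable def mass (G : WOG V) (A : Finset V) (α : V → ℝ) : ℝ := ∑ x ∈ A, G.w x * α x
noncomputable def U (G : WOG V) (κ : ℝ) (A B : Finset V) (α β : V → ℝ) : ℝ :=
  ∑ x ∈ A, G.w x * α x * min (∑ y ∈ B, G.w y * (1 - β y) * G.a x y) κ
def Thr (G : WOG V) (A B : Finset V) (α : V → ℝ) : Prop :=
  ∀ x ∈ A, ∀ x' ∈ A, 0 < α x → α x' < 1 → G.dIn B x ≤ G.dIn B x'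

end WOG
end Pool.Agent.FdF
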