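import Pool.Agent.FdF.CornerDefs

/-!
Task Q1b: the corner lemma from the threshold functions, the quadruple inequality and the lower
bound for `Phi` (all three as hypotheses).
-/

set_option autoImplicit false

namespace Pool.Agent.FdF

open Finset Classical

namespace WOG

variable {V : Type} [Fintype V]

/-- fractional bottom sets for the key `c` on `A` -/
def ThrFam (A : Finset V) (w c : V → ℝ) (α : ℝ → V → ℝ) : Prop :=
  (∀ t x, 0 ≤ α t x ∧ α t x ≤ 1) ∧
      (∀ t, 0 ≤ t → t ≤ ∑ x ∈ A, w x → ∑ x ∈ A, w x * α t x = t) ∧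
      (∀ t, ∀ x ∈ A, ∀ x' ∈ A, 0 < α t x → α t x' < 1 → c x ≤ c x') ∧
      ∀ x, Continuous (fun t => α t x)

/-- two closed sets given by continuous functions meet on an interval -/
private theorem exists_common {f g : ℝ → ℝ} (hf : Continuous f) (hg : Continuous g) {T : ℝ}
    (hT : 0 ≤ T) (h0 : f 0 ≤ 0) (h1 : g T ≤ 0)
    (hfg : ∀ t, 0 ≤ t → t ≤ T → ¬ (0 < f t ∧ 0 < g t)) :
    ∃ t, 0 ≤ t ∧ t ≤ T ∧ f t ≤ 0 ∧ g t ≤ 0 := by
  have h := (isPreconnected_closed_iff.1 (isPreconnected_Icc : IsPreconnected (Set.Icc 0 T)))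
    {t | f t ≤ 0} {t | g t ≤ 0} (isClosed_le hf continuous_const)
    (isClosed_le hg continuous_const) (by
      intro t ht
      by_contra hh
      simp only [Set.mem_union, Set.mem_ofPred_eq, not_or, not_le] at hh
      exact hfg t ht.1 ht.2 hh)
    ⟨0, ⟨le_rfl, hT⟩, h0⟩ ⟨T, ⟨hT, le_rfl⟩, h1⟩
  obtain ⟨t, ht, ht1, ht2⟩ := h
  exact ⟨t, ht.1, ht.2, ht1, ht2⟩

private theorem U_eq_zero {G : WOG V} {κ : ℝ} {A B : Finset V} {α β : V → ℝ}
    (hα : ∀ x, 0 ≤ α x) (h : G.mass A α = 0) : G.U κ A B α β = 0 := by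
  unfold mass at h
  rw [Finset.sum_eq_zero_iff_of_nonneg (fun x _ => mul_nonneg (G.wnn x) (hα x))] at h
  unfold U
  refine Finset.sum_eq_zero fun x hx => ?_
  rw [h x hx, zero_mul]

private theorem WA_nonneg (G : WOG V) (A : Finset V) : 0 ≤ G.WA A := by
  unfold WA
  refine Finset.sum_nonneg fun x _ => Finset.sum_nonneg fun y _ => ?_
  have := S_le_one (G := G) x y
  exact mul_nonneg (mul_nonneg (G.wnn x) (G.wnn y)) (by linarith)

private theorem MAB_nonneg (G : WOG V) (A B : Finset V) : 0 ≤ G.MAB A B := by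
  unfold MAB
  refine Finset.sum_nonneg fun x _ => Finset.sum_nonneg fun y _ => ?_
  exact mul_nonneg (mul_nonneg (G.wnn x) (G.wnn y)) (S_nonneg x y)

private theorem continuous_U (G : WOG V) (κ : ℝ) (A B : Finset V) {α β : ℝ → V → ℝ}
    (hα : ∀ x, Continuous fun t => α t x) (hβ : ∀ x, Continuous fun t => β t x) :
    Continuous fun t => G.U κ A B (α t) (β t) := by
  unfold U
  refine continuous_finsetSum _ fun x _ => ?_
  refine (continuous_const.mul (hα x)).mul ?_
  refine Continuous.min ?_ continuous_const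
  refine continuous_finsetSum _ fun y _ => ?_
  exact (continuous_const.mul (continuous_const.sub (hβ y))).mul continuous_const

theorem corner_of (G : WOG V) (A B : Finset V) (κ s : ℝ) (hs : 0 < s)
    (hsκ : s ≤ κ) (hA : s ≤ ∑ x ∈ A, G.w x) (hB : s ≤ ∑ x ∈ B, G.w x)
    (hthrA : ∃ α, ThrFam A G.w (G.dIn B) α) (hthrB : ∃ β, ThrFam B G.w (G.dIn A) β)
    (quad : ∀ α β : V → ℝ, (∀ x, 0 ≤ α x ∧ α x ≤ 1) → (∀ x, 0 ≤ β x ∧ β x ≤ 1) →
      G.Thr A B α → G.Thr B A β →
      G.U κ A B α β * G.U κ B A β α ≤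
      G.U κ A B α β * (G.mass B β * Real.sqrt (G.WA A / 2) + G.MAB A B)
      + G.U κ B A β α * (G.mass A α * Real.sqrt (G.WA B / 2) + G.MAB A B)
      + κ * (G.mass A α * G.WA B + G.mass B β * G.WA A) / 2
      + G.mass A α * G.mass B β * G.MAB A B)
    (Phi_lower : ∀ α β : V → ℝ, (∀ x, 0 ≤ α x ∧ α x ≤ 1) → (∀ x, 0 ≤ β x ∧ β x ≤ 1) →
      κ * (G.mass A α + G.mass B β) - G.mass A α * G.mass B β - G.U κ A B α β - G.U κ B A β α
      - (G.WA A + G.WA B) / 2 ≤ G.Phi A B κ) :
    ∃ m X Y : ℝ, 0 ≤ m ∧ m ≤ s ∧ 0 ≤ X ∧ 0 ≤ Y ∧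
      2 * (X^2 + Y^2) = G.WA A + G.WA B ∧
      κ * s + (κ - s) * m - ((s * X + G.MAB A B) + (m * Y + G.MAB A B)
        + 2 * Real.sqrt ((s * X + G.MAB A B) * (m * Y + G.MAB A B) + κ * (m * Y^2 + s * X^2)
          + s * m * G.MAB A B)) - (X^2 + Y^2) ≤ G.Phi A B κ := by
  obtain ⟨α, hα01, hαm, hαt, hαc⟩ := hthrA
  obtain ⟨β, hβ01, hβm, hβt, hβc⟩ := hthrB
  set ν := G.MAB A B with hν
  have hν0 : 0 ≤ ν := MAB_nonneg G A B
  have hWA := WA_nonneg G A
  have hWB := WA_nonneg G B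
  set dA := Real.sqrt (G.WA A / 2) with hdA
  set dB := Real.sqrt (G.WA B / 2) with hdB
  have hdA0 : 0 ≤ dA := Real.sqrt_nonneg _
  have hdB0 : 0 ≤ dB := Real.sqrt_nonneg _
  have hdA2 : dA ^ 2 = G.WA A / 2 := Real.sq_sqrt (by linarith)
  have hdB2 : dB ^ 2 = G.WA B / 2 := Real.sq_sqrt (by linarith)
  have hκ : 0 < κ := lt_of_lt_of_le hs hsκ
  -- the path
  set p : ℝ → ℝ := fun t => min t s with hp
  set q : ℝ → ℝ := fun t => min (2 * s - t) s with hq
  have hpc : Continuous p := continuous_id.min continuous_const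
  have hqc : Continuous q := (continuous_const.sub continuous_id).min continuous_const
  set u : ℝ → ℝ := fun t => G.U κ A B (α (p t)) (β (q t)) with hu
  set v : ℝ → ℝ := fun t => G.U κ B A (β (q t)) (α (p t)) with hv
  have huc : Continuous u := continuous_U G κ A B (fun x => (hαc x).comp hpc)
    (fun x => (hβc x).comp hqc)
  have hvc : Continuous v := continuous_U G κ B A (fun x => (hβc x).comp hqc)
    (fun x => (hαc x).comp hpc)
  set D : ℝ → ℝ := fun t => (q t * dA + ν) * (p t * dB + ν)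
    + (κ * (p t * G.WA B + q t * G.WA A) / 2 + p t * q t * ν) with hD
  have hDc : Continuous D := by
    rw [hD]
    fun_prop
  have hp01 : ∀ t, 0 ≤ t → t ≤ 2 * s → 0 ≤ p t ∧ p t ≤ s := by
    intro t h0 _
    exact ⟨le_min h0 hs.le, min_le_right _ _⟩
  have hq01 : ∀ t, 0 ≤ t → t ≤ 2 * s → 0 ≤ q t ∧ q t ≤ s := by
    intro t _ h1
    exact ⟨le_min (by linarith) hs.le, min_le_right _ _⟩
  have hmα : ∀ t, 0 ≤ t → t ≤ 2 * s → G.mass A (α (p t)) = p t := by
    intro t h0 h1
    exact hαm (p t) (hp01 t h0 h1).1 ((hp01 t h0 h1).2.trans hA)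
  have hmβ : ∀ t, 0 ≤ t → t ≤ 2 * s → G.mass B (β (q t)) = q t := by
    intro t h0 h1
    exact hβm (q t) (hq01 t h0 h1).1 ((hq01 t h0 h1).2.trans hB)
  have hD0 : ∀ t, 0 ≤ t → t ≤ 2 * s → 0 ≤ D t := by
    intro t h0 h1
    obtain ⟨hp0, -⟩ := hp01 t h0 h1
    obtain ⟨hq0, -⟩ := hq01 t h0 h1
    simp only [hD]
    positivity
  -- the point where both are small
  obtain ⟨t, ht0, ht1, hf, hg⟩ := exists_common (T := 2 * s)
    (f := fun t => u t - (p t * dB + ν) - Real.sqrt (D t))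
    (g := fun t => v t - (q t * dA + ν) - Real.sqrt (D t))
    ((huc.sub ((hpc.mul continuous_const).add continuous_const)).sub
      (Real.continuous_sqrt.comp hDc))
    ((hvc.sub ((hqc.mul continuous_const).add continuous_const)).sub
      (Real.continuous_sqrt.comp hDc)) (by linarith)
    (by
      have h1 : u 0 = 0 := by
        refine U_eq_zero (fun x => (hα01 _ x).1) ?_
        rw [hmα 0 le_rfl (by linarith)]
        simp only [hp]
        exact min_eq_left hs.le
      have h2 := (hp01 0 le_rfl (by linarith)).1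
      have h3 := Real.sqrt_nonneg (D 0)
      simp only [h1]
      have : 0 ≤ p 0 * dB := mul_nonneg h2 hdB0
      linarith)
    (by
      have h1 : v (2 * s) = 0 := by
        refine U_eq_zero (fun x => (hβ01 _ x).1) ?_
        rw [hmβ (2 * s) (by linarith) le_rfl]
        simp only [hq]
        rw [sub_self]
        exact min_eq_left hs.le
      have h2 := (hq01 (2 * s) (by linarith) le_rfl).1
      have h3 := Real.sqrt_nonneg (D (2 * s))
      simp only [h1]
      have : 0 ≤ q (2 * s) * dA := mul_nonneg h2 hdA0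
      linarith)
    (by
      rintro t h0 h1 ⟨h2, h3⟩
      have h4 := quad (α (p t)) (β (q t)) (fun x => hα01 _ x) (fun x => hβ01 _ x)
        (hαt (p t)) (hβt (q t))
      rw [hmα t h0 h1, hmβ t h0 h1] at h4
      have h5 : (u t - (p t * dB + ν)) * (v t - (q t * dA + ν)) ≤ D t := by
        simp only [hD, hu, hv]
        nlinarith [h4]
      have h6 := Real.sqrt_nonneg (D t)
      have h7 := Real.mul_self_sqrt (hD0 t h0 h1)
      nlinarith [mul_pos (sub_pos.2 (show Real.sqrt (D t) < u t - (p t * dB + ν) by linarith))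
        (sub_pos.2 (show Real.sqrt (D t) < v t - (q t * dA + ν) by linarith)),
        mul_nonneg h6 h2.le, mul_nonneg h6 h3.le])
  have hPhi := Phi_lower (α (p t)) (β (q t)) (fun x => hα01 _ x) (fun x => hβ01 _ x)
  rw [hmα t ht0 ht1, hmβ t ht0 ht1] at hPhi
  have hPhi' : κ * (p t + q t) - p t * q t - u t - v t - (G.WA A + G.WA B) / 2 ≤ G.Phi A B κ :=
    hPhi
  rcases le_total t s with hts | hts
  · have hpt : p t = t := min_eq_left hts
    have hqt : q t = s := min_eq_right (by linarith)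
    refine ⟨t, dA, dB, ht0, hts, hdA0, hdB0, by rw [hdA2, hdB2]; ring, ?_⟩
    have hDt : D t = (s * dA + ν) * (t * dB + ν) + κ * (t * dB ^ 2 + s * dA ^ 2) + s * t * ν := by
      simp only [hD, hpt, hqt, hdA2, hdB2]
      ring
    rw [← hDt, hdA2, hdB2]
    rw [hpt, hqt] at hPhi'
    rw [hpt] at hf
    rw [hqt] at hg
    linarith
  · have hpt : p t = s := min_eq_right hts
    have hqt : q t = 2 * s - t := min_eq_left (by linarith)
    refine ⟨2 * s - t, dB, dA, by linarith, by linarith, hdB0, hdA0,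
      by rw [hdA2, hdB2]; ring, ?_⟩
    have hDt : D t = (s * dB + ν) * ((2 * s - t) * dA + ν)
        + κ * ((2 * s - t) * dA ^ 2 + s * dB ^ 2) + s * (2 * s - t) * ν := by
      simp only [hD, hpt, hqt, hdA2, hdB2]
      ring
    rw [← hDt, hdA2, hdB2]
    rw [hpt, hqt] at hPhi'
    rw [hpt] at hf
    rw [hqt] at hg
    linarith

end WOG
end Pool.Agent.FdF
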