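import Pool.Agent.FdF.Defs

set_option autoImplicit false

namespace Pool.Agent.FdF
namespace Flag

open Finset

/-- three-way selection by a trit -/
noncomputable def sel {α : Type} (a b c : α) (p : ℕ) : α :=
  @Nat.rec (fun _ => α) a (fun n _ => @Nat.rec (fun _ => α) b (fun _ _ => c) n) p
/-- 44-bit field lookup -/
def lk (r i : ℕ) : ℕ := Nat.land (Nat.shiftRight r i) 17592186044415
def ix (p q r : ℕ) : ℕ := Nat.add (Nat.mul 396 p) (Nat.add (Nat.mul 132 q) (Nat.mul 44 r))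
/-- 22-bit field lookup -/
def lv (r i : ℕ) : ℕ := Nat.land (Nat.shiftRight r i) 4194303
def iv (p q r : ℕ) : ℕ := Nat.add (Nat.mul 198 p) (Nat.add (Nat.mul 66 q) (Nat.mul 22 r))

def TR (x y : ℕ) : Prop := (x = 0 ∧ y = 0) ∨ (x = 1 ∧ y = 2) ∨ (x = 2 ∧ y = 1)
def q3 (f : ℕ → ℕ → Bool) : Bool := and (f 0 0) (and (f 1 2) (f 2 1))
def tt (f : ℕ → Bool) : Bool := and (f 0) (and (f 1) (f 2))

lemma q3_spec {f : ℕ → ℕ → Bool} (h : q3 f = true) {x y : ℕ} (hx : TR x y) : f x y = true := by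
  unfold q3 at h
  simp only [Bool.and_eq_true] at h
  rcases hx with ⟨rfl, rfl⟩ | ⟨rfl, rfl⟩ | ⟨rfl, rfl⟩
  · exact h.1
  · exact h.2.1
  · exact h.2.2

lemma tt_spec {f : ℕ → Bool} (h : tt f = true) {x : ℕ} (hx : x < 3) : f x = true := by
  unfold tt at h
  simp only [Bool.and_eq_true] at h
  have : x = 0 ∨ x = 1 ∨ x = 2 := by omega
  rcases this with rfl | rfl | rfl
  · exact h.1
  · exact h.2.1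
  · exact h.2.2

section tables
variable (tO : ℕ → ℕ → ℕ → ℕ) (t3 : ℕ → ℕ → ℕ → ℕ → ℕ → ℕ → ℕ) (t1 : ℕ → ℕ → ℕ → ℕ)

def gN (ab ac bc ad bd cd ae be ce de : ℕ) : ℕ :=
  Nat.add (lk (tO ab ac bc) (ix ad bd cd))
    (Nat.add (lk (t3 ab ac bc ad bd cd) (ix ae be ce)) (lk (t1 ab ac bc) (ix ad ae de)))

def gq (q : Fin 5 → Fin 5 → ℕ) : ℕ :=
  gN tO t3 t1 (q 0 1) (q 0 2) (q 1 2) (q 0 3) (q 1 3) (q 2 3) (q 0 4) (q 1 4) (q 2 4) (q 3 4)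

/-- the sum of `gN` over the 120 orderings -/
def body (p01 p02 p03 p04 p10 p12 p13 p14 p20 p21 p23 p24 p30 p31 p32 p34 p40 p41 p42 p43 : ℕ) : ℕ :=
  (Nat.add (gN tO t3 t1 p01 p02 p12 p03 p13 p23 p04 p14 p24 p34) 
  (Nat.add (gN tO t3 t1 p01 p02 p12 p04 p14 p24 p03 p13 p23 p43) 
  (Nat.add (gN tO t3 t1 p01 p03 p13 p02 p12 p32 p04 p14 p34 p24) 
  (Nat.add (gN tO t3 t1 p01 p03 p13 p04 p14 p34 p02 p12 p32 p42) 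
  (Nat.add (gN tO t3 t1 p01 p04 p14 p02 p12 p42 p03 p13 p43 p23) 
  (Nat.add (gN tO t3 t1 p01 p04 p14 p03 p13 p43 p02 p12 p42 p32) 
  (Nat.add (gN tO t3 t1 p02 p01 p21 p03 p23 p13 p04 p24 p14 p34) 
  (Nat.add (gN tO t3 t1 p02 p01 p21 p04 p24 p14 p03 p23 p13 p43) 
  (Nat.add (gN tO t3 t1 p02 p03 p23 p01 p21 p31 p04 p24 p34 p14) 
  (Nat.add (gN tO t3 t1 p02 p03 p23 p04 p24 p34 p01 p21 p31 p41) 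
  (Nat.add (gN tO t3 t1 p02 p04 p24 p01 p21 p41 p03 p23 p43 p13) 
  (Nat.add (gN tO t3 t1 p02 p04 p24 p03 p23 p43 p01 p21 p41 p31) 
  (Nat.add (gN tO t3 t1 p03 p01 p31 p02 p32 p12 p04 p34 p14 p24) 
  (Nat.add (gN tO t3 t1 p03 p01 p31 p04 p34 p14 p02 p32 p12 p42) 
  (Nat.add (gN tO t3 t1 p03 p02 p32 p01 p31 p21 p04 p34 p24 p14) 
  (Nat.add (gN tO t3 t1 p03 p02 p32 p04 p34 p24 p01 p31 p21 p41) 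
  (Nat.add (gN tO t3 t1 p03 p04 p34 p01 p31 p41 p02 p32 p42 p12) 
  (Nat.add (gN tO t3 t1 p03 p04 p34 p02 p32 p42 p01 p31 p41 p21) 
  (Nat.add (gN tO t3 t1 p04 p01 p41 p02 p42 p12 p03 p43 p13 p23) 
  (Nat.add (gN tO t3 t1 p04 p01 p41 p03 p43 p13 p02 p42 p12 p32) 
  (Nat.add (gN tO t3 t1 p04 p02 p42 p01 p41 p21 p03 p43 p23 p13) 
  (Nat.add (gN tO t3 t1 p04 p02 p42 p03 p43 p23 p01 p41 p21 p31) 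
  (Nat.add (gN tO t3 t1 p04 p03 p43 p01 p41 p31 p02 p42 p32 p12) 
  (Nat.add (gN tO t3 t1 p04 p03 p43 p02 p42 p32 p01 p41 p31 p21) 
  (Nat.add (gN tO t3 t1 p10 p12 p02 p13 p03 p23 p14 p04 p24 p34) 
  (Nat.add (gN tO t3 t1 p10 p12 p02 p14 p04 p24 p13 p03 p23 p43) 
  (Nat.add (gN tO t3 t1 p10 p13 p03 p12 p02 p32 p14 p04 p34 p24) 
  (Nat.add (gN tO t3 t1 p10 p13 p03 p14 p04 p34 p12 p02 p32 p42) 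
  (Nat.add (gN tO t3 t1 p10 p14 p04 p12 p02 p42 p13 p03 p43 p23) 
  (Nat.add (gN tO t3 t1 p10 p14 p04 p13 p03 p43 p12 p02 p42 p32) 
  (Nat.add (gN tO t3 t1 p12 p10 p20 p13 p23 p03 p14 p24 p04 p34) 
  (Nat.add (gN tO t3 t1 p12 p10 p20 p14 p24 p04 p13 p23 p03 p43) 
  (Nat.add (gN tO t3 t1 p12 p13 p23 p10 p20 p30 p14 p24 p34 p04) 
  (Nat.add (gN tO t3 t1 p12 p13 p23 p14 p24 p34 p10 p20 p30 p40) 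
  (Nat.add (gN tO t3 t1 p12 p14 p24 p10 p20 p40 p13 p23 p43 p03) 
  (Nat.add (gN tO t3 t1 p12 p14 p24 p13 p23 p43 p10 p20 p40 p30) 
  (Nat.add (gN tO t3 t1 p13 p10 p30 p12 p32 p02 p14 p34 p04 p24) 
  (Nat.add (gN tO t3 t1 p13 p10 p30 p14 p34 p04 p12 p32 p02 p42) 
  (Nat.add (gN tO t3 t1 p13 p12 p32 p10 p30 p20 p14 p34 p24 p04) 
  (Nat.add (gN tO t3 t1 p13 p12 p32 p14 p34 p24 p10 p30 p20 p40) 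
  (Nat.add (gN tO t3 t1 p13 p14 p34 p10 p30 p40 p12 p32 p42 p02) 
  (Nat.add (gN tO t3 t1 p13 p14 p34 p12 p32 p42 p10 p30 p40 p20) 
  (Nat.add (gN tO t3 t1 p14 p10 p40 p12 p42 p02 p13 p43 p03 p23) 
  (Nat.add (gN tO t3 t1 p14 p10 p40 p13 p43 p03 p12 p42 p02 p32) 
  (Nat.add (gN tO t3 t1 p14 p12 p42 p10 p40 p20 p13 p43 p23 p03) 
  (Nat.add (gN tO t3 t1 p14 p12 p42 p13 p43 p23 p10 p40 p20 p30) 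
  (Nat.add (gN tO t3 t1 p14 p13 p43 p10 p40 p30 p12 p42 p32 p02) 
  (Nat.add (gN tO t3 t1 p14 p13 p43 p12 p42 p32 p10 p40 p30 p20) 
  (Nat.add (gN tO t3 t1 p20 p21 p01 p23 p03 p13 p24 p04 p14 p34) 
  (Nat.add (gN tO t3 t1 p20 p21 p01 p24 p04 p14 p23 p03 p13 p43) 
  (Nat.add (gN tO t3 t1 p20 p23 p03 p21 p01 p31 p24 p04 p34 p14) 
  (Nat.add (gN tO t3 t1 p20 p23 p03 p24 p04 p34 p21 p01 p31 p41) 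
  (Nat.add (gN tO t3 t1 p20 p24 p04 p21 p01 p41 p23 p03 p43 p13) 
  (Nat.add (gN tO t3 t1 p20 p24 p04 p23 p03 p43 p21 p01 p41 p31) 
  (Nat.add (gN tO t3 t1 p21 p20 p10 p23 p13 p03 p24 p14 p04 p34) 
  (Nat.add (gN tO t3 t1 p21 p20 p10 p24 p14 p04 p23 p13 p03 p43) 
  (Nat.add (gN tO t3 t1 p21 p23 p13 p20 p10 p30 p24 p14 p34 p04) 
  (Nat.add (gN tO t3 t1 p21 p23 p13 p24 p14 p34 p20 p10 p30 p40) 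
  (Nat.add (gN tO t3 t1 p21 p24 p14 p20 p10 p40 p23 p13 p43 p03) 
  (Nat.add (gN tO t3 t1 p21 p24 p14 p23 p13 p43 p20 p10 p40 p30) 
  (Nat.add (gN tO t3 t1 p23 p20 p30 p21 p31 p01 p24 p34 p04 p14) 
  (Nat.add (gN tO t3 t1 p23 p20 p30 p24 p34 p04 p21 p31 p01 p41) 
  (Nat.add (gN tO t3 t1 p23 p21 p31 p20 p30 p10 p24 p34 p14 p04) 
  (Nat.add (gN tO t3 t1 p23 p21 p31 p24 p34 p14 p20 p30 p10 p40) 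
  (Nat.add (gN tO t3 t1 p23 p24 p34 p20 p30 p40 p21 p31 p41 p01) 
  (Nat.add (gN tO t3 t1 p23 p24 p34 p21 p31 p41 p20 p30 p40 p10) 
  (Nat.add (gN tO t3 t1 p24 p20 p40 p21 p41 p01 p23 p43 p03 p13) 
  (Nat.add (gN tO t3 t1 p24 p20 p40 p23 p43 p03 p21 p41 p01 p31) 
  (Nat.add (gN tO t3 t1 p24 p21 p41 p20 p40 p10 p23 p43 p13 p03) 
  (Nat.add (gN tO t3 t1 p24 p21 p41 p23 p43 p13 p20 p40 p10 p30) 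
  (Nat.add (gN tO t3 t1 p24 p23 p43 p20 p40 p30 p21 p41 p31 p01) 
  (Nat.add (gN tO t3 t1 p24 p23 p43 p21 p41 p31 p20 p40 p30 p10) 
  (Nat.add (gN tO t3 t1 p30 p31 p01 p32 p02 p12 p34 p04 p14 p24) 
  (Nat.add (gN tO t3 t1 p30 p31 p01 p34 p04 p14 p32 p02 p12 p42) 
  (Nat.add (gN tO t3 t1 p30 p32 p02 p31 p01 p21 p34 p04 p24 p14) 
  (Nat.add (gN tO t3 t1 p30 p32 p02 p34 p04 p24 p31 p01 p21 p41) 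
  (Nat.add (gN tO t3 t1 p30 p34 p04 p31 p01 p41 p32 p02 p42 p12) 
  (Nat.add (gN tO t3 t1 p30 p34 p04 p32 p02 p42 p31 p01 p41 p21) 
  (Nat.add (gN tO t3 t1 p31 p30 p10 p32 p12 p02 p34 p14 p04 p24) 
  (Nat.add (gN tO t3 t1 p31 p30 p10 p34 p14 p04 p32 p12 p02 p42) 
  (Nat.add (gN tO t3 t1 p31 p32 p12 p30 p10 p20 p34 p14 p24 p04) 
  (Nat.add (gN tO t3 t1 p31 p32 p12 p34 p14 p24 p30 p10 p20 p40) 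
  (Nat.add (gN tO t3 t1 p31 p34 p14 p30 p10 p40 p32 p12 p42 p02) 
  (Nat.add (gN tO t3 t1 p31 p34 p14 p32 p12 p42 p30 p10 p40 p20) 
  (Nat.add (gN tO t3 t1 p32 p30 p20 p31 p21 p01 p34 p24 p04 p14) 
  (Nat.add (gN tO t3 t1 p32 p30 p20 p34 p24 p04 p31 p21 p01 p41) 
  (Nat.add (gN tO t3 t1 p32 p31 p21 p30 p20 p10 p34 p24 p14 p04) 
  (Nat.add (gN tO t3 t1 p32 p31 p21 p34 p24 p14 p30 p20 p10 p40) 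
  (Nat.add (gN tO t3 t1 p32 p34 p24 p30 p20 p40 p31 p21 p41 p01) 
  (Nat.add (gN tO t3 t1 p32 p34 p24 p31 p21 p41 p30 p20 p40 p10) 
  (Nat.add (gN tO t3 t1 p34 p30 p40 p31 p41 p01 p32 p42 p02 p12) 
  (Nat.add (gN tO t3 t1 p34 p30 p40 p32 p42 p02 p31 p41 p01 p21) 
  (Nat.add (gN tO t3 t1 p34 p31 p41 p30 p40 p10 p32 p42 p12 p02) 
  (Nat.add (gN tO t3 t1 p34 p31 p41 p32 p42 p12 p30 p40 p10 p20) 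
  (Nat.add (gN tO t3 t1 p34 p32 p42 p30 p40 p20 p31 p41 p21 p01) 
  (Nat.add (gN tO t3 t1 p34 p32 p42 p31 p41 p21 p30 p40 p20 p10) 
  (Nat.add (gN tO t3 t1 p40 p41 p01 p42 p02 p12 p43 p03 p13 p23) 
  (Nat.add (gN tO t3 t1 p40 p41 p01 p43 p03 p13 p42 p02 p12 p32) 
  (Nat.add (gN tO t3 t1 p40 p42 p02 p41 p01 p21 p43 p03 p23 p13) 
  (Nat.add (gN tO t3 t1 p40 p42 p02 p43 p03 p23 p41 p01 p21 p31) 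
  (Nat.add (gN tO t3 t1 p40 p43 p03 p41 p01 p31 p42 p02 p32 p12) 
  (Nat.add (gN tO t3 t1 p40 p43 p03 p42 p02 p32 p41 p01 p31 p21) 
  (Nat.add (gN tO t3 t1 p41 p40 p10 p42 p12 p02 p43 p13 p03 p23) 
  (Nat.add (gN tO t3 t1 p41 p40 p10 p43 p13 p03 p42 p12 p02 p32) 
  (Nat.add (gN tO t3 t1 p41 p42 p12 p40 p10 p20 p43 p13 p23 p03) 
  (Nat.add (gN tO t3 t1 p41 p42 p12 p43 p13 p23 p40 p10 p20 p30) 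
  (Nat.add (gN tO t3 t1 p41 p43 p13 p40 p10 p30 p42 p12 p32 p02) 
  (Nat.add (gN tO t3 t1 p41 p43 p13 p42 p12 p32 p40 p10 p30 p20) 
  (Nat.add (gN tO t3 t1 p42 p40 p20 p41 p21 p01 p43 p23 p03 p13) 
  (Nat.add (gN tO t3 t1 p42 p40 p20 p43 p23 p03 p41 p21 p01 p31) 
  (Nat.add (gN tO t3 t1 p42 p41 p21 p40 p20 p10 p43 p23 p13 p03) 
  (Nat.add (gN tO t3 t1 p42 p41 p21 p43 p23 p13 p40 p20 p10 p30) 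
  (Nat.add (gN tO t3 t1 p42 p43 p23 p40 p20 p30 p41 p21 p31 p01) 
  (Nat.add (gN tO t3 t1 p42 p43 p23 p41 p21 p31 p40 p20 p30 p10) 
  (Nat.add (gN tO t3 t1 p43 p40 p30 p41 p31 p01 p42 p32 p02 p12) 
  (Nat.add (gN tO t3 t1 p43 p40 p30 p42 p32 p02 p41 p31 p01 p21) 
  (Nat.add (gN tO t3 t1 p43 p41 p31 p40 p30 p10 p42 p32 p12 p02) 
  (Nat.add (gN tO t3 t1 p43 p41 p31 p42 p32 p12 p40 p30 p10 p20) 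
  (Nat.add (gN tO t3 t1 p43 p42 p32 p40 p30 p20 p41 p31 p21 p01) 
  (Nat.add (gN tO t3 t1 p43 p42 p32 p41 p31 p21 p40 p30 p20 p10) 0))))))))))))))))))))))))))))))))))))))))))))))))))))))))))))))))))))))))))))))))))))))))))))))))))))))))))))))))))))))))

end tables

def fn5 (a b c d e : Fin 5) : Fin 5 → Fin 5 := ![a, b, c, d, e]
lemma fn5_0 (a b c d e : Fin 5) : fn5 a b c d e 0 = a := rfl
lemma fn5_1 (a b c d e : Fin 5) : fn5 a b c d e 1 = b := rfl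
lemma fn5_2 (a b c d e : Fin 5) : fn5 a b c d e 2 = c := rfl
lemma fn5_3 (a b c d e : Fin 5) : fn5 a b c d e 3 = d := rfl
lemma fn5_4 (a b c d e : Fin 5) : fn5 a b c d e 4 = e := rfl

set_option maxRecDepth 100000 in
def L : List (Fin 5 → Fin 5) :=
 [fn5 0 1 2 3 4,
  fn5 0 1 2 4 3,
  fn5 0 1 3 2 4,
  fn5 0 1 3 4 2,
  fn5 0 1 4 2 3,
  fn5 0 1 4 3 2,
  fn5 0 2 1 3 4,
  fn5 0 2 1 4 3,
  fn5 0 2 3 1 4,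
  fn5 0 2 3 4 1,
  fn5 0 2 4 1 3,
  fn5 0 2 4 3 1,
  fn5 0 3 1 2 4,
  fn5 0 3 1 4 2,
  fn5 0 3 2 1 4,
  fn5 0 3 2 4 1,
  fn5 0 3 4 1 2,
  fn5 0 3 4 2 1,
  fn5 0 4 1 2 3,
  fn5 0 4 1 3 2,
  fn5 0 4 2 1 3,
  fn5 0 4 2 3 1,
  fn5 0 4 3 1 2,
  fn5 0 4 3 2 1,
  fn5 1 0 2 3 4,
  fn5 1 0 2 4 3,
  fn5 1 0 3 2 4,
  fn5 1 0 3 4 2,
  fn5 1 0 4 2 3,
  fn5 1 0 4 3 2,
  fn5 1 2 0 3 4,
  fn5 1 2 0 4 3,
  fn5 1 2 3 0 4,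
  fn5 1 2 3 4 0,
  fn5 1 2 4 0 3,
  fn5 1 2 4 3 0,
  fn5 1 3 0 2 4,
  fn5 1 3 0 4 2,
  fn5 1 3 2 0 4,
  fn5 1 3 2 4 0,
  fn5 1 3 4 0 2,
  fn5 1 3 4 2 0,
  fn5 1 4 0 2 3,
  fn5 1 4 0 3 2,
  fn5 1 4 2 0 3,
  fn5 1 4 2 3 0,
  fn5 1 4 3 0 2,
  fn5 1 4 3 2 0,
  fn5 2 0 1 3 4,
  fn5 2 0 1 4 3,
  fn5 2 0 3 1 4,
  fn5 2 0 3 4 1,
  fn5 2 0 4 1 3,
  fn5 2 0 4 3 1,
  fn5 2 1 0 3 4,
  fn5 2 1 0 4 3,
  fn5 2 1 3 0 4,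
  fn5 2 1 3 4 0,
  fn5 2 1 4 0 3,
  fn5 2 1 4 3 0,
  fn5 2 3 0 1 4,
  fn5 2 3 0 4 1,
  fn5 2 3 1 0 4,
  fn5 2 3 1 4 0,
  fn5 2 3 4 0 1,
  fn5 2 3 4 1 0,
  fn5 2 4 0 1 3,
  fn5 2 4 0 3 1,
  fn5 2 4 1 0 3,
  fn5 2 4 1 3 0,
  fn5 2 4 3 0 1,
  fn5 2 4 3 1 0,
  fn5 3 0 1 2 4,
  fn5 3 0 1 4 2,
  fn5 3 0 2 1 4,
  fn5 3 0 2 4 1,
  fn5 3 0 4 1 2,
  fn5 3 0 4 2 1,
  fn5 3 1 0 2 4,
  fn5 3 1 0 4 2,
  fn5 3 1 2 0 4,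
  fn5 3 1 2 4 0,
  fn5 3 1 4 0 2,
  fn5 3 1 4 2 0,
  fn5 3 2 0 1 4,
  fn5 3 2 0 4 1,
  fn5 3 2 1 0 4,
  fn5 3 2 1 4 0,
  fn5 3 2 4 0 1,
  fn5 3 2 4 1 0,
  fn5 3 4 0 1 2,
  fn5 3 4 0 2 1,
  fn5 3 4 1 0 2,
  fn5 3 4 1 2 0,
  fn5 3 4 2 0 1,
  fn5 3 4 2 1 0,
  fn5 4 0 1 2 3,
  fn5 4 0 1 3 2,
  fn5 4 0 2 1 3,
  fn5 4 0 2 3 1,
  fn5 4 0 3 1 2,
  fn5 4 0 3 2 1,
  fn5 4 1 0 2 3,
  fn5 4 1 0 3 2,
  fn5 4 1 2 0 3,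
  fn5 4 1 2 3 0,
  fn5 4 1 3 0 2,
  fn5 4 1 3 2 0,
  fn5 4 2 0 1 3,
  fn5 4 2 0 3 1,
  fn5 4 2 1 0 3,
  fn5 4 2 1 3 0,
  fn5 4 2 3 0 1,
  fn5 4 2 3 1 0,
  fn5 4 3 0 1 2,
  fn5 4 3 0 2 1,
  fn5 4 3 1 0 2,
  fn5 4 3 1 2 0,
  fn5 4 3 2 0 1,
  fn5 4 3 2 1 0]

set_option maxRecDepth 100000 in
lemma perm_list : Multiset.map (fun σ : Equiv.Perm (Fin 5) => (⇑σ : Fin 5 → Fin 5)) (Finset.univ : Finset (Equiv.Perm (Fin 5))).val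
    = (L : Multiset (Fin 5 → Fin 5)) := by
  decide +kernel

lemma perm_sum_aux (s : Finset (Equiv.Perm (Fin 5))) (l : List (Fin 5 → Fin 5))
    (hl : Multiset.map (fun σ : Equiv.Perm (Fin 5) => (⇑σ : Fin 5 → Fin 5)) s.val = (l : Multiset (Fin 5 → Fin 5)))
    (h : (Fin 5 → Fin 5) → ℕ) :
    ∑ σ ∈ s, h (σ : Fin 5 → Fin 5) = (l.map h).sum := by
  have h1 : ∑ σ ∈ s, h (σ : Fin 5 → Fin 5) = (Multiset.map h (Multiset.map (fun σ : Equiv.Perm (Fin 5) => (⇑σ : Fin 5 → Fin 5)) s.val)).sum := by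
    rw [Multiset.map_map, Finset.sum_eq_multiset_sum]
    rfl
  rw [h1, hl, Multiset.map_coe, Multiset.sum_coe]

lemma perm_sum (h : (Fin 5 → Fin 5) → ℕ) :
    ∑ σ : Equiv.Perm (Fin 5), h (σ : Fin 5 → Fin 5) = (L.map h).sum :=
  perm_sum_aux Finset.univ L perm_list h

set_option maxRecDepth 100000 in
lemma body_eq (tO : ℕ → ℕ → ℕ → ℕ) (t3 : ℕ → ℕ → ℕ → ℕ → ℕ → ℕ → ℕ) (t1 : ℕ → ℕ → ℕ → ℕ)
    (q : Fin 5 → Fin 5 → ℕ) :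
    body tO t3 t1 (q 0 1) (q 0 2) (q 0 3) (q 0 4) (q 1 0) (q 1 2) (q 1 3) (q 1 4) (q 2 0) (q 2 1) (q 2 3) (q 2 4) (q 3 0) (q 3 1) (q 3 2) (q 3 4) (q 4 0) (q 4 1) (q 4 2) (q 4 3)
      = ∑ σ : Equiv.Perm (Fin 5), gq tO t3 t1 (fun i j => q (σ i) (σ j)) := by
  rw [perm_sum (fun f => gq tO t3 t1 (fun i j => q (f i) (f j)))]
  simp only [L, List.map_cons, List.sum_cons, List.map_nil, List.sum_nil, gq, fn5_0, fn5_1, fn5_2, fn5_3, fn5_4]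
  rfl

end Flag
end Pool.Agent.FdF
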