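import Pool.Agent.FdF.FlagBody

set_option autoImplicit false

namespace Pool.Agent.FdF
namespace Flag

open Finset

/-- `5·[p = 1] + [p = 2]` -/
noncomputable def kv (p : ℕ) : ℕ := sel 0 5 1 p

def c4t (ab bc cd da ac bd : ℕ) : Bool :=
  and (Nat.beq ac 0) (and (Nat.beq bd 0)
    (or (and (Nat.beq ab 1) (and (Nat.beq bc 1) (and (Nat.beq cd 1) (Nat.beq da 1))))
        (and (Nat.beq ab 2) (and (Nat.beq bc 2) (and (Nat.beq cd 2) (Nat.beq da 2))))))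

section
variable (tO : ℕ → ℕ → ℕ → ℕ) (t3 : ℕ → ℕ → ℕ → ℕ → ℕ → ℕ → ℕ) (t1 : ℕ → ℕ → ℕ → ℕ) (C : ℕ)

noncomputable def leaf (p01 p02 p03 p04 p10 p12 p13 p14 p20 p21 p23 p24 p30 p31 p32 p34 p40 p41 p42 p43 : ℕ) : Bool :=
  (or (Nat.ble (Nat.succ (Nat.add (Nat.add (kv p20) (kv p21)) (Nat.add (kv p23) (kv p24)))) (Nat.add (Nat.add (kv p30) (kv p31)) (Nat.add (kv p32) (kv p34))))
  (or (Nat.ble (Nat.succ (Nat.add (Nat.add (kv p30) (kv p31)) (Nat.add (kv p32) (kv p34)))) (Nat.add (Nat.add (kv p40) (kv p41)) (Nat.add (kv p42) (kv p43))))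
  (or (c4t p01 p12 p23 p30 p02 p13)
  (or (c4t p01 p13 p32 p20 p03 p12)
  (or (c4t p02 p21 p13 p30 p01 p23)
  (or (c4t p01 p12 p24 p40 p02 p14)
  (or (c4t p01 p14 p42 p20 p04 p12)
  (or (c4t p02 p21 p14 p40 p01 p24)
  (or (c4t p01 p13 p34 p40 p03 p14)
  (or (c4t p01 p14 p43 p30 p04 p13)
  (or (c4t p03 p31 p14 p40 p01 p34)
  (or (c4t p02 p23 p34 p40 p03 p24)
  (or (c4t p02 p24 p43 p30 p04 p23)
  (or (c4t p03 p32 p24 p40 p02 p34)
  (or (c4t p12 p23 p34 p41 p13 p24)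
  (or (c4t p12 p24 p43 p31 p14 p23)
  (or (c4t p13 p32 p24 p41 p12 p34)
  (Nat.ble C (body tO t3 t1 p01 p02 p03 p04 p10 p12 p13 p14 p20 p21 p23 p24 p30 p31 p32 p34 p40 p41 p42 p43)))))))))))))))))))

noncomputable def chkC (p01 p10 p02 p20 p03 p30 p04 p40 p12 p21 p13 p31 p14 p41 : ℕ) : Bool :=
  or (Nat.ble (Nat.succ (Nat.add (Nat.add (kv p01) (kv p02)) (Nat.add (kv p03) (kv p04)))) (Nat.add (Nat.add (kv p10) (kv p12)) (Nat.add (kv p13) (kv p14))))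
    (q3 fun p23 p32 => q3 fun p24 p42 => or (Nat.ble (Nat.succ (Nat.add (Nat.add (kv p10) (kv p12)) (Nat.add (kv p13) (kv p14)))) (Nat.add (Nat.add (kv p20) (kv p21)) (Nat.add (kv p23) (kv p24))))
      (q3 fun p34 p43 => leaf tO t3 t1 C p01 p02 p03 p04 p10 p12 p13 p14 p20 p21 p23 p24 p30 p31 p32 p34 p40 p41 p42 p43))

noncomputable def chkB (p01 p10 p02 p20 : ℕ) : Bool :=
  q3 fun p03 p30 => q3 fun p04 p40 => q3 fun p12 p21 => q3 fun p13 p31 => q3 fun p14 p41 =>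
    chkC tO t3 t1 C p01 p10 p02 p20 p03 p30 p04 p40 p12 p21 p13 p31 p14 p41

end

noncomputable def key (q : Fin 5 → Fin 5 → ℕ) (i : Fin 5) : ℕ := ∑ j, kv (q i j)

lemma kv_diag {q : Fin 5 → Fin 5 → ℕ} (hTR : ∀ i j, TR (q i j) (q j i)) (i : Fin 5) : q i i = 0 := by
  have := hTR i i
  unfold TR at this
  omega

lemma key_0 {q : Fin 5 → Fin 5 → ℕ} (hTR : ∀ i j, TR (q i j) (q j i)) :
    key q 0 = Nat.add (Nat.add (kv (q 0 1)) (kv (q 0 2))) (Nat.add (kv (q 0 3)) (kv (q 0 4))) := by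
  unfold key
  have h := kv_diag hTR 0
  have h0 : kv 0 = 0 := rfl
  simp only [Fin.sum_univ_five, h, h0, Nat.add_eq]
  omega

lemma key_1 {q : Fin 5 → Fin 5 → ℕ} (hTR : ∀ i j, TR (q i j) (q j i)) :
    key q 1 = Nat.add (Nat.add (kv (q 1 0)) (kv (q 1 2))) (Nat.add (kv (q 1 3)) (kv (q 1 4))) := by
  unfold key
  have h := kv_diag hTR 1
  have h0 : kv 0 = 0 := rfl
  simp only [Fin.sum_univ_five, h, h0, Nat.add_eq]
  omega

lemma key_2 {q : Fin 5 → Fin 5 → ℕ} (hTR : ∀ i j, TR (q i j) (q j i)) :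
    key q 2 = Nat.add (Nat.add (kv (q 2 0)) (kv (q 2 1))) (Nat.add (kv (q 2 3)) (kv (q 2 4))) := by
  unfold key
  have h := kv_diag hTR 2
  have h0 : kv 0 = 0 := rfl
  simp only [Fin.sum_univ_five, h, h0, Nat.add_eq]
  omega

lemma key_3 {q : Fin 5 → Fin 5 → ℕ} (hTR : ∀ i j, TR (q i j) (q j i)) :
    key q 3 = Nat.add (Nat.add (kv (q 3 0)) (kv (q 3 1))) (Nat.add (kv (q 3 2)) (kv (q 3 4))) := by
  unfold key
  have h := kv_diag hTR 3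
  have h0 : kv 0 = 0 := rfl
  simp only [Fin.sum_univ_five, h, h0, Nat.add_eq]
  omega

lemma key_4 {q : Fin 5 → Fin 5 → ℕ} (hTR : ∀ i j, TR (q i j) (q j i)) :
    key q 4 = Nat.add (Nat.add (kv (q 4 0)) (kv (q 4 1))) (Nat.add (kv (q 4 2)) (kv (q 4 3))) := by
  unfold key
  have h := kv_diag hTR 4
  have h0 : kv 0 = 0 := rfl
  simp only [Fin.sum_univ_five, h, h0, Nat.add_eq]
  omega

lemma beqT (a b : ℕ) : Nat.beq a b = true ↔ a = b :=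
  ⟨Nat.eq_of_beq_eq_true, fun h => h ▸ Nat.beq_refl a⟩

lemma c4t_false {q : Fin 5 → Fin 5 → ℕ} (hTR : ∀ i j, TR (q i j) (q j i))
    (hc : ∀ a b c d, ¬ (q a b = 1 ∧ q b c = 1 ∧ q c d = 1 ∧ q d a = 1 ∧ q a c = 0 ∧ q b d = 0)) (a b c d : Fin 5) :
    c4t (q a b) (q b c) (q c d) (q d a) (q a c) (q b d) = false := by
  rw [← Bool.not_eq_true]
  intro h
  unfold c4t at h
  simp only [Bool.and_eq_true, Bool.or_eq_true, beqT] at h
  obtain ⟨h1, h2, h3 | h3⟩ := h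
  · exact hc a b c d ⟨h3.1, h3.2.1, h3.2.2.1, h3.2.2.2, h1, h2⟩
  · obtain ⟨h4, h5, h6, h7⟩ := h3
    have t1 := hTR a b
    have t2 := hTR b c
    have t3 := hTR c d
    have t4 := hTR d a
    have t5 := hTR a c
    have t6 := hTR b d
    unfold TR at t1 t2 t3 t4 t5 t6
    apply hc d c b a
    refine ⟨?_, ?_, ?_, ?_, ?_, ?_⟩ <;> omega

theorem chk_spec {tO : ℕ → ℕ → ℕ → ℕ} {t3 : ℕ → ℕ → ℕ → ℕ → ℕ → ℕ → ℕ} {t1 : ℕ → ℕ → ℕ → ℕ} {C : ℕ}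
    (h : ∀ p01 p10 p02 p20, TR p01 p10 → TR p02 p20 → chkB tO t3 t1 C p01 p10 p02 p20 = true)
    (q : Fin 5 → Fin 5 → ℕ) (hTR : ∀ i j, TR (q i j) (q j i))
    (hs : ∀ i j : Fin 5, i ≤ j → key q j ≤ key q i)
    (hc : ∀ a b c d, ¬ (q a b = 1 ∧ q b c = 1 ∧ q c d = 1 ∧ q d a = 1 ∧ q a c = 0 ∧ q b d = 0)) :
    C ≤ body tO t3 t1 (q 0 1) (q 0 2) (q 0 3) (q 0 4) (q 1 0) (q 1 2) (q 1 3) (q 1 4) (q 2 0) (q 2 1) (q 2 3) (q 2 4) (q 3 0) (q 3 1) (q 3 2) (q 3 4) (q 4 0) (q 4 1) (q 4 2) (q 4 3) := by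
  have hB := h _ _ _ _ (hTR 0 1) (hTR 0 2)
  have s01 := hs 0 1 (by decide)
  have s12 := hs 1 2 (by decide)
  have s23 := hs 2 3 (by decide)
  have s34 := hs 3 4 (by decide)
  rw [key_0 hTR, key_1 hTR] at s01
  rw [key_1 hTR, key_2 hTR] at s12
  rw [key_2 hTR, key_3 hTR] at s23
  rw [key_3 hTR, key_4 hTR] at s34
  unfold chkB at hB
  have h3 := q3_spec (q3_spec (q3_spec (q3_spec (q3_spec hB (hTR 0 3)) (hTR 0 4)) (hTR 1 2)) (hTR 1 3)) (hTR 1 4)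
  unfold chkC at h3
  rw [Bool.or_eq_true] at h3
  rcases h3 with h3 | h3
  · exact absurd (Nat.le_of_ble_eq_true h3) (by simp only [Nat.succ_eq_add_one, Nat.not_le]; exact Nat.lt_succ_of_le s01)
  have h4 := q3_spec (q3_spec h3 (hTR 2 3)) (hTR 2 4)
  rw [Bool.or_eq_true] at h4
  rcases h4 with h4 | h4
  · exact absurd (Nat.le_of_ble_eq_true h4) (by simp only [Nat.succ_eq_add_one, Nat.not_le]; exact Nat.lt_succ_of_le s12)
  have h5 := q3_spec h4 (hTR 3 4)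
  unfold leaf at h5
  rw [Bool.or_eq_true] at h5
  rcases h5 with h5 | h5
  · exact absurd (Nat.le_of_ble_eq_true h5) (by simp only [Nat.succ_eq_add_one, Nat.not_le]; exact Nat.lt_succ_of_le s23)
  rw [Bool.or_eq_true] at h5
  rcases h5 with h5 | h5
  · exact absurd (Nat.le_of_ble_eq_true h5) (by simp only [Nat.succ_eq_add_one, Nat.not_le]; exact Nat.lt_succ_of_le s34)
  simp only [c4t_false hTR hc, Bool.false_or] at h5
  exact Nat.le_of_ble_eq_true h5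

/-- the sum over all orderings of a C4-free pattern -/
theorem perm_sum_ge {tO : ℕ → ℕ → ℕ → ℕ} {t3 : ℕ → ℕ → ℕ → ℕ → ℕ → ℕ → ℕ} {t1 : ℕ → ℕ → ℕ → ℕ} {C : ℕ}
    (h : ∀ p01 p10 p02 p20, TR p01 p10 → TR p02 p20 → chkB tO t3 t1 C p01 p10 p02 p20 = true)
    (q : Fin 5 → Fin 5 → ℕ) (hTR : ∀ i j, TR (q i j) (q j i))
    (hc : ∀ a b c d, ¬ (q a b = 1 ∧ q b c = 1 ∧ q c d = 1 ∧ q d a = 1 ∧ q a c = 0 ∧ q b d = 0)) :
    C ≤ ∑ σ : Equiv.Perm (Fin 5), gq tO t3 t1 (fun i j => q (σ i) (σ j)) := by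
  let τ : Equiv.Perm (Fin 5) := Tuple.sort (fun i => OrderDual.toDual (key q i))
  have hmono : Monotone ((fun i => OrderDual.toDual (key q i)) ∘ τ) := Tuple.monotone_sort _
  have hkey : ∀ i, key (fun i j => q (τ i) (τ j)) i = key q (τ i) := by
    intro i
    unfold key
    exact Equiv.sum_comp τ (fun j => kv (q (τ i) j))
  have h1 := chk_spec h (fun i j => q (τ i) (τ j)) (fun i j => hTR _ _)
    (by
      intro i j hij
      rw [hkey, hkey]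
      exact OrderDual.toDual_le_toDual.mp (hmono hij))
    (fun a b c d => hc _ _ _ _)
  rw [body_eq tO t3 t1 (fun i j => q (τ i) (τ j))] at h1
  refine h1.trans (le_of_eq ?_)
  exact Equiv.sum_comp (Equiv.mulLeft τ) (fun σ : Equiv.Perm (Fin 5) => gq tO t3 t1 (fun i j => q (σ i) (σ j)))

end Flag
end Pool.Agent.FdF
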