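import Pool.Agent.FdF.FlagPsd

set_option autoImplicit false

namespace Pool.Agent.FdF
namespace Flag

open Finset Classical

variable {V : Type} [Fintype V] (G : WOG V)

noncomputable def pt (x y : V) : ℕ := if G.R x y then 1 else if G.R y x then 2 else 0

lemma pt_cases (x y : V) :
    (pt G x y = 0 ∧ pt G y x = 0 ∧ G.a x y = 0 ∧ G.a y x = 0 ∧ G.S x y = 1 ∧ ¬ G.R x y ∧ ¬ G.R y x) ∨
    (pt G x y = 1 ∧ pt G y x = 2 ∧ G.a x y = 1 ∧ G.a y x = 0 ∧ G.S x y = 0 ∧ G.R x y ∧ ¬ G.R y x) ∨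
    (pt G x y = 2 ∧ pt G y x = 1 ∧ G.a x y = 0 ∧ G.a y x = 1 ∧ G.S x y = 0 ∧ ¬ G.R x y ∧ G.R y x) := by
  unfold pt WOG.a WOG.S
  by_cases h : G.R x y
  · have := G.asym _ _ h
    simp [h, this]
  · by_cases h' : G.R y x
    · simp [h, h']
    · simp [h, h']

lemma pt_TR (x y : V) : TR (pt G x y) (pt G y x) := by
  unfold TR
  rcases pt_cases G x y with h | h | h <;> omega

lemma pt_lt (x y : V) : pt G x y < 3 := by
  rcases pt_cases G x y with h | h | h <;> omega

lemma pt_c4 (a b c d : V) : ¬ (pt G a b = 1 ∧ pt G b c = 1 ∧ pt G c d = 1 ∧ pt G d a = 1 ∧ pt G a c = 0 ∧ pt G b d = 0) := by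
  rintro ⟨h1, h2, h3, h4, h5, h6⟩
  apply G.c4
  have e1 := pt_cases G a b
  have e2 := pt_cases G b c
  have e3 := pt_cases G c d
  have e4 := pt_cases G d a
  have e5 := pt_cases G a c
  have e6 := pt_cases G b d
  refine ⟨a, b, c, d, ?_, ?_, ?_, ?_, ?_, ?_, ?_, ?_⟩
  · rcases e1 with e | e | e
    · omega
    · exact e.2.2.2.2.2.1
    · omega
  · rcases e2 with e | e | e
    · omega
    · exact e.2.2.2.2.2.1
    · omega
  · rcases e3 with e | e | e
    · omega
    · exact e.2.2.2.2.2.1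
    · omega
  · rcases e4 with e | e | e
    · omega
    · exact e.2.2.2.2.2.1
    · omega
  · rcases e5 with e | e | e
    · exact e.2.2.2.2.2.1
    · omega
    · omega
  · rcases e5 with e | e | e
    · exact e.2.2.2.2.2.2
    · omega
    · omega
  · rcases e6 with e | e | e
    · exact e.2.2.2.2.2.1
    · omega
    · omega
  · rcases e6 with e | e | e
    · exact e.2.2.2.2.2.2
    · omega
    · omega

/-- sums over `Fin 5 → V` as iterated sums -/
def e5 (V : Type) : (Fin 5 → V) ≃ (V × V × V × V × V) where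
  toFun v := (v 0, v 1, v 2, v 3, v 4)
  invFun t := ![t.1, t.2.1, t.2.2.1, t.2.2.2.1, t.2.2.2.2]
  left_inv v := by
    funext i
    fin_cases i <;> rfl
  right_inv t := rfl

lemma sum5 (f : V → V → V → V → V → ℝ) :
    ∑ v : Fin 5 → V, f (v 0) (v 1) (v 2) (v 3) (v 4) = ∑ a, ∑ b, ∑ c, ∑ d, ∑ e, f a b c d e := by
  have h := Fintype.sum_equiv (e5 V) (fun v => f (v 0) (v 1) (v 2) (v 3) (v 4))
    (fun t => f t.1 t.2.1 t.2.2.1 t.2.2.2.1 t.2.2.2.2) (fun v => rfl)
  rw [h]
  simp only [Fintype.sum_prod_type]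

/-- symmetrisation -/
lemma symm5 (w : V → ℝ) (hw : ∀ x, 0 ≤ w x) (h : (Fin 5 → V) → ℝ) (c : ℝ)
    (hc : ∀ v : Fin 5 → V, 120 * c ≤ ∑ σ : Equiv.Perm (Fin 5), h (fun i => v (σ i))) :
    (∑ v : Fin 5 → V, ∏ i, w (v i)) * c ≤ ∑ v : Fin 5 → V, (∏ i, w (v i)) * h v := by
  have h1 : ∀ σ : Equiv.Perm (Fin 5), ∑ v : Fin 5 → V, (∏ i, w (v i)) * h (fun i => v (σ i))
      = ∑ v : Fin 5 → V, (∏ i, w (v i)) * h v := by
    intro σ
    refine Fintype.sum_equiv (Equiv.arrowCongr σ.symm (Equiv.refl V)) _ _ (fun v => ?_)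
    have e1 : (Equiv.arrowCongr σ.symm (Equiv.refl V)) v = fun i => v (σ i) := by
      funext i; simp [Equiv.arrowCongr]
    rw [e1]
    congr 1
    exact (Equiv.prod_comp σ (fun i => w (v i))).symm
  have h2 : ∑ σ : Equiv.Perm (Fin 5), ∑ v : Fin 5 → V, (∏ i, w (v i)) * h (fun i => v (σ i))
      = 120 * ∑ v : Fin 5 → V, (∏ i, w (v i)) * h v := by
    rw [Finset.sum_congr rfl (fun σ _ => h1 σ), Finset.sum_const, Finset.card_univ, Fintype.card_perm]
    simp [Nat.factorial]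
  have h3 : ∑ v : Fin 5 → V, (∏ i, w (v i)) * (120 * c) ≤
      ∑ σ : Equiv.Perm (Fin 5), ∑ v : Fin 5 → V, (∏ i, w (v i)) * h (fun i => v (σ i)) := by
    rw [Finset.sum_comm]
    refine Finset.sum_le_sum (fun v _ => ?_)
    rw [← Finset.mul_sum]
    exact mul_le_mul_of_nonneg_left (hc v) (Finset.prod_nonneg (fun i _ => hw _))
  rw [h2, ← Finset.sum_mul] at h3
  linarith

noncomputable def E5 (f : V → V → V → V → V → ℝ) : ℝ :=
  ∑ a, ∑ b, ∑ c, ∑ d, ∑ e, (G.w a * (G.w b * (G.w c * (G.w d * G.w e)))) * f a b c d e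

lemma E5_add (f g : V → V → V → V → V → ℝ) :
    E5 G (fun a b c d e => f a b c d e + g a b c d e) = E5 G f + E5 G g := by
  unfold E5
  simp only [mul_add, Finset.sum_add_distrib]

lemma E5_const (c : ℝ) : E5 G (fun _ _ _ _ _ => c) = c := by
  unfold E5
  simp only [← Finset.sum_mul, ← Finset.mul_sum, G.wsum, mul_one, one_mul]

lemma E5_mono {f g : V → V → V → V → V → ℝ} (h : ∀ a b c d e, f a b c d e ≤ g a b c d e) : E5 G f ≤ E5 G g := by
  unfold E5
  refine Finset.sum_le_sum (fun a _ => Finset.sum_le_sum (fun b _ => Finset.sum_le_sum (fun c _ =>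
    Finset.sum_le_sum (fun d _ => Finset.sum_le_sum (fun e _ => ?_)))))
  refine mul_le_mul_of_nonneg_left (h a b c d e) ?_
  have := G.wnn a; have := G.wnn b; have := G.wnn c; have := G.wnn d; have := G.wnn e
  positivity

lemma prod5 (v : Fin 5 → V) : ∏ i, G.w (v i) = G.w (v 0) * (G.w (v 1) * (G.w (v 2) * (G.w (v 3) * G.w (v 4)))) := by
  rw [Fin.prod_univ_five]; ring

section gen
variable {tO : ℕ → ℕ → ℕ → ℕ} {t3 : ℕ → ℕ → ℕ → ℕ → ℕ → ℕ → ℕ} {t1 : ℕ → ℕ → ℕ → ℕ}
    {r3 : ℕ → ℕ → ℕ → List ℕ} {r1 : List ℕ} {c4 bI th : ℕ}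

lemma E5_g (hC : Cert tO t3 t1 r3 r1 c4 bI th) :
    (18691697672192 : ℝ) ≤ E5 G (fun a b c d e => (gN tO t3 t1 (pt G a b) (pt G a c) (pt G b c) (pt G a d) (pt G b d)
      (pt G c d) (pt G a e) (pt G b e) (pt G c e) (pt G d e) : ℝ)) := by
  have h := symm5 G.w G.wnn (fun v => (gq tO t3 t1 (fun i j => pt G (v i) (v j)) : ℝ)) 18691697672192
    (by
      intro v
      have := perm_sum_ge hC.chk (fun i j => pt G (v i) (v j)) (fun i j => pt_TR G _ _)
        (fun a b c d => pt_c4 G _ _ _ _)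
      have h2 : ((2243003720663040 : ℕ) : ℝ) ≤ ((∑ σ : Equiv.Perm (Fin 5), gq tO t3 t1 (fun i j => pt G (v (σ i)) (v (σ j))) : ℕ) : ℝ) :=
        Nat.cast_le.mpr this
      rw [Nat.cast_sum] at h2
      refine le_trans (le_of_eq ?_) h2
      norm_num)
  have h1 : ∑ v : Fin 5 → V, ∏ i, G.w (v i) = 1 := by
    have := Finset.prod_univ_sum (fun _ : Fin 5 => (Finset.univ : Finset V)) (fun _ x => G.w x)
    simp only [G.wsum, Finset.prod_const_one] at this
    rw [this]
    rw [Fintype.piFinset_univ]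
  rw [h1, one_mul] at h
  refine h.trans (le_of_eq ?_)
  have h2 := sum5 (V := V) (fun a b c d e => (G.w a * (G.w b * (G.w c * (G.w d * G.w e)))) *
    (gN tO t3 t1 (pt G a b) (pt G a c) (pt G b c) (pt G a d) (pt G b d)
      (pt G c d) (pt G a e) (pt G b e) (pt G c e) (pt G d e) : ℝ))
  unfold E5
  rw [← h2]
  refine Finset.sum_congr rfl (fun v _ => ?_)
  rw [prod5]
  rfl

lemma chkP_spec {rows : List ℕ} {t : ℕ → ℕ → ℕ → ℕ} (h : chkP rows t = true) {p q r p' q' r' : ℕ}
    (h1 : p < 3) (h2 : q < 3) (h3 : r < 3) (h4 : p' < 3) (h5 : q' < 3) (h6 : r' < 3) :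
    8796093022208 - (lk (t p q r) (ix p' q' r') : ℝ) = dotR rows (iv p q r) (iv p' q' r') :=
  okrow_spec (all6_spec h h1 h2 h3 h4 h5 h6)

lemma E5_3 (hC : Cert tO t3 t1 r3 r1 c4 bI th) :
    E5 G (fun a b c d e => (lk (t3 (pt G a b) (pt G a c) (pt G b c) (pt G a d) (pt G b d) (pt G c d))
      (ix (pt G a e) (pt G b e) (pt G c e)) : ℝ)) ≤ 8796093022208 := by
  have h0 : E5 G (fun a b c d e => (8796093022208 : ℝ) - (lk (t3 (pt G a b) (pt G a c) (pt G b c) (pt G a d) (pt G b d) (pt G c d))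
      (ix (pt G a e) (pt G b e) (pt G c e)) : ℝ)) = 8796093022208 - E5 G (fun a b c d e => (lk (t3 (pt G a b) (pt G a c) (pt G b c) (pt G a d) (pt G b d) (pt G c d))
      (ix (pt G a e) (pt G b e) (pt G c e)) : ℝ)) := by
    have := E5_add G (fun a b c d e => (8796093022208 : ℝ) - (lk (t3 (pt G a b) (pt G a c) (pt G b c) (pt G a d) (pt G b d) (pt G c d))
      (ix (pt G a e) (pt G b e) (pt G c e)) : ℝ)) (fun a b c d e => (lk (t3 (pt G a b) (pt G a c) (pt G b c) (pt G a d) (pt G b d) (pt G c d))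
      (ix (pt G a e) (pt G b e) (pt G c e)) : ℝ))
    simp only [sub_add_cancel, E5_const] at this
    linarith
  have h1 : 0 ≤ E5 G (fun a b c d e => (8796093022208 : ℝ) - (lk (t3 (pt G a b) (pt G a c) (pt G b c) (pt G a d) (pt G b d) (pt G c d))
      (ix (pt G a e) (pt G b e) (pt G c e)) : ℝ)) := by
    unfold E5
    refine Finset.sum_nonneg (fun a _ => Finset.sum_nonneg (fun b _ => Finset.sum_nonneg (fun c _ => ?_)))
    have h2 := dot_nonneg G.w (fun d => iv (pt G a d) (pt G b d) (pt G c d)) (r3 (pt G a b) (pt G a c) (pt G b c))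
    have h3 : ∑ d, ∑ e, G.w a * (G.w b * (G.w c * (G.w d * G.w e))) *
        ((8796093022208 : ℝ) - (lk (t3 (pt G a b) (pt G a c) (pt G b c) (pt G a d) (pt G b d) (pt G c d))
      (ix (pt G a e) (pt G b e) (pt G c e)) : ℝ)) = (G.w a * (G.w b * G.w c)) * ∑ d, ∑ e, G.w d * G.w e *
        dotR (r3 (pt G a b) (pt G a c) (pt G b c)) (iv (pt G a d) (pt G b d) (pt G c d)) (iv (pt G a e) (pt G b e) (pt G c e)) := by
      rw [Finset.mul_sum]
      refine Finset.sum_congr rfl (fun d _ => ?_)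
      rw [Finset.mul_sum]
      refine Finset.sum_congr rfl (fun e _ => ?_)
      rw [chkP_spec (hC.psd3 _ _ _ (pt_lt G a b) (pt_lt G a c) (pt_lt G b c)) (pt_lt G a d) (pt_lt G b d) (pt_lt G c d)
        (pt_lt G a e) (pt_lt G b e) (pt_lt G c e)]
      ring
    rw [h3]
    have := G.wnn a; have := G.wnn b; have := G.wnn c
    positivity
  linarith

lemma E5_1 (hC : Cert tO t3 t1 r3 r1 c4 bI th) :
    E5 G (fun a b c d e => (lk (t1 (pt G a b) (pt G a c) (pt G b c)) (ix (pt G a d) (pt G a e) (pt G d e)) : ℝ))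
      ≤ 8796093022208 := by
  have h0 : E5 G (fun a b c d e => (8796093022208 : ℝ) - (lk (t1 (pt G a b) (pt G a c) (pt G b c)) (ix (pt G a d) (pt G a e) (pt G d e)) : ℝ))
      = 8796093022208 - E5 G (fun a b c d e => (lk (t1 (pt G a b) (pt G a c) (pt G b c)) (ix (pt G a d) (pt G a e) (pt G d e)) : ℝ)) := by
    have := E5_add G (fun a b c d e => (8796093022208 : ℝ) - (lk (t1 (pt G a b) (pt G a c) (pt G b c)) (ix (pt G a d) (pt G a e) (pt G d e)) : ℝ))
       (fun a b c d e => (lk (t1 (pt G a b) (pt G a c) (pt G b c)) (ix (pt G a d) (pt G a e) (pt G d e)) : ℝ))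
    simp only [sub_add_cancel, E5_const] at this
    linarith
  have h1 : 0 ≤ E5 G (fun a b c d e => (8796093022208 : ℝ) - (lk (t1 (pt G a b) (pt G a c) (pt G b c)) (ix (pt G a d) (pt G a e) (pt G d e)) : ℝ)) := by
    unfold E5
    refine Finset.sum_nonneg (fun a _ => ?_)
    have h2 := dot_nonneg (fun t : V × V => G.w t.1 * G.w t.2) (fun t => iv (pt G a t.1) (pt G a t.2) (pt G t.1 t.2)) r1
    simp only [Fintype.sum_prod_type] at h2
    have h3 : ∑ b, ∑ c, ∑ d, ∑ e, G.w a * (G.w b * (G.w c * (G.w d * G.w e))) *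
        ((8796093022208 : ℝ) - (lk (t1 (pt G a b) (pt G a c) (pt G b c)) (ix (pt G a d) (pt G a e) (pt G d e)) : ℝ))
        = G.w a * ∑ b, ∑ c, ∑ d, ∑ e, G.w b * G.w c * (G.w d * G.w e) *
          dotR r1 (iv (pt G a b) (pt G a c) (pt G b c)) (iv (pt G a d) (pt G a e) (pt G d e)) := by
      rw [Finset.mul_sum]
      refine Finset.sum_congr rfl (fun b _ => ?_)
      rw [Finset.mul_sum]
      refine Finset.sum_congr rfl (fun c _ => ?_)
      rw [Finset.mul_sum]
      refine Finset.sum_congr rfl (fun d _ => ?_)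
      rw [Finset.mul_sum]
      refine Finset.sum_congr rfl (fun e _ => ?_)
      rw [chkP_spec hC.psd1 (pt_lt G a b) (pt_lt G a c) (pt_lt G b c) (pt_lt G a d) (pt_lt G a e) (pt_lt G d e)]
      ring
    rw [h3]
    exact mul_nonneg (G.wnn a) h2
  linarith

lemma sel_0 {α : Type} (a b c : α) : sel a b c 0 = a := rfl
lemma sel_1 {α : Type} (a b c : α) : sel a b c 1 = b := rfl
lemma sel_2 {α : Type} (a b c : α) : sel a b c 2 = c := rfl

lemma FN_eq (x y z : V) : (FN (pt G x y) (pt G x z) (pt G y z) : ℝ) = G.F x y z := by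
  unfold FN WOG.F
  rcases pt_cases G x y with ⟨a1, -, a2, a3, a4, -, -⟩ | ⟨a1, -, a2, a3, a4, -, -⟩ | ⟨a1, -, a2, a3, a4, -, -⟩ <;>
  rcases pt_cases G x z with ⟨b1, -, b2, b3, b4, -, -⟩ | ⟨b1, -, b2, b3, b4, -, -⟩ | ⟨b1, -, b2, b3, b4, -, -⟩ <;>
  rcases pt_cases G y z with ⟨c1, -, c2, c3, c4, -, -⟩ | ⟨c1, -, c2, c3, c4, -, -⟩ | ⟨c1, -, c2, c3, c4, -, -⟩ <;>
  rw [a1, b1, c1, a2, a3, a4, b2, b3, b4, c2, c3, c4] <;>
  simp only [nonN, outN, inN, sel_0, sel_1, sel_2] <;> norm_num <;> rfl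

lemma adj_eq (x y : V) : (adjN (pt G x y) : ℝ) = 1 - G.S x y := by
  rcases pt_cases G x y with ⟨a1, -, a2, a3, a4, -, -⟩ | ⟨a1, -, a2, a3, a4, -, -⟩ | ⟨a1, -, a2, a3, a4, -, -⟩ <;>
  rw [a1, a4] <;> simp only [adjN, sel_0, sel_1, sel_2] <;> norm_num

lemma non_eq (x y : V) : (nonN (pt G x y) : ℝ) = G.S x y := by
  rcases pt_cases G x y with ⟨a1, -, a2, a3, a4, -, -⟩ | ⟨a1, -, a2, a3, a4, -, -⟩ | ⟨a1, -, a2, a3, a4, -, -⟩ <;>
  rw [a1, a4] <;> simp only [nonN, sel_0, sel_1, sel_2] <;> norm_num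

lemma part_eq (z y x : V) : partN (pt G z x) (pt G y x) = (G.rootPart z y x).val := by
  unfold WOG.rootPart
  rcases pt_cases G z x with ⟨a1, -, -, -, -, a2, a3⟩ | ⟨a1, -, -, -, -, a2, a3⟩ | ⟨a1, -, -, -, -, a2, a3⟩ <;>
  rcases pt_cases G y x with ⟨b1, -, -, -, -, b2, b3⟩ | ⟨b1, -, -, -, -, b2, b3⟩ | ⟨b1, -, -, -, -, b2, b3⟩ <;>
  rw [a1, b1] <;> simp only [partN, sel_0, sel_1, sel_2] <;> simp [a2, a3, b2, b3]

lemma bad_eq (z y x x' : V) :
    (badN (pt G z x) (pt G y x) (pt G z x') (pt G y x') (pt G x x') : ℝ) = G.D (G.rootPart z y) x x' := by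
  unfold badN WOG.D
  rw [part_eq, part_eq]
  by_cases h : G.rootPart z y x = G.rootPart z y x'
  · rw [h, if_pos rfl, Nat.beq_refl]
    simp only [cond_true]
    exact adj_eq G x x'
  · have h' : Nat.beq (G.rootPart z y x).val (G.rootPart z y x').val = false := by
      rw [← Bool.not_eq_true, beqT]
      exact fun hh => h (Fin.ext hh)
    rw [if_neg h, h']
    simp only [cond_false]
    exact non_eq G x x'

lemma E5_O (hC : Cert tO t3 t1 r3 r1 c4 bI th) :
    E5 G (fun a b c d _ => (lk (tO (pt G a b) (pt G a c) (pt G b c)) (ix (pt G a d) (pt G b d) (pt G c d)) : ℝ))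
      = 1099511627776 - 9000000000 * ((∑ z, ∑ y, G.w z * G.w y *
      ((1 - G.S z y) * (G.eta (G.rootPart z y) + th * (G.sbar - 1/3) - c4/10000))) + bI/1000000 * (4/9 - G.T)) := by
  have hpt : ∀ a b c d : V, (lk (tO (pt G a b) (pt G a c) (pt G b c)) (ix (pt G a d) (pt G b d) (pt G c d)) : ℝ)
      = 1099511627776 - 9000000000 * ((1 - G.S a b) * G.D (G.rootPart a b) c d)
        - 9000000000 * th * (1 - G.S a b) * G.S c d
        + (3000000000 * th + 900000 * c4) * (1 - G.S a b)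
        - 4000 * bI + 9000 * bI * G.F a b c := by
    intro a b c d
    have h := all6_spec hC.obj (pt_lt G a b) (pt_lt G a c) (pt_lt G b c) (pt_lt G a d) (pt_lt G b d) (pt_lt G c d)
    unfold okO at h
    rw [beqT] at h
    have h2 := congrArg (Nat.cast (R := ℝ)) h
    push_cast at h2
    rw [bad_eq, adj_eq, non_eq, FN_eq] at h2
    linarith
  simp only [hpt]
  unfold E5
  -- sum out e
  have s1 : ∀ a b c d : V, ∑ e, G.w a * (G.w b * (G.w c * (G.w d * G.w e))) *
      (1099511627776 - 9000000000 * ((1 - G.S a b) * G.D (G.rootPart a b) c d)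
        - 9000000000 * th * (1 - G.S a b) * G.S c d
        + (3000000000 * th + 900000 * c4) * (1 - G.S a b)
        - 4000 * bI + 9000 * bI * G.F a b c)
      = G.w a * (G.w b * (G.w c * G.w d)) *
      (1099511627776 - 9000000000 * ((1 - G.S a b) * G.D (G.rootPart a b) c d)
        - 9000000000 * th * (1 - G.S a b) * G.S c d
        + (3000000000 * th + 900000 * c4) * (1 - G.S a b)
        - 4000 * bI + 9000 * bI * G.F a b c) := by
    intro a b c d
    rw [← Finset.sum_mul]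
    congr 1
    simp only [← Finset.mul_sum, G.wsum, mul_one]
  simp only [s1]
  -- sum out d
  have s2 : ∀ a b c : V, ∑ d, G.w a * (G.w b * (G.w c * G.w d)) *
      (1099511627776 - 9000000000 * ((1 - G.S a b) * G.D (G.rootPart a b) c d)
        - 9000000000 * th * (1 - G.S a b) * G.S c d
        + (3000000000 * th + 900000 * c4) * (1 - G.S a b)
        - 4000 * bI + 9000 * bI * G.F a b c)
      = G.w a * (G.w b * G.w c) *
      (1099511627776 - 9000000000 * ((1 - G.S a b) * G.b (G.rootPart a b) c)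
        - 9000000000 * th * (1 - G.S a b) * G.s c
        + (3000000000 * th + 900000 * c4) * (1 - G.S a b)
        - 4000 * bI + 9000 * bI * G.F a b c) := by
    intro a b c
    unfold WOG.b WOG.s
    have e1 : ∀ d, G.w a * (G.w b * (G.w c * G.w d)) *
      (1099511627776 - 9000000000 * ((1 - G.S a b) * G.D (G.rootPart a b) c d)
        - 9000000000 * th * (1 - G.S a b) * G.S c d
        + (3000000000 * th + 900000 * c4) * (1 - G.S a b)
        - 4000 * bI + 9000 * bI * G.F a b c)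
        = G.w d * (G.w a * (G.w b * G.w c) * (1099511627776 + (3000000000 * th + 900000 * c4) * (1 - G.S a b)
        - 4000 * bI + 9000 * bI * G.F a b c))
         - (G.w d * G.D (G.rootPart a b) c d) * (G.w a * (G.w b * G.w c) * (9000000000 * (1 - G.S a b)))
         - (G.w d * G.S c d) * (G.w a * (G.w b * G.w c) * (9000000000 * th * (1 - G.S a b))) := by
      intro d; ring
    simp only [e1, Finset.sum_sub_distrib, ← Finset.sum_mul, G.wsum]
    ring
  simp only [s2]
  have s3 : ∀ a b : V, ∑ c, G.w a * (G.w b * G.w c) *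
      (1099511627776 - 9000000000 * ((1 - G.S a b) * G.b (G.rootPart a b) c)
        - 9000000000 * th * (1 - G.S a b) * G.s c
        + (3000000000 * th + 900000 * c4) * (1 - G.S a b)
        - 4000 * bI + 9000 * bI * G.F a b c)
      = G.w a * G.w b *
      (1099511627776 - 9000000000 * ((1 - G.S a b) * G.eta (G.rootPart a b))
        - 9000000000 * th * (1 - G.S a b) * G.sbar
        + (3000000000 * th + 900000 * c4) * (1 - G.S a b)
        - 4000 * bI) + 9000 * bI * (G.w a * ∑ c, G.w b * G.w c * G.F a b c) := by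
    intro a b
    unfold WOG.eta WOG.sbar
    have e1 : ∀ c, G.w a * (G.w b * G.w c) *
      (1099511627776 - 9000000000 * ((1 - G.S a b) * G.b (G.rootPart a b) c)
        - 9000000000 * th * (1 - G.S a b) * G.s c
        + (3000000000 * th + 900000 * c4) * (1 - G.S a b)
        - 4000 * bI + 9000 * bI * G.F a b c)
        = G.w c * (G.w a * G.w b * (1099511627776 + (3000000000 * th + 900000 * c4) * (1 - G.S a b)
        - 4000 * bI))
         - (G.w c * G.b (G.rootPart a b) c) * (G.w a * G.w b * (9000000000 * (1 - G.S a b)))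
         - (G.w c * G.s c) * (G.w a * G.w b * (9000000000 * th * (1 - G.S a b)))
         + 9000 * bI * G.w a * (G.w b * G.w c * G.F a b c) := by
      intro c; ring
    simp only [e1, Finset.sum_sub_distrib, Finset.sum_add_distrib, ← Finset.sum_mul, ← Finset.mul_sum, G.wsum]
    ring
  simp only [s3]
  have hT : ∑ a, ∑ b, 9000 * (bI : ℝ) * (G.w a * ∑ c, G.w b * G.w c * G.F a b c) = 9000 * bI * G.T := by
    unfold WOG.T WOG.T1
    simp only [Finset.mul_sum]
  have h1 : ∑ a, ∑ b, G.w a * G.w b * (1099511627776 - 4000 * (bI : ℝ)) = 1099511627776 - 4000 * bI := by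
    simp only [← Finset.sum_mul, ← Finset.mul_sum, G.wsum, mul_one, one_mul]
  have h2 : ∀ a b : V, G.w a * G.w b *
      (1099511627776 - 9000000000 * ((1 - G.S a b) * G.eta (G.rootPart a b))
        - 9000000000 * th * (1 - G.S a b) * G.sbar
        + (3000000000 * th + 900000 * c4) * (1 - G.S a b)
        - 4000 * bI) = G.w a * G.w b * (1099511627776 - 4000 * (bI : ℝ)) - 9000000000 * (G.w a * G.w b *
      ((1 - G.S a b) * (G.eta (G.rootPart a b) + th * (G.sbar - 1/3) - c4/10000))) := by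
    intro a b; ring
  simp only [h2, Finset.sum_add_distrib, Finset.sum_sub_distrib]
  rw [hT, h1]
  have h3 : ∑ a, ∑ b, 9000000000 * (G.w a * G.w b *
      ((1 - G.S a b) * (G.eta (G.rootPart a b) + th * (G.sbar - 1/3) - c4/10000)))
      = 9000000000 * ∑ a, ∑ b, G.w a * G.w b *
      ((1 - G.S a b) * (G.eta (G.rootPart a b) + th * (G.sbar - 1/3) - c4/10000)) := by
    simp only [Finset.mul_sum]
  rw [h3]
  ring

theorem flag_generic (hC : Cert tO t3 t1 r3 r1 c4 bI th) :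
    ∑ z, ∑ y, G.w z * G.w y *
      ((1 - G.S z y) * (G.eta (G.rootPart z y) + th * (G.sbar - 1/3) - c4/10000)) ≤ - (bI/1000000 * (4/9 - G.T)) := by
  have h1 := E5_g G hC
  have h2 := E5_3 G hC
  have h3 := E5_1 G hC
  have h4 := E5_O G hC
  have h5 : E5 G (fun a b c d e => (gN tO t3 t1 (pt G a b) (pt G a c) (pt G b c) (pt G a d) (pt G b d)
      (pt G c d) (pt G a e) (pt G b e) (pt G c e) (pt G d e) : ℝ))
      = E5 G (fun a b c d _ => (lk (tO (pt G a b) (pt G a c) (pt G b c)) (ix (pt G a d) (pt G b d) (pt G c d)) : ℝ))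
      + (E5 G (fun a b c d e => (lk (t3 (pt G a b) (pt G a c) (pt G b c) (pt G a d) (pt G b d) (pt G c d))
      (ix (pt G a e) (pt G b e) (pt G c e)) : ℝ))
      + E5 G (fun a b c d e => (lk (t1 (pt G a b) (pt G a c) (pt G b c)) (ix (pt G a d) (pt G a e) (pt G d e)) : ℝ))) := by
    rw [← E5_add, ← E5_add]
    congr 1
    funext a b c d e
    unfold gN
    simp only [Nat.add_eq]
    push_cast
    ring
  rw [h5, h4] at h1
  linarith

end gen
end Flag
end Pool.Agent.FdF
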