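import Pool.Agent.FdF.FlagCheck

set_option autoImplicit false

namespace Pool.Agent.FdF
namespace Flag

open Finset

/-! ### positive semidefinite tables -/

noncomputable def lhsR (i j : ℕ) (rows : List ℕ) : ℕ :=
  @List.rec ℕ (fun _ => ℕ) 8796093022208
    (fun r _ acc => Nat.add (Nat.mul 2097152 (Nat.add (lv r i) (lv r j))) acc) rows
noncomputable def rhsR (i j t : ℕ) (rows : List ℕ) : ℕ :=
  @List.rec ℕ (fun _ => ℕ) t
    (fun r _ acc => Nat.add (Nat.mul (lv r i) (lv r j)) (Nat.add 4398046511104 acc)) rows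
noncomputable def okrow (rows : List ℕ) (i j t : ℕ) : Bool := Nat.beq (lhsR i j rows) (rhsR i j t rows)

noncomputable def dotR (rows : List ℕ) (i j : ℕ) : ℝ :=
  (rows.map (fun r => ((lv r i : ℝ) - 2097152) * ((lv r j : ℝ) - 2097152))).sum

lemma lhs_rhs (i j t : ℕ) (rows : List ℕ) :
    (lhsR i j rows : ℝ) - (rhsR i j t rows : ℝ) = 8796093022208 - (t : ℝ) - dotR rows i j := by
  induction rows with
  | nil => simp [lhsR, rhsR, dotR]
  | cons r rows ih =>
    have h1 : lhsR i j (r :: rows) = 2097152 * (lv r i + lv r j) + lhsR i j rows := rfl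
    have h2 : rhsR i j t (r :: rows) = lv r i * lv r j + (4398046511104 + rhsR i j t rows) := rfl
    have h3 : dotR (r :: rows) i j = ((lv r i : ℝ) - 2097152) * ((lv r j : ℝ) - 2097152) + dotR rows i j := by
      simp [dotR]
    rw [h1, h2, h3]
    push_cast
    linarith

lemma okrow_spec {rows : List ℕ} {i j t : ℕ} (h : okrow rows i j t = true) :
    8796093022208 - (t : ℝ) = dotR rows i j := by
  have h1 := lhs_rhs i j t rows
  have h2 : lhsR i j rows = rhsR i j t rows := (beqT _ _).mp h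
  rw [h2, sub_self] at h1
  linarith

lemma dot_nonneg {ι : Type} [Fintype ι] (w : ι → ℝ) (f : ι → ℕ) (rows : List ℕ) :
    0 ≤ ∑ x, ∑ y, w x * w y * dotR rows (f x) (f y) := by
  induction rows with
  | nil => simp [dotR]
  | cons r rows ih =>
    have h3 : ∀ i j, dotR (r :: rows) i j = ((lv r i : ℝ) - 2097152) * ((lv r j : ℝ) - 2097152) + dotR rows i j := by
      intro i j
      simp [dotR]
    have h4 : ∑ x, ∑ y, w x * w y * dotR (r :: rows) (f x) (f y)
        = (∑ x, w x * ((lv r (f x) : ℝ) - 2097152))^2 + ∑ x, ∑ y, w x * w y * dotR rows (f x) (f y) := by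
      rw [sq, Finset.sum_mul_sum, ← Finset.sum_add_distrib]
      refine Finset.sum_congr rfl (fun x _ => ?_)
      rw [← Finset.sum_add_distrib]
      refine Finset.sum_congr rfl (fun y _ => ?_)
      rw [h3]; ring
    rw [h4]
    positivity

/-- all 6-trit lookups -/
def all6 (f : ℕ → ℕ → ℕ → ℕ → ℕ → ℕ → Bool) : Bool :=
  tt fun p => tt fun q => tt fun r => tt fun p' => tt fun q' => tt fun r' => f p q r p' q' r'

lemma all6_spec {f : ℕ → ℕ → ℕ → ℕ → ℕ → ℕ → Bool} (h : all6 f = true) {p q r p' q' r' : ℕ}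
    (h1 : p < 3) (h2 : q < 3) (h3 : r < 3) (h4 : p' < 3) (h5 : q' < 3) (h6 : r' < 3) :
    f p q r p' q' r' = true :=
  tt_spec (tt_spec (tt_spec (tt_spec (tt_spec (tt_spec h h1) h2) h3) h4) h5) h6

noncomputable def chkP (rows : List ℕ) (t : ℕ → ℕ → ℕ → ℕ) : Bool :=
  all6 fun p q r p' q' r' => okrow rows (iv p q r) (iv p' q' r') (lk (t p q r) (ix p' q' r'))

/-! ### the objective table -/
noncomputable def adjN (p : ℕ) : ℕ := sel 0 1 1 p
noncomputable def nonN (p : ℕ) : ℕ := sel 1 0 0 p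
noncomputable def outN (p : ℕ) : ℕ := sel 0 1 0 p
noncomputable def inN (p : ℕ) : ℕ := sel 0 0 1 p
noncomputable def partN (pz py : ℕ) : ℕ := sel 0 (sel 1 2 2 py) (sel 1 2 2 py) pz
noncomputable def badN (p02 p12 p03 p13 p23 : ℕ) : ℕ :=
  cond (Nat.beq (partN p02 p12) (partN p03 p13)) (adjN p23) (nonN p23)
noncomputable def FN (p01 p02 p12 : ℕ) : ℕ :=
  cond (Nat.ble 2 (nonN p01 + nonN p02 + nonN p12)) 1
    (outN p01 * outN p02 + inN p01 * outN p12 + inN p02 * inN p12)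

noncomputable def okO (tO : ℕ → ℕ → ℕ → ℕ) (c4 bI th : ℕ) (p01 p02 p12 p03 p13 p23 : ℕ) : Bool :=
  Nat.beq (lk (tO p01 p02 p12) (ix p03 p13 p23) + 9000000000 * (adjN p01 * badN p02 p12 p03 p13 p23)
      + 4000 * bI + th * (9000000000 * (adjN p01 * nonN p23)))
    (1099511627776 + 900000 * c4 * adjN p01 + 9000 * bI * FN p01 p02 p12 + th * (3000000000 * adjN p01))

/-- all certificate checks -/
structure Cert (tO : ℕ → ℕ → ℕ → ℕ) (t3 : ℕ → ℕ → ℕ → ℕ → ℕ → ℕ → ℕ) (t1 : ℕ → ℕ → ℕ → ℕ)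
    (r3 : ℕ → ℕ → ℕ → List ℕ) (r1 : List ℕ) (c4 bI th : ℕ) : Prop where
  chk : ∀ p01 p10 p02 p20, TR p01 p10 → TR p02 p20 → chkB tO t3 t1 2243003720663040 p01 p10 p02 p20 = true
  psd3 : ∀ a b c, a < 3 → b < 3 → c < 3 → chkP (r3 a b c) (t3 a b c) = true
  psd1 : chkP r1 t1 = true
  obj : all6 (okO tO c4 bI th) = true

end Flag
end Pool.Agent.FdF
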