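import Pool.Agent.FdF.Defs

set_option autoImplicit false

namespace Pool.Agent.FdF

open Finset Classical

namespace WOG

variable {V : Type} [Fintype V] {G : WOG V}

/-- the three states of a pair -/
lemma s2_tri (x y : V) :
    (G.R x y ∧ ¬ G.R y x ∧ G.a x y = 1 ∧ G.a y x = 0 ∧ G.S x y = 0) ∨
    (¬ G.R x y ∧ G.R y x ∧ G.a x y = 0 ∧ G.a y x = 1 ∧ G.S x y = 0) ∨
    (¬ G.R x y ∧ ¬ G.R y x ∧ G.a x y = 0 ∧ G.a y x = 0 ∧ G.S x y = 1) := by
  unfold a S
  by_cases h : G.R x y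
  · have := G.asym _ _ h
    left
    simp [h, this]
  · by_cases h' : G.R y x
    · right; left
      simp [h, h']
    · right; right
      simp [h, h']

/-- the explicit description of the edges -/
def s2_E (G : WOG V) (x y z : V) : Prop :=
  (¬ G.R x y ∧ ¬ G.R y x ∧ ¬ G.R x z ∧ ¬ G.R z x) ∨ (G.R x y ∧ G.R x z) ∨
  (¬ G.R x y ∧ ¬ G.R y x ∧ ¬ G.R y z ∧ ¬ G.R z y) ∨ (G.R y x ∧ G.R y z) ∨
  (¬ G.R x z ∧ ¬ G.R z x ∧ ¬ G.R y z ∧ ¬ G.R z y) ∨ (G.R z x ∧ G.R z y)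

lemma s2_F (x y z : V) : G.F x y z ≤ if G.s2_E x y z then 1 else 0 := by
  unfold F s2_E
  rcases s2_tri (G := G) x y with ⟨a1, a2, a3, a4, a5⟩ | ⟨a1, a2, a3, a4, a5⟩ | ⟨a1, a2, a3, a4, a5⟩ <;>
  rcases s2_tri (G := G) x z with ⟨b1, b2, b3, b4, b5⟩ | ⟨b1, b2, b3, b4, b5⟩ | ⟨b1, b2, b3, b4, b5⟩ <;>
  rcases s2_tri (G := G) y z with ⟨c1, c2, c3, c4, c5⟩ | ⟨c1, c2, c3, c4, c5⟩ | ⟨c1, c2, c3, c4, c5⟩ <;>
  simp only [a1, a2, a3, a4, a5, b1, b2, b3, b4, b5, c1, c2, c3, c4, c5] <;> norm_num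

/-- the edges as sets -/
def s2_P {n : ℕ} (R : Fin n → Fin n → Prop) (s : Finset (Fin n)) : Prop :=
  ∃ x ∈ s, (∀ y ∈ s, y ≠ x → (¬ R x y ∧ ¬ R y x)) ∨ (∀ y ∈ s, y ≠ x → R x y)

lemma s2_E_P {n : ℕ} {G : WOG (Fin n)} {x y z : Fin n} (h : G.s2_E x y z) :
    s2_P G.R {x, y, z} := by
  unfold s2_P
  simp only [mem_insert, mem_singleton]
  rcases h with ⟨h1, h2, h3, h4⟩ | ⟨h1, h2⟩ | ⟨h1, h2, h3, h4⟩ | ⟨h1, h2⟩ | ⟨h1, h2, h3, h4⟩ | ⟨h1, h2⟩
  · refine ⟨x, Or.inl rfl, Or.inl ?_⟩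
    rintro t (rfl | rfl | rfl) ht
    · exact absurd rfl ht
    · exact ⟨h1, h2⟩
    · exact ⟨h3, h4⟩
  · refine ⟨x, Or.inl rfl, Or.inr ?_⟩
    rintro t (rfl | rfl | rfl) ht
    · exact absurd rfl ht
    · exact h1
    · exact h2
  · refine ⟨y, Or.inr (Or.inl rfl), Or.inl ?_⟩
    rintro t (rfl | rfl | rfl) ht
    · exact ⟨h2, h1⟩
    · exact absurd rfl ht
    · exact ⟨h3, h4⟩
  · refine ⟨y, Or.inr (Or.inl rfl), Or.inr ?_⟩
    rintro t (rfl | rfl | rfl) ht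
    · exact h1
    · exact absurd rfl ht
    · exact h2
  · refine ⟨z, Or.inr (Or.inr rfl), Or.inl ?_⟩
    rintro t (rfl | rfl | rfl) ht
    · exact ⟨h2, h1⟩
    · exact ⟨h4, h3⟩
    · exact absurd rfl ht
  · refine ⟨z, Or.inr (Or.inr rfl), Or.inr ?_⟩
    rintro t (rfl | rfl | rfl) ht
    · exact h1
    · exact h2
    · exact absurd rfl ht

/-- ordered triples of distinct vertices -/
def s2_D (n : ℕ) : Finset (Fin n × Fin n × Fin n) :=
  Finset.univ.filter (fun t => t.1 ≠ t.2.1 ∧ t.1 ≠ t.2.2 ∧ t.2.1 ≠ t.2.2)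

lemma s2_perm {n : ℕ} {a b c x y z : Fin n} (hab : a ≠ b) (hac : a ≠ c) (hbc : b ≠ c)
    (hxy : x ≠ y) (hxz : x ≠ z) (hyz : y ≠ z) (h : ({x, y, z} : Finset (Fin n)) = {a, b, c}) :
    (x, y, z) ∈ ({(a, b, c), (a, c, b), (b, a, c), (b, c, a), (c, a, b), (c, b, a)} :
      Finset (Fin n × Fin n × Fin n)) := by
  have hx : x ∈ ({a, b, c} : Finset (Fin n)) := by rw [← h]; simp
  have hy : y ∈ ({a, b, c} : Finset (Fin n)) := by rw [← h]; simp
  have hz : z ∈ ({a, b, c} : Finset (Fin n)) := by rw [← h]; simp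
  simp only [mem_insert, mem_singleton] at hx hy hz
  simp only [mem_insert, mem_singleton, Prod.mk.injEq]
  rcases hx with rfl | rfl | rfl <;> rcases hy with rfl | rfl | rfl <;>
    rcases hz with rfl | rfl | rfl <;> simp_all

/-- every set of three vertices comes from at most six ordered triples -/
lemma s2_count {n : ℕ} (R : Fin n → Fin n → Prop) :
    ((s2_D n).filter (fun t => s2_P R {t.1, t.2.1, t.2.2})).card ≤
      6 * ((Finset.univ.powersetCard 3).filter (fun s : Finset (Fin n) => s2_P R s)).card := by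
  set A := (s2_D n).filter (fun t => s2_P R {t.1, t.2.1, t.2.2}) with hA
  set f : Fin n × Fin n × Fin n → Finset (Fin n) := fun t => {t.1, t.2.1, t.2.2} with hf
  have h1 : A.card ≤ 6 * (A.image f).card := by
    apply Finset.card_le_mul_card_image
    intro s hs
    rw [mem_image] at hs
    obtain ⟨⟨a, b, c⟩, habc, rfl⟩ := hs
    rw [hA, mem_filter, s2_D, mem_filter] at habc
    obtain ⟨⟨-, hab, hac, hbc⟩, -⟩ := habc
    simp only at hab hac hbc
    refine le_trans (Finset.card_le_card ?_) (Finset.card_le_six (a := (a, b, c))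
      (b := (a, c, b)) (c := (b, a, c)) (d := (b, c, a)) (e := (c, a, b)) (f := (c, b, a)))
    rintro ⟨x, y, z⟩ ht
    rw [mem_filter, hA, mem_filter, s2_D, mem_filter] at ht
    obtain ⟨⟨⟨-, hxy, hxz, hyz⟩, -⟩, he⟩ := ht
    exact s2_perm hab hac hbc hxy hxz hyz he
  refine h1.trans (Nat.mul_le_mul_left 6 (Finset.card_le_card ?_))
  intro s hs
  rw [mem_image] at hs
  obtain ⟨⟨a, b, c⟩, habc, rfl⟩ := hs
  rw [hA, mem_filter, s2_D, mem_filter] at habc
  obtain ⟨⟨-, hab, hac, hbc⟩, hP⟩ := habc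
  simp only at hab hac hbc
  rw [mem_filter, mem_powersetCard]
  exact ⟨⟨subset_univ _, Finset.card_eq_three.mpr ⟨a, b, c, hab, hac, hbc, rfl⟩⟩, hP⟩

/-- the sum of `F` over all ordered triples -/
lemma s2_sum {n : ℕ} (G : WOG (Fin n)) :
    ∑ x, ∑ y, ∑ z, G.F x y z ≤
      6 * (((Finset.univ.powersetCard 3).filter (fun s : Finset (Fin n) => s2_P G.R s)).card : ℝ)
        + 3 * (n : ℝ) ^ 2 := by
  have h1 : ∀ x y z : Fin n, G.F x y z ≤
      (if (x, y, z) ∈ (s2_D n).filter (fun t => s2_P G.R {t.1, t.2.1, t.2.2}) then 1 else 0) +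
        ((if x = y then 1 else 0) + (if x = z then 1 else 0) + (if y = z then 1 else 0)) := by
    intro x y z
    have h2 := s2_F (G := G) x y z
    have h3 : (0 : ℝ) ≤ if x = y then 1 else 0 := by split_ifs <;> norm_num
    have h4 : (0 : ℝ) ≤ if x = z then 1 else 0 := by split_ifs <;> norm_num
    have h5 : (0 : ℝ) ≤ if y = z then 1 else 0 := by split_ifs <;> norm_num
    have h6 : (0 : ℝ) ≤ if (x, y, z) ∈ (s2_D n).filter
        (fun t => s2_P G.R {t.1, t.2.1, t.2.2}) then 1 else 0 := by split_ifs <;> norm_num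
    by_cases hE : G.s2_E x y z
    · rw [if_pos hE] at h2
      by_cases hxy : x = y
      · rw [if_pos hxy]; linarith
      by_cases hxz : x = z
      · rw [if_pos hxz]; linarith
      by_cases hyz : y = z
      · rw [if_pos hyz]; linarith
      have hmem : (x, y, z) ∈ (s2_D n).filter (fun t => s2_P G.R {t.1, t.2.1, t.2.2}) := by
        rw [mem_filter, s2_D, mem_filter]
        exact ⟨⟨mem_univ _, hxy, hxz, hyz⟩, s2_E_P hE⟩
      rw [if_pos hmem]
      linarith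
    · rw [if_neg hE] at h2
      linarith
  have h2 : ∑ x, ∑ y, ∑ z, G.F x y z ≤ ∑ x : Fin n, ∑ y : Fin n, ∑ z : Fin n,
      ((if (x, y, z) ∈ (s2_D n).filter (fun t => s2_P G.R {t.1, t.2.1, t.2.2}) then (1 : ℝ) else 0) +
        ((if x = y then 1 else 0) + (if x = z then 1 else 0) + (if y = z then 1 else 0))) :=
    Finset.sum_le_sum fun x _ => Finset.sum_le_sum fun y _ => Finset.sum_le_sum fun z _ => h1 x y z
  refine h2.trans ?_
  simp only [Finset.sum_add_distrib]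
  have h3 : ∑ x : Fin n, ∑ y : Fin n, ∑ z : Fin n,
      (if (x, y, z) ∈ (s2_D n).filter (fun t => s2_P G.R {t.1, t.2.1, t.2.2}) then (1 : ℝ) else 0) =
      (((s2_D n).filter (fun t => s2_P G.R {t.1, t.2.1, t.2.2})).card : ℝ) := by
    have h4 : ∑ x : Fin n, ∑ y : Fin n, ∑ z : Fin n,
        (if (x, y, z) ∈ (s2_D n).filter (fun t => s2_P G.R {t.1, t.2.1, t.2.2}) then (1 : ℝ) else 0) =
        ∑ t : Fin n × Fin n × Fin n,
        (if t ∈ (s2_D n).filter (fun t => s2_P G.R {t.1, t.2.1, t.2.2}) then (1 : ℝ) else 0) := by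
      rw [Fintype.sum_prod_type]
      apply Finset.sum_congr rfl
      intro x _
      rw [Fintype.sum_prod_type]
    rw [h4, Finset.sum_ite_mem, Finset.univ_inter, Finset.sum_const, nsmul_eq_mul, mul_one]
  have h5 : ∑ x : Fin n, ∑ y : Fin n, ∑ z : Fin n, (if x = y then (1 : ℝ) else 0) = (n : ℝ) ^ 2 := by
    simp [Finset.sum_ite_eq, sq]
  have h6 : ∑ x : Fin n, ∑ y : Fin n, ∑ z : Fin n, (if x = z then (1 : ℝ) else 0) = (n : ℝ) ^ 2 := by
    simp [Finset.sum_ite_eq, sq]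
  have h7 : ∑ x : Fin n, ∑ y : Fin n, ∑ z : Fin n, (if y = z then (1 : ℝ) else 0) = (n : ℝ) ^ 2 := by
    simp [Finset.sum_ite_eq, sq]
  rw [h3, h5, h6, h7]
  have h8 : (((s2_D n).filter (fun t => s2_P G.R {t.1, t.2.1, t.2.2})).card : ℝ) ≤
      6 * (((Finset.univ.powersetCard 3).filter (fun s : Finset (Fin n) => s2_P G.R s)).card : ℝ) := by
    exact_mod_cast s2_count G.R
  linarith

end WOG

/-- Task S2: transfer to the frozen statement -/
theorem frozen_of (H : ∀ (V : Type) [Fintype V] (G : WOG V), 4/9 ≤ G.T) :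
    ∀ ε : ℝ, ε > 0 → ∃ N : ℕ, ∀ n : ℕ, n ≥ N →
      ∀ R : Fin n → Fin n → Prop,
        (∀ u v, R u v → ¬ R v u) →
        (¬ ∃ a b c d : Fin n, R a b ∧ R b c ∧ R c d ∧ R d a ∧
            ¬ R a c ∧ ¬ R c a ∧ ¬ R b d ∧ ¬ R d b) →
        (((Finset.univ.powersetCard 3).filter (fun s : Finset (Fin n) =>
            ∃ x ∈ s, (∀ y ∈ s, y ≠ x → (¬ R x y ∧ ¬ R y x)) ∨
                     (∀ y ∈ s, y ≠ x → R x y))).card : ℝ)
          ≥ (4 / 9 - ε) * ((n.choose 3 : ℕ) : ℝ) := by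
  intro ε hε
  obtain ⟨N0, hN0⟩ := exists_nat_ge (12 / ε)
  refine ⟨max 4 N0, ?_⟩
  intro n hn R hasym hc4
  have hn4 : 4 ≤ n := le_trans (le_max_left _ _) hn
  have hnN : N0 ≤ n := le_trans (le_max_right _ _) hn
  have hnr : (4 : ℝ) ≤ n := by exact_mod_cast hn4
  have hn0 : (0 : ℝ) < n := by linarith
  have hnε : 12 ≤ ε * n := by
    have h1 : 12 / ε ≤ n := hN0.trans (by exact_mod_cast hnN)
    rw [div_le_iff₀ hε] at h1
    linarith
  let G : WOG (Fin n) :=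
    { R := R
      asym := hasym
      c4 := hc4
      w := fun _ => 1 / n
      wnn := fun _ => by positivity
      wsum := by
        rw [Finset.sum_const, Finset.card_univ, Fintype.card_fin, nsmul_eq_mul]
        field_simp }
  have hT := H (Fin n) G
  have hTs : G.T = (∑ x, ∑ y, ∑ z, G.F x y z) / (n : ℝ) ^ 3 := by
    unfold WOG.T WOG.T1
    have e1 : ∀ x : Fin n, G.w x = 1 / n := fun _ => rfl
    simp only [e1]
    simp only [← Finset.mul_sum]
    field_simp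
  have hsum := WOG.s2_sum G
  have hGR : G.R = R := rfl
  rw [hGR] at hsum
  set E : ℝ := (((Finset.univ.powersetCard 3).filter (fun s : Finset (Fin n) =>
    WOG.s2_P R s)).card : ℝ) with hE
  have hgoal : (((Finset.univ.powersetCard 3).filter (fun s : Finset (Fin n) =>
            ∃ x ∈ s, (∀ y ∈ s, y ≠ x → (¬ R x y ∧ ¬ R y x)) ∨
                     (∀ y ∈ s, y ≠ x → R x y))).card : ℝ) = E := by
    rw [hE]
    congr 2
    ext s
    simp only [Finset.mem_filter, WOG.s2_P]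
  rw [ge_iff_le, hgoal]
  rw [hTs, le_div_iff₀ (by positivity)] at hT
  have hE1 : 4 / 9 * (n : ℝ) ^ 3 ≤ 6 * E + 3 * (n : ℝ) ^ 2 := hT.trans hsum
  have hch : ((n.choose 3 : ℕ) : ℝ) * 6 = n * (n - 1) * (n - 2) := by
    have h1 : n.choose 3 * 6 = n * (n - 1) * (n - 2) := by
      have h2 := Nat.descFactorial_eq_factorial_mul_choose n 3
      have h3 : n.descFactorial 3 = n * (n - 1) * (n - 2) := by
        simp only [Nat.descFactorial_succ, Nat.descFactorial_zero, mul_one, tsub_zero]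
        ring
      rw [h3] at h2
      rw [h2]
      norm_num [Nat.factorial]
      ring
    have h4 : ((n.choose 3 * 6 : ℕ) : ℝ) = ((n * (n - 1) * (n - 2) : ℕ) : ℝ) := by rw [h1]
    push_cast [Nat.cast_sub (by omega : 1 ≤ n), Nat.cast_sub (by omega : 2 ≤ n)] at h4
    exact h4
  set c : ℝ := ((n.choose 3 : ℕ) : ℝ) with hc
  have hc1 : 6 * c ≤ (n : ℝ) ^ 3 := by nlinarith
  have hc2 : (n : ℝ) ^ 3 ≤ 24 * c := by nlinarith [mul_nonneg hn0.le (sub_nonneg.mpr hnr), mul_nonneg (mul_nonneg hn0.le (sub_nonneg.mpr hnr)) hn0.le]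
  have hc3 : 12 * (n : ℝ) ^ 2 ≤ ε * (n : ℝ) ^ 3 := by
    have : 12 * (n : ℝ) ^ 2 ≤ ε * n * (n : ℝ) ^ 2 := mul_le_mul_of_nonneg_right hnε (by positivity)
    calc 12 * (n : ℝ) ^ 2 ≤ ε * n * (n : ℝ) ^ 2 := this
      _ = _ := by ring
  have hc4 : ε * (n : ℝ) ^ 3 ≤ ε * (24 * c) := mul_le_mul_of_nonneg_left hc2 hε.le
  nlinarith

end Pool.Agent.FdF
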