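import Pool.Agent.FdF.Defs

set_option autoImplicit false

namespace Pool.Agent.FdF

open Finset Classical

namespace WOG

variable {V : Type} [Fintype V] {G : WOG V}

lemma sum_P (p : V → Fin 3) : ∑ j, G.P p j = 1 := by
  unfold P
  rw [Finset.sum_comm]
  simp only [Finset.sum_ite_eq, Finset.mem_univ, if_true]
  exact G.wsum

lemma P_nonneg (p : V → Fin 3) (j : Fin 3) : 0 ≤ G.P p j := by
  unfold P
  apply Finset.sum_nonneg
  intro y _
  split_ifs
  · exact G.wnn y
  · exact le_rfl

lemma eta_eq (p : V → Fin 3) : G.eta p = G.W p + G.M p := by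
  unfold eta W M b D
  rw [← Finset.sum_add_distrib]
  apply Finset.sum_congr rfl
  intro x _
  rw [Finset.mul_sum, ← Finset.sum_add_distrib]
  apply Finset.sum_congr rfl
  intro y _
  split_ifs <;> ring

lemma W_nonneg (p : V → Fin 3) : 0 ≤ G.W p := by
  unfold W
  apply Finset.sum_nonneg
  intro x _
  apply Finset.sum_nonneg
  intro y _
  split_ifs
  · exact mul_nonneg (mul_nonneg (G.wnn x) (G.wnn y)) (by linarith [S_le_one (G := G) x y])
  · exact le_rfl

lemma M_nonneg (p : V → Fin 3) : 0 ≤ G.M p := by
  unfold M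
  apply Finset.sum_nonneg
  intro x _
  apply Finset.sum_nonneg
  intro y _
  split_ifs
  · exact le_rfl
  · exact mul_nonneg (mul_nonneg (G.wnn x) (G.wnn y)) (S_nonneg x y)

lemma tP_D_nonneg (p : V → Fin 3) (x y : V) : 0 ≤ G.D p x y := by
  unfold D
  split_ifs
  · linarith [S_le_one (G := G) x y]
  · exact S_nonneg x y

lemma b_nonneg (p : V → Fin 3) (x : V) : 0 ≤ G.b p x := by
  unfold b
  exact Finset.sum_nonneg fun y _ => mul_nonneg (G.wnn y) (tP_D_nonneg p x y)

lemma tP_bj (p : V → Fin 3) (x : V) (j : Fin 3) :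
    G.bj p x j = ∑ y, G.w y * (if p y = j then 1 - G.S x y else G.S x y) := by
  unfold bj P n
  have h1 : ∑ k, ∑ y, (if p y = k then G.w y * G.S x y else 0) = ∑ y, G.w y * G.S x y := by
    rw [Finset.sum_comm]
    simp only [Finset.sum_ite_eq, Finset.mem_univ, if_true]
  rw [h1, Finset.mul_sum, ← Finset.sum_sub_distrib, ← Finset.sum_add_distrib]
  apply Finset.sum_congr rfl
  intro y _
  split_ifs <;> ring

lemma b_eq (p : V → Fin 3) (x : V) : G.b p x = G.bj p x (p x) := by
  rw [tP_bj]
  unfold b D
  apply Finset.sum_congr rfl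
  intro y _
  simp only [eq_comm]

lemma n_nonneg (p : V → Fin 3) (x : V) (j : Fin 3) : 0 ≤ G.n p x j := by
  unfold n
  apply Finset.sum_nonneg
  intro y _
  split_ifs
  · exact mul_nonneg (G.wnn y) (S_nonneg x y)
  · exact le_rfl

lemma n_le_P (p : V → Fin 3) (x : V) (j : Fin 3) : G.n p x j ≤ G.P p j := by
  unfold n P
  apply Finset.sum_le_sum
  intro y _
  split_ifs
  · exact mul_le_of_le_one_right (G.wnn y) (S_le_one x y)
  · exact le_rfl

lemma sum_P_sq (p : V → Fin 3) : ∑ j, (G.P p j)^2 = G.sbar + G.W p - G.M p := by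
  have h1 : ∀ j, (G.P p j)^2 = ∑ x, ∑ y, (if p x = j then (if p y = j then G.w x * G.w y else 0) else 0) := by
    intro j
    unfold P
    rw [sq, Finset.sum_mul_sum]
    apply Finset.sum_congr rfl
    intro x _
    apply Finset.sum_congr rfl
    intro y _
    split_ifs <;> ring
  have h2 : ∑ j, (G.P p j)^2 = ∑ x, ∑ y, (if p x = p y then G.w x * G.w y else 0) := by
    simp only [h1]
    rw [Finset.sum_comm]
    apply Finset.sum_congr rfl
    intro x _
    rw [Finset.sum_comm]
    apply Finset.sum_congr rfl
    intro y _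
    rw [Finset.sum_ite_eq]
    simp only [Finset.mem_univ, if_true, eq_comm]
  rw [h2]
  unfold sbar s W M
  rw [← Finset.sum_add_distrib, ← Finset.sum_sub_distrib]
  apply Finset.sum_congr rfl
  intro x _
  rw [Finset.mul_sum, ← Finset.sum_add_distrib, ← Finset.sum_sub_distrib]
  apply Finset.sum_congr rfl
  intro y _
  split_ifs <;> ring

lemma tP_D_symm (p : V → Fin 3) (x y : V) : G.D p x y = G.D p y x := by
  unfold D
  rw [S_symm x y]
  simp only [eq_comm]

lemma tP_D_self (p : V → Fin 3) (x : V) : G.D p x x = 0 := by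
  unfold D
  rw [if_pos rfl, S_self, sub_self]

/-- the change of `eta` when one vertex is moved -/
lemma tP_move (p : V → Fin 3) (x : V) (j : Fin 3) (hj : p x ≠ j) :
    G.eta (Function.update p x j) - G.eta p = 2 * G.w x * (G.bj p x j - G.w x - G.b p x) := by
  set p' := Function.update p x j with hp'
  have hx : p' x = j := Function.update_self x j p
  have hne : ∀ y, y ≠ x → p' y = p y := fun y hy => Function.update_of_ne hy j p
  set g : V → V → ℝ := fun u v => G.w u * (G.w v * G.D p' u v) - G.w u * (G.w v * G.D p u v) with hg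
  have hgs : ∀ u v, g u v = g v u := by
    intro u v
    simp only [hg]
    rw [tP_D_symm p' u v, tP_D_symm p u v]
    ring
  have hgxx : g x x = 0 := by
    simp only [hg]
    rw [tP_D_self, tP_D_self]
    ring
  have hg0 : ∀ u v, u ≠ x → v ≠ x → g u v = 0 := by
    intro u v hu hv
    simp only [hg]
    unfold D
    rw [hne u hu, hne v hv]
    ring
  have h1 : G.eta p' - G.eta p = ∑ u, ∑ v, g u v := by
    unfold eta b
    rw [← Finset.sum_sub_distrib]
    apply Finset.sum_congr rfl
    intro u _
    rw [Finset.mul_sum, Finset.mul_sum, ← Finset.sum_sub_distrib]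
  have h2 : ∀ u v, g u v = (if u = x then g x v else 0) + (if v = x then g x u else 0) := by
    intro u v
    by_cases hu : u = x
    · by_cases hv : v = x
      · rw [if_pos hu, if_pos hv, hu, hv, hgxx]
        ring
      · rw [if_pos hu, if_neg hv, hu, add_zero]
    · by_cases hv : v = x
      · rw [if_neg hu, if_pos hv, hv, zero_add, hgs]
      · rw [if_neg hu, if_neg hv, hg0 u v hu hv, add_zero]
  have h3 : ∑ u, ∑ v, g u v = 2 * ∑ v, g x v := by
    have e0 : ∑ u, ∑ v, g u v = ∑ u, ∑ v, (if u = x then g x v else 0) +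
        ∑ u, ∑ v, (if v = x then g x u else 0) := by
      rw [← Finset.sum_add_distrib]
      apply Finset.sum_congr rfl
      intro u _
      rw [← Finset.sum_add_distrib]
      apply Finset.sum_congr rfl
      intro v _
      exact h2 u v
    have e1 : ∑ u, ∑ v, (if u = x then g x v else 0) = ∑ v, g x v := by
      rw [Finset.sum_comm]
      simp only [Finset.sum_ite_eq', Finset.mem_univ, if_true]
    have e2 : ∑ u, ∑ v, (if v = x then g x u else 0) = ∑ v, g x v := by
      simp only [Finset.sum_ite_eq', Finset.mem_univ, if_true]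
    rw [e0, e1, e2]
    ring
  have h4 : ∑ v, g x v = G.w x * (G.bj p x j - G.w x - G.b p x) := by
    rw [tP_bj]
    have e1 : ∀ v, g x v = G.w x * (G.w v * (if p v = j then 1 - G.S x v else G.S x v)) -
        (if v = x then G.w x * G.w x else 0) - G.w x * (G.w v * G.D p x v) := by
      intro v
      simp only [hg]
      by_cases hv : v = x
      · rw [if_pos hv, hv, tP_D_self, tP_D_self, if_neg hj, S_self]
        ring
      · rw [if_neg hv]
        have e2 : G.D p' x v = if p v = j then 1 - G.S x v else G.S x v := by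
          unfold D
          rw [hx, hne v hv]
          simp only [eq_comm]
        rw [e2]
        ring
    simp only [e1]
    rw [Finset.sum_sub_distrib, Finset.sum_sub_distrib, Finset.sum_ite_eq']
    simp only [Finset.mem_univ, if_true]
    rw [← Finset.mul_sum, ← Finset.mul_sum]
    unfold b
    ring
  rw [h1, h3, h4]
  ring

/-- the adjacency density is positive -/
lemma tP_rho (G : WOG V) (hpos : ∀ x, 0 < G.w x) (hT : G.T < 4/9) :
    0 < ∑ z, ∑ y, G.w z * G.w y * (1 - G.S z y) := by
  have hnn : ∀ z y, 0 ≤ G.w z * G.w y * (1 - G.S z y) := fun z y =>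
    mul_nonneg (mul_nonneg (G.wnn z) (G.wnn y)) (by linarith [S_le_one (G := G) z y])
  rcases (Finset.sum_nonneg fun z _ => Finset.sum_nonneg fun y _ => hnn z y :
    0 ≤ ∑ z, ∑ y, G.w z * G.w y * (1 - G.S z y)).lt_or_eq with h | h
  · exact h
  · exfalso
    have hS : ∀ z y, G.S z y = 1 := by
      intro z y
      have h1 := (Finset.sum_eq_zero_iff_of_nonneg (fun z _ =>
        Finset.sum_nonneg fun y _ => hnn z y)).mp h.symm z (Finset.mem_univ z)
      have h2 := (Finset.sum_eq_zero_iff_of_nonneg (fun y _ => hnn z y)).mp h1 y (Finset.mem_univ y)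
      have h3 := (mul_pos (hpos z) (hpos y)).ne'
      rcases mul_eq_zero.mp h2 with h4 | h4
      · exact absurd h4 h3
      · linarith
    have ha : ∀ z y, G.a z y = 0 := by
      intro z y
      have h1 := aaS (G := G) z y
      have h2 := a_nonneg (G := G) z y
      have h3 := a_nonneg (G := G) y z
      rw [hS z y] at h1
      linarith
    have hF : ∀ x y z, G.F x y z = 1 := by
      intro x y z
      unfold F
      simp only [hS, ha]
      norm_num
    have hT1 : G.T = 1 := by
      unfold T T1
      simp only [hF, mul_one]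
      have e1 : ∑ y, ∑ z, G.w y * G.w z = 1 := by
        rw [← Finset.sum_mul_sum, G.wsum, mul_one]
      simp only [e1, mul_one]
      exact G.wsum
    rw [hT1] at hT
    norm_num at hT

theorem exists_partition (G : WOG V) (hpos : ∀ x, 0 < G.w x) (hT : G.T < 4/9)
    (hC2 : ∑ z, ∑ y, G.w z * G.w y * ((1 - G.S z y) * (G.eta (G.rootPart z y) - 23/10000)) ≤ 0)
    (hC3 : ∑ z, ∑ y, G.w z * G.w y *
      ((1 - G.S z y) * (G.eta (G.rootPart z y) + (G.sbar - 1/3) - 132/10000)) ≤ 0) :
    ∃ p : V → Fin 3, G.eta p ≤ 23/10000 ∧ G.eta p + (G.sbar - 1/3) ≤ 132/10000 ∧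
      ∀ x j, G.bj p x (p x) ≤ G.bj p x j := by
  obtain ⟨p, hp⟩ := Finite.exists_min (fun p : V → Fin 3 => G.eta p)
  have hρ := tP_rho G hpos hT
  have hkey : ∀ c : ℝ, ∑ z, ∑ y, G.w z * G.w y * ((1 - G.S z y) * (G.eta (G.rootPart z y) + c)) ≤ 0 →
      G.eta p + c ≤ 0 := by
    intro c hc
    have h1 : (G.eta p + c) * ∑ z, ∑ y, G.w z * G.w y * (1 - G.S z y) ≤ 0 := by
      refine le_trans ?_ hc
      rw [Finset.mul_sum]
      apply Finset.sum_le_sum
      intro z _
      rw [Finset.mul_sum]
      apply Finset.sum_le_sum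
      intro y _
      have h2 : 0 ≤ G.w z * G.w y * (1 - G.S z y) :=
        mul_nonneg (mul_nonneg (G.wnn z) (G.wnn y)) (by linarith [S_le_one (G := G) z y])
      have h3 := mul_le_mul_of_nonneg_left (add_le_add_left (hp (G.rootPart z y)) c) h2
      calc (G.eta p + c) * (G.w z * G.w y * (1 - G.S z y))
          = G.w z * G.w y * (1 - G.S z y) * (G.eta p + c) := by ring
        _ ≤ G.w z * G.w y * (1 - G.S z y) * (G.eta (G.rootPart z y) + c) := h3
        _ = _ := by ring
    by_contra hcon
    rw [not_le] at hcon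
    have := mul_pos hcon hρ
    linarith
  refine ⟨p, ?_, ?_, ?_⟩
  · have h1 := hkey (-(23/10000)) (by
      simpa only [sub_eq_add_neg] using hC2)
    linarith
  · have h1 := hkey ((G.sbar - 1/3) - 132/10000) (by
      refine le_trans (le_of_eq ?_) hC3
      apply Finset.sum_congr rfl
      intro z _
      apply Finset.sum_congr rfl
      intro y _
      ring)
    linarith
  · intro x j
    by_cases hj : p x = j
    · rw [hj]
    · have h1 := tP_move (G := G) p x j hj
      have h2 := hp (Function.update p x j)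
      have h3 : 0 ≤ 2 * G.w x * (G.bj p x j - G.w x - G.b p x) := by
        rw [← h1]
        linarith
      have h4 := hpos x
      have h5 : 0 ≤ G.bj p x j - G.w x - G.b p x := by
        by_contra hcon
        rw [not_le] at hcon
        have := mul_neg_of_pos_of_neg (by linarith : 0 < 2 * G.w x) hcon
        linarith
      rw [← b_eq]
      linarith

end WOG

end Pool.Agent.FdF
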